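import Pool.Agent.Run7.h302.Prob

open MeasureTheory ProbabilityTheory Finset
open scoped ENNReal

namespace Run7.h302

open Classical in
/-- matrices for which some basis has many light rows -/
noncomputable def badLight {m n : ℕ} (A₀ : Fin m → Fin n → ℝ) (c : Fin n → ℝ) (d : ℕ) (τ : ℝ) :
    Set (Fin m → Fin n → ℝ) :=
  ⋃ S ∈ powersetCard n (univ : Finset (Fin m)),
    ⋃ D ∈ univ.filter (fun D : Finset (Fin m) => D.card ≤ d + 1),
      ⋃ i₀ ∈ (univ : Finset (Fin m)),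
        if D.card = d + 1 ∧ i₀ ∈ S ∧ D ⊆ S ∧ i₀ ∉ D then rowBad A₀ c (S \ insert i₀ D) i₀ τ else ∅

lemma badLight_le {m n : ℕ} (A₀ : Fin m → Fin n → ℝ) (c : Fin n → ℝ) (d : ℕ) {σ τ : ℝ}
    (hσ : 0 < σ) (hτ : 0 ≤ τ) :
    noiseA m n σ (badLight A₀ c d τ) ≤
      ((m.choose n * ((m + 1) ^ (d + 1) * m) : ℕ) : ℝ≥0∞) *
        ENNReal.ofReal ((n * τ / σ) ^ (d + 1)) := by
  classical
  set P := ENNReal.ofReal ((n * τ / σ) ^ (d + 1)) with hP
  have hone : ∀ (S D : Finset (Fin m)) (i₀ : Fin m), S ∈ powersetCard n (univ : Finset (Fin m)) →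
      noiseA m n σ (if D.card = d + 1 ∧ i₀ ∈ S ∧ D ⊆ S ∧ i₀ ∉ D then
        rowBad A₀ c (S \ insert i₀ D) i₀ τ else ∅) ≤ P := by
    intro S D i₀ hS
    split_ifs with h
    · obtain ⟨hD, hi, hDS, hiD⟩ := h
      rw [mem_powersetCard] at hS
      apply rowBad_le A₀ c _ i₀ (by simp) (d + 1) _ hσ hτ
      have hsub : insert i₀ D ⊆ S := by
        intro k hk
        rcases mem_insert.1 hk with rfl | hk
        · exact hi
        · exact hDS hk
      have h1 := card_sdiff_add_card_eq_card hsub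
      rw [card_insert_of_notMem hiD, hD, hS.2] at h1
      omega
    · rw [measure_empty]
      exact zero_le
  calc noiseA m n σ (badLight A₀ c d τ)
      ≤ ∑ S ∈ powersetCard n (univ : Finset (Fin m)),
          ∑ D ∈ univ.filter (fun D : Finset (Fin m) => D.card ≤ d + 1),
            ∑ i₀ ∈ (univ : Finset (Fin m)), P := by
        unfold badLight
        refine (measure_biUnion_finset_le _ _).trans (Finset.sum_le_sum fun S hS => ?_)
        refine (measure_biUnion_finset_le _ _).trans (Finset.sum_le_sum fun D _ => ?_)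
        refine (measure_biUnion_finset_le _ _).trans (Finset.sum_le_sum fun i₀ _ => ?_)
        exact hone S D i₀ hS
    _ = ((m.choose n * ((univ.filter (fun D : Finset (Fin m) => D.card ≤ d + 1)).card * m) : ℕ) :
          ℝ≥0∞) * P := by
        rw [Finset.sum_const, Finset.sum_const, Finset.sum_const, card_powersetCard, card_univ,
          Fintype.card_fin, nsmul_eq_mul, nsmul_eq_mul, nsmul_eq_mul]
        push_cast
        ring
    _ ≤ _ := by
        gcongr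
        have := card_small_finsets (ι := Fin m) (d + 1)
        rwa [Fintype.card_fin] at this

open Classical in
/-- matrices for which some basis has a large dual vector -/
noncomputable def badLarge {m n : ℕ} (A₀ : Fin m → Fin n → ℝ) (Y : ℝ) :
    Set (Fin m → Fin n → ℝ) :=
  ⋃ S ∈ powersetCard n (univ : Finset (Fin m)),
      ⋃ i₀ ∈ (univ : Finset (Fin m)),
        if i₀ ∈ S then rowBad A₀ 0 (S.erase i₀) i₀ (1 / Y) else ∅

lemma badLarge_le {m n : ℕ} (A₀ : Fin m → Fin n → ℝ) {σ Y : ℝ} (hn : 0 < n)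
    (hσ : 0 < σ) (hY : 0 < Y) :
    noiseA m n σ (badLarge A₀ Y) ≤
      ((m.choose n * m : ℕ) : ℝ≥0∞) * ENNReal.ofReal (n / (Y * σ)) := by
  classical
  set P := ENNReal.ofReal (n / (Y * σ)) with hP
  have hone : ∀ (S : Finset (Fin m)) (i₀ : Fin m), S ∈ powersetCard n (univ : Finset (Fin m)) →
      noiseA m n σ (if i₀ ∈ S then rowBad A₀ 0 (S.erase i₀) i₀ (1 / Y) else ∅) ≤ P := by
    intro S i₀ hS
    split_ifs with h
    · rw [mem_powersetCard] at hS
      refine (rowBad_zero_le A₀ _ i₀ (by simp) 1 ?_ hσ (by positivity)).trans (le_of_eq ?_)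
      · rw [card_erase_of_mem h, hS.2]
        omega
      · rw [hP, pow_one]
        congr 1
        field_simp
    · rw [measure_empty]
      exact zero_le
  calc noiseA m n σ (badLarge A₀ Y)
      ≤ ∑ S ∈ powersetCard n (univ : Finset (Fin m)),
            ∑ i₀ ∈ (univ : Finset (Fin m)), P := by
        unfold badLarge
        refine (measure_biUnion_finset_le _ _).trans (Finset.sum_le_sum fun S hS => ?_)
        refine (measure_biUnion_finset_le _ _).trans (Finset.sum_le_sum fun i₀ _ => ?_)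
        exact hone S i₀ hS
    _ = _ := by
        rw [Finset.sum_const, Finset.sum_const, card_powersetCard, card_univ,
          Fintype.card_fin, nsmul_eq_mul, nsmul_eq_mul]
        push_cast
        ring

lemma abs_le_one_of_frobenius {m n : ℕ} {A₀ : Fin m → Fin n → ℝ} {b₀ : Fin m → ℝ}
    (h : (∑ i, ∑ j, A₀ i j ^ 2) + ∑ i, b₀ i ^ 2 ≤ 1) :
    (∀ i j, |A₀ i j| ≤ 1) ∧ ∀ i, |b₀ i| ≤ 1 := by
  have hA : 0 ≤ ∑ i, ∑ j, A₀ i j ^ 2 :=
    Finset.sum_nonneg fun i _ => Finset.sum_nonneg fun j _ => sq_nonneg _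
  have hb : 0 ≤ ∑ i, b₀ i ^ 2 := Finset.sum_nonneg fun i _ => sq_nonneg _
  constructor
  · intro i j
    have h1 : A₀ i j ^ 2 ≤ ∑ j, A₀ i j ^ 2 :=
      Finset.single_le_sum (f := fun j => A₀ i j ^ 2) (fun j _ => sq_nonneg _) (mem_univ j)
    have h2 : ∑ j, A₀ i j ^ 2 ≤ ∑ i, ∑ j, A₀ i j ^ 2 :=
      Finset.single_le_sum (f := fun i => ∑ j, A₀ i j ^ 2)
        (fun i _ => Finset.sum_nonneg fun j _ => sq_nonneg _) (mem_univ i)
    rw [← sq_le_one_iff_abs_le_one]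
    linarith
  · intro i
    have h1 : b₀ i ^ 2 ≤ ∑ i, b₀ i ^ 2 :=
      Finset.single_le_sum (f := fun i => b₀ i ^ 2) (fun i _ => sq_nonneg _) (mem_univ i)
    rw [← sq_le_one_iff_abs_le_one]
    linarith

/-- the exceptional set of matrices -/
noncomputable def badA {m n : ℕ} (A₀ : Fin m → Fin n → ℝ) (c : Fin n → ℝ) (d : ℕ)
    (σ t θ Y : ℝ) : Set (Fin m → Fin n → ℝ) :=
  {G | ∃ i j, σ * t < |G i j|} ∪
    (badLight A₀ c d ((d + 1 : ℕ) * θ * (1 + σ * t)) ∪ badLarge A₀ Y)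

/-- the exceptional set of right-hand sides -/
def badB {m n : ℕ} (A : Fin m → Fin n → ℝ) (b₀ : Fin m → ℝ) (c : Fin n → ℝ) (K d Λ : ℕ)
    (σ t θ ε : ℝ) : Set (Fin m → ℝ) :=
  {g | ∃ i, σ * t < |g i|} ∪
    {g | ¬ ∀ l ≤ Λ, ∀ S₀ : Finset (Fin m), S₀.card = n →
      ∀ β ∈ adm (dualVec A c) (thr n (1 + σ * t) θ l) d S₀ K,
        HasMinor K (diffs (dualVec A c) S₀ β) (thr n (1 + σ * t) θ l ^ K) →
          ∃ a, ε * 2 ^ l < |∑ i, diffs (dualVec A c) S₀ β a i * (b₀ + g) i|}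

lemma good_of_not_bad {m n : ℕ} {A₀ : Fin m → Fin n → ℝ} {b₀ : Fin m → ℝ}
    (hF : (∑ i, ∑ j, A₀ i j ^ 2) + ∑ i, b₀ i ^ 2 ≤ 1) {c : Fin n → ℝ} (hc1 : ∃ j, |c j| = 1)
    (hc : ∀ j, |c j| ≤ 1) {K d Λ : ℕ} {σ t θ Y ε : ℝ} (hY : 0 < Y)
    (hθ0 : 0 ≤ θ) (hθ1 : θ < 1) (hΛ : n * Y * (1 + σ * t) < 2 ^ (Λ + 1))
    {G : Fin m → Fin n → ℝ} (hG : G ∉ badA A₀ c d σ t θ Y) {g : Fin m → ℝ}
    (hg : g ∉ badB (A₀ + G) b₀ c K d Λ σ t θ ε) (hnd : Nondeg (A₀ + G) (b₀ + g)) :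
    Good (A₀ + G) (b₀ + g) c (1 + σ * t) θ ε Y K d Λ := by
  classical
  obtain ⟨hA1, hb1⟩ := abs_le_one_of_frobenius hF
  rw [badA, Set.mem_union, Set.mem_union, not_or, not_or] at hG
  rw [badB, Set.mem_union, not_or] at hg
  obtain ⟨hG1, hG2, hG3⟩ := hG
  obtain ⟨hg1, hg2⟩ := hg
  have hAH : ∀ i j, |(A₀ + G) i j| ≤ 1 + σ * t := by
    intro i j
    have h1 : |G i j| ≤ σ * t := by
      by_contra hlt
      exact hG1 ⟨i, j, not_le.1 hlt⟩
    calc |(A₀ + G) i j| = |A₀ i j + G i j| := rfl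
      _ ≤ |A₀ i j| + |G i j| := abs_add_le _ _
      _ ≤ 1 + σ * t := add_le_add (hA1 i j) h1
  refine ⟨hnd, hc1, hAH, ?_, ?_, ?_, hΛ, ?_⟩
  · intro i
    have h1 : |g i| ≤ σ * t := by
      by_contra hlt
      exact hg1 ⟨i, not_le.1 hlt⟩
    calc |(b₀ + g) i| = |b₀ i + g i| := rfl
      _ ≤ |b₀ i| + |g i| := abs_add_le _ _
      _ ≤ 1 + σ * t := add_le_add (hb1 i) h1
  · intro S hS
    by_contra hlt
    push Not at hlt
    obtain ⟨D, i₀, hD, hi₀, hDS, hiD, hmem⟩ := light_rows hS hc1 hAH hθ0 hθ1 d hlt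
    apply hG2
    rw [badLight]
    simp only [Set.mem_iUnion]
    refine ⟨S, mem_powersetCard.2 ⟨subset_univ _, hS.1⟩, D, ?_, i₀, mem_univ _, ?_⟩
    · rw [mem_filter]
      exact ⟨mem_univ _, hD.le⟩
    · rw [if_pos ⟨hD, hi₀, hDS, hiD⟩]
      exact hmem
  · intro S hS
    by_contra hlt
    push Not at hlt
    obtain ⟨i₀, hi₀, hmem⟩ := large_dual hS hc hY hlt
    apply hG3
    rw [badLarge]
    simp only [Set.mem_iUnion]
    refine ⟨S, mem_powersetCard.2 ⟨subset_univ _, hS.1⟩, i₀, mem_univ _, ?_⟩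
    rw [if_pos hi₀]
    exact hmem
  · by_contra hcon
    exact hg2 hcon

end Run7.h302
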