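import Pool.Agent.Run7.h302.Flip

/-!
# The probability that a shifted random system of inequalities is strictly feasible
-/

open MeasureTheory ProbabilityTheory Finset
open scoped ENNReal

namespace Run7.h302

/-- Chernoff's bound for the lower tail of the binomial distribution -/
lemma chernoff_choose_le (m n : ℕ) (h : 2 * n ≤ m) :
    ((∑ k ∈ range (n + 1), m.choose k : ℕ) : ℝ) ≤
      2 ^ m * Real.exp (-((m - 2 * n : ℝ) ^ 2 / (2 * m))) := by
  rcases Nat.eq_zero_or_pos m with hm | hm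
  · subst hm
    have : n = 0 := by omega
    subst this
    simp
  have hm0 : (0 : ℝ) < m := by exact_mod_cast hm
  have h2n : (2 * n : ℝ) ≤ m := by exact_mod_cast h
  set l : ℝ := (m - 2 * n) / m with hl
  have hl0 : 0 ≤ l := by rw [hl]; apply div_nonneg _ hm0.le; linarith
  have h1 : ((∑ k ∈ range (n + 1), m.choose k : ℕ) : ℝ) ≤
      ∑ k ∈ range (m + 1), Real.exp (-(l * (m - 2 * n))) *
        (Real.exp (-l) ^ k * Real.exp l ^ (m - k) * m.choose k) := by
    push_cast
    calc (∑ k ∈ range (n + 1), (m.choose k : ℝ))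
        ≤ ∑ k ∈ range (n + 1), Real.exp (-(l * (m - 2 * n))) *
            (Real.exp (-l) ^ k * Real.exp l ^ (m - k) * m.choose k) := by
          apply Finset.sum_le_sum
          intro k hk
          rw [mem_range] at hk
          have hkn : k ≤ n := by omega
          have hkm : k ≤ m := by omega
          rw [← Real.exp_nat_mul, ← Real.exp_nat_mul, ← mul_assoc, ← Real.exp_add, ← Real.exp_add]
          have hexp : 0 ≤ -(l * (m - 2 * n)) + (k * -l + ((m - k : ℕ) : ℝ) * l) := by
            rw [Nat.cast_sub hkm]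
            have hkn' : (k : ℝ) ≤ n := by exact_mod_cast hkn
            have : -(l * (m - 2 * n)) + (k * -l + ((m : ℝ) - k) * l) = 2 * l * (n - k) := by ring
            rw [this]
            apply mul_nonneg (by positivity)
            linarith
          have h2 : 1 ≤ Real.exp (-(l * (m - 2 * n)) + (k * -l + ((m - k : ℕ) : ℝ) * l)) :=
            Real.one_le_exp hexp
          have h3 : (0 : ℝ) ≤ m.choose k := by positivity
          nlinarith
      _ ≤ _ := by
          apply Finset.sum_le_sum_of_subset_of_nonneg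
          · intro k hk
            rw [mem_range] at hk ⊢
            omega
          · intro k _ _
            positivity
  refine h1.trans ?_
  rw [← Finset.mul_sum, ← add_pow]
  have h2 : Real.exp (-l) + Real.exp l = 2 * Real.cosh l := by
    rw [Real.cosh_eq]; ring
  rw [h2, mul_pow]
  have h3 : Real.cosh l ^ m ≤ Real.exp (m * (l ^ 2 / 2)) := by
    rw [Real.exp_nat_mul]
    exact pow_le_pow_left₀ (Real.cosh_pos l).le (Real.cosh_le_exp_half_sq l) m
  calc Real.exp (-(l * (m - 2 * n))) * (2 ^ m * Real.cosh l ^ m)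
      ≤ Real.exp (-(l * (m - 2 * n))) * (2 ^ m * Real.exp (m * (l ^ 2 / 2))) := by gcongr
    _ = 2 ^ m * Real.exp (-(l * (m - 2 * n)) + m * (l ^ 2 / 2)) := by
        rw [Real.exp_add]; ring
    _ = 2 ^ m * Real.exp (-((m - 2 * n : ℝ) ^ 2 / (2 * m))) := by
        congr 2
        rw [hl]
        field_simp
        ring

lemma measurePreserving_shift (a : ℝ) (v : NNReal) :
    MeasurePreserving (fun x : ℝ => a + x) (gaussianReal 0 v) (gaussianReal a v) := by
  refine ⟨by fun_prop, ?_⟩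
  rw [gaussianReal_map_const_add, zero_add]

/-- the law of the shifted data -/
noncomputable def shiftedNoise {m n : ℕ} (A₀ : Fin m → Fin n → ℝ) (b₀ : Fin m → ℝ) (σ : ℝ) :
    Measure (Data m n) :=
  (Measure.pi fun i => Measure.pi fun j => gaussianReal (A₀ i j) (Real.toNNReal (σ ^ 2))).prod
    (Measure.pi fun i => gaussianReal (b₀ i) (Real.toNNReal (σ ^ 2)))

lemma measurePreserving_shiftedNoise {m n : ℕ} (A₀ : Fin m → Fin n → ℝ) (b₀ : Fin m → ℝ)
    (σ : ℝ) :
    MeasurePreserving (fun ω : Data m n => (A₀ + ω.1, b₀ + ω.2)) (noise m n σ)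
      (shiftedNoise A₀ b₀ σ) := by
  unfold noise shiftedNoise
  have h1 := measurePreserving_pi (fun _ : Fin m => Measure.pi fun _ : Fin n =>
    gaussianReal 0 (Real.toNNReal (σ ^ 2))) (fun i : Fin m => Measure.pi fun j : Fin n =>
    gaussianReal (A₀ i j) (Real.toNNReal (σ ^ 2))) (f := fun i (x : Fin n → ℝ) j => A₀ i j + x j)
    fun i => measurePreserving_pi _ _ fun j => measurePreserving_shift (A₀ i j) _
  have h2 := measurePreserving_pi (fun _ : Fin m => gaussianReal 0 (Real.toNNReal (σ ^ 2)))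
    (fun i : Fin m => gaussianReal (b₀ i) (Real.toNNReal (σ ^ 2))) (f := fun i (x : ℝ) => b₀ i + x)
    fun i => measurePreserving_shift (b₀ i) _
  exact h1.prod h2

lemma CS_shiftedNoise {m n : ℕ} (A₀ : Fin m → Fin n → ℝ) (b₀ : Fin m → ℝ) {σ : ℝ} (hσ : 0 < σ) :
    CS (shiftedNoise A₀ b₀ σ) (noise m n σ)
      (ENNReal.ofReal (Real.exp (((∑ i, ∑ j, A₀ i j ^ 2) + ∑ i, b₀ i ^ 2) / σ ^ 2))) := by
  have hv : Real.toNNReal (σ ^ 2) ≠ 0 := by
    have : 0 < Real.toNNReal (σ ^ 2) := Real.toNNReal_pos.2 (by positivity)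
    exact this.ne'
  have hcoe : ((Real.toNNReal (σ ^ 2) : NNReal) : ℝ) = σ ^ 2 :=
    Real.coe_toNNReal _ (by positivity)
  have h1 := CS.pi (fun i => Measure.pi fun j => gaussianReal (A₀ i j) (Real.toNNReal (σ ^ 2)))
    (fun _ => Measure.pi fun _ => gaussianReal 0 (Real.toNNReal (σ ^ 2))) _
    fun i => CS.pi (fun j => gaussianReal (A₀ i j) (Real.toNNReal (σ ^ 2)))
      (fun _ => gaussianReal 0 (Real.toNNReal (σ ^ 2))) _ fun j => CS_gaussian (A₀ i j) hv
  have h2 := CS.pi (fun i => gaussianReal (b₀ i) (Real.toNNReal (σ ^ 2)))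
      (fun _ => gaussianReal 0 (Real.toNNReal (σ ^ 2))) _ fun i => CS_gaussian (b₀ i) hv
  have h3 := h1.prod h2
  unfold shiftedNoise noise
  convert h3 using 1
  have h4 : ∀ i, ∏ j, ENNReal.ofReal (Real.exp (A₀ i j ^ 2 / (Real.toNNReal (σ ^ 2) : NNReal))) =
      ENNReal.ofReal (Real.exp ((∑ j, A₀ i j ^ 2) / σ ^ 2)) := by
    intro i
    rw [← ENNReal.ofReal_prod_of_nonneg fun _ _ => Real.exp_nonneg _, ← Real.exp_sum, hcoe,
      Finset.sum_div]
  have h5 : ∏ i, ENNReal.ofReal (Real.exp (b₀ i ^ 2 / (Real.toNNReal (σ ^ 2) : NNReal))) =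
      ENNReal.ofReal (Real.exp ((∑ i, b₀ i ^ 2) / σ ^ 2)) := by
    rw [← ENNReal.ofReal_prod_of_nonneg fun _ _ => Real.exp_nonneg _, ← Real.exp_sum, hcoe,
      Finset.sum_div]
  simp_rw [h4]
  rw [h5, ← ENNReal.ofReal_prod_of_nonneg fun _ _ => Real.exp_nonneg _, ← Real.exp_sum,
    ← Finset.sum_div, ← ENNReal.ofReal_mul (Real.exp_nonneg _), ← Real.exp_add, add_div]

/-- a shifted random system of `m ≥ 2 n` inequalities in `n` unknowns is rarely feasible -/
lemma shifted_feas_le {m n : ℕ} (h : 2 * n ≤ m) {σ : ℝ} (hσ : 0 < σ)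
    {A₀ : Fin m → Fin n → ℝ} {b₀ : Fin m → ℝ}
    (hF : (∑ i, ∑ j, A₀ i j ^ 2) + ∑ i, b₀ i ^ 2 ≤ 1) :
    noise m n σ {ω | (A₀ + ω.1, b₀ + ω.2) ∈ strictFeas m n} ≤
      ENNReal.ofReal (Real.exp (1 / (2 * σ ^ 2) - (m - 2 * n : ℝ) ^ 2 / (4 * m))) := by
  have hS : MeasurableSet (strictFeas m n) := (isOpen_strictFeas m n).measurableSet
  have h1 : noise m n σ {ω | (A₀ + ω.1, b₀ + ω.2) ∈ strictFeas m n} =
      shiftedNoise A₀ b₀ σ (strictFeas m n) :=
    (measurePreserving_shiftedNoise A₀ b₀ σ).measure_preimage hS.nullMeasurableSet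
  rw [h1]
  have h2 := (CS_shiftedNoise A₀ b₀ hσ).measure_le hS
  have h3 : noise m n σ (strictFeas m n) ≤
      ENNReal.ofReal (Real.exp (-((m - 2 * n : ℝ) ^ 2 / (2 * m)))) := by
    have h4 := centred_le m n σ
    have h5 : ((∑ k ∈ range (n + 1), m.choose k : ℕ) : ℝ≥0∞) ≤
        2 ^ m * ENNReal.ofReal (Real.exp (-((m - 2 * n : ℝ) ^ 2 / (2 * m)))) := by
      have h6 := ENNReal.ofReal_le_ofReal (chernoff_choose_le m n h)
      rw [ENNReal.ofReal_natCast, ENNReal.ofReal_mul (by positivity),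
        ENNReal.ofReal_pow (by norm_num)] at h6
      simpa using h6
    exact (ENNReal.mul_le_mul_iff_right (by positivity) (by finiteness)).1 (h4.trans h5)
  have h6 : (shiftedNoise A₀ b₀ σ (strictFeas m n)) ^ 2 ≤
      (ENNReal.ofReal (Real.exp (1 / (2 * σ ^ 2) - (m - 2 * n : ℝ) ^ 2 / (4 * m)))) ^ 2 := by
    refine h2.trans ?_
    rw [← ENNReal.ofReal_pow (Real.exp_nonneg _), ← Real.exp_nat_mul]
    calc ENNReal.ofReal (Real.exp (((∑ i, ∑ j, A₀ i j ^ 2) + ∑ i, b₀ i ^ 2) / σ ^ 2)) *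
          noise m n σ (strictFeas m n)
        ≤ ENNReal.ofReal (Real.exp (1 / σ ^ 2)) *
          ENNReal.ofReal (Real.exp (-((m - 2 * n : ℝ) ^ 2 / (2 * m)))) := by
          gcongr
      _ = _ := by
          rw [← ENNReal.ofReal_mul (Real.exp_nonneg _), ← Real.exp_add]
          congr 2
          push_cast
          rcases Nat.eq_zero_or_pos m with hm | hm
          · subst hm
            field_simp
            simp
          · have hm0 : (0 : ℝ) < m := by exact_mod_cast hm
            field_simp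
            ring
  exact (ENNReal.pow_le_pow_left_iff (by norm_num)).1 h6

end Run7.h302
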