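import Pool.Agent.Run7.h302.Split

/-!
# The probability that a vertex maximising a given linear form exists
-/

open MeasureTheory ProbabilityTheory Finset
open scoped ENNReal

namespace Run7.h302

/-- matrices with trivial kernel for which `z` is a strictly positive combination of the rows -/
def strictCone (m n : ℕ) (z : Fin n → ℝ) : Set (Fin m → Fin n → ℝ) :=
  {A | (∀ x : Fin n → ℝ, (∀ i, ∑ j, A i j * x j = 0) → x = 0) ∧
    ∃ y : Fin m → ℝ, (∀ i, 0 < y i) ∧ ∀ j, ∑ i, y i * A i j = z j}

lemma measurableSet_strictCone (m n : ℕ) (z : Fin n → ℝ) : MeasurableSet (strictCone m n z) := by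
  have h1 : MeasurableSet {A : Fin m → Fin n → ℝ |
      ∀ x : Fin n → ℝ, (∀ i, ∑ j, A i j * x j = 0) → x = 0} := by
    have : CompactSpace (Metric.sphere (0 : Fin n → ℝ) 1) :=
      isCompact_iff_compactSpace.1 (isCompact_sphere _ _)
    set C : Set ((Fin m → Fin n → ℝ) × Metric.sphere (0 : Fin n → ℝ) 1) :=
      {p | ∀ i, ∑ j, p.1 i j * p.2.1 j = 0} with hC
    have hCc : IsClosed C := by
      have : C = ⋂ i, {p | ∑ j, p.1 i j * p.2.1 j = 0} := by
        ext p; simp [hC]
      rw [this]
      refine isClosed_iInter fun i => ?_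
      refine isClosed_eq (continuous_finsetSum _ fun j _ => Continuous.mul ?_ ?_) continuous_const
      · exact (continuous_apply_apply i j).comp continuous_fst
      · exact (continuous_apply j).comp (continuous_subtype_val.comp continuous_snd)
    have hset : {A : Fin m → Fin n → ℝ |
        ∀ x : Fin n → ℝ, (∀ i, ∑ j, A i j * x j = 0) → x = 0} = (Prod.fst '' C)ᶜ := by
      ext A
      simp only [Set.mem_ofPred_eq, Set.mem_compl_iff, Set.mem_image, not_exists, not_and]
      constructor
      · rintro h ⟨A', x⟩ hx rfl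
        have h0 := h x.1 hx
        have h1 : ‖x.1‖ = 1 := by
          have := x.2
          rwa [mem_sphere_zero_iff_norm] at this
        rw [h0, norm_zero] at h1
        norm_num at h1
      · intro h x hx
        by_contra hx0
        have hpos : 0 < ‖x‖ := norm_pos_iff.2 hx0
        have hmem : ‖x‖⁻¹ • x ∈ Metric.sphere (0 : Fin n → ℝ) 1 := by
          rw [mem_sphere_zero_iff_norm, norm_smul, norm_inv, norm_norm, inv_mul_cancel₀ hpos.ne']
        apply h (A, ⟨‖x‖⁻¹ • x, hmem⟩) _ rfl
        intro i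
        have h2 : ∑ j, A i j * (‖x‖⁻¹ • x) j = ‖x‖⁻¹ * ∑ j, A i j * x j := by
          rw [Finset.mul_sum]
          refine Finset.sum_congr rfl fun j _ => ?_
          simp only [Pi.smul_apply, smul_eq_mul]
          ring
        simp only
        rw [h2, hx i, mul_zero]
    rw [hset]
    exact (isClosedMap_fst_of_compactSpace _ hCc).measurableSet.compl
  have h2 : MeasurableSet {A : Fin m → Fin n → ℝ |
      ∃ y : Fin m → ℝ, (∀ i, 0 < y i) ∧ ∀ j, ∑ i, y i * A i j = z j} := by
    have hU : {A : Fin m → Fin n → ℝ |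
        ∃ y : Fin m → ℝ, (∀ i, 0 < y i) ∧ ∀ j, ∑ i, y i * A i j = z j} =
        ⋃ R : ℕ, {A | ∃ y : Set.Icc (fun _ : Fin m => (1 : ℝ) / (R + 1)) (fun _ => (R : ℝ) + 1),
          ∀ j, ∑ i, y.1 i * A i j = z j} := by
      ext A
      simp only [Set.mem_ofPred_eq, Set.mem_iUnion]
      constructor
      · rintro ⟨y, hy, h⟩
        have hex : ∀ i, ∃ R : ℕ, 1 / y i ≤ R ∧ y i ≤ R := by
          intro i
          obtain ⟨R, hR⟩ := exists_nat_ge (max (1 / y i) (y i))
          exact ⟨R, (le_max_left _ _).trans hR, (le_max_right _ _).trans hR⟩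
        choose R hR1 hR2 using hex
        refine ⟨∑ i, R i, ⟨y, ?_, ?_⟩, h⟩
        · intro i
          have h3 : R i ≤ ∑ i, R i := Finset.single_le_sum (fun _ _ => Nat.zero_le _) (mem_univ i)
          have h3' : (R i : ℝ) ≤ ((∑ i, R i : ℕ) : ℝ) := by exact_mod_cast h3
          have h4 := hR1 i
          have h5 := hy i
          rw [div_le_iff₀ h5] at h4
          change 1 / (((∑ i, R i : ℕ) : ℝ) + 1) ≤ y i
          rw [div_le_iff₀ (by positivity)]
          nlinarith
        · intro i
          have h3 : R i ≤ ∑ i, R i := Finset.single_le_sum (fun _ _ => Nat.zero_le _) (mem_univ i)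
          have h3' : (R i : ℝ) ≤ ((∑ i, R i : ℕ) : ℝ) := by exact_mod_cast h3
          have h4 := hR2 i
          change y i ≤ ((∑ i, R i : ℕ) : ℝ) + 1
          linarith
      · rintro ⟨R, y, h⟩
        refine ⟨y.1, fun i => ?_, h⟩
        have h3 := y.2.1 i
        have h4 : (0 : ℝ) < 1 / (R + 1) := by positivity
        exact lt_of_lt_of_le h4 h3
    rw [hU]
    refine MeasurableSet.iUnion fun R => ?_
    apply IsClosed.measurableSet
    have : CompactSpace (Set.Icc (fun _ : Fin m => (1 : ℝ) / (R + 1)) (fun _ => (R : ℝ) + 1)) :=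
      isCompact_iff_compactSpace.1 isCompact_Icc
    set C : Set ((Fin m → Fin n → ℝ) ×
        Set.Icc (fun _ : Fin m => (1 : ℝ) / (R + 1)) (fun _ => (R : ℝ) + 1)) :=
      {p | ∀ j, ∑ i, p.2.1 i * p.1 i j = z j} with hC
    have hCc : IsClosed C := by
      have : C = ⋂ j, {p | ∑ i, p.2.1 i * p.1 i j = z j} := by
        ext p; simp [hC]
      rw [this]
      refine isClosed_iInter fun j => ?_
      refine isClosed_eq (continuous_finsetSum _ fun i _ => Continuous.mul ?_ ?_) continuous_const
      · exact (continuous_apply i).comp (continuous_subtype_val.comp continuous_snd)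
      · exact (continuous_apply_apply i j).comp continuous_fst
    have himg : {A | ∃ y : Set.Icc (fun _ : Fin m => (1 : ℝ) / (R + 1)) (fun _ => (R : ℝ) + 1),
          ∀ j, ∑ i, y.1 i * A i j = z j} = Prod.fst '' C := by
      ext A
      simp only [Set.mem_image, hC]
      constructor
      · rintro ⟨y, hy⟩
        exact ⟨(A, y), hy, rfl⟩
      · rintro ⟨⟨A', y⟩, hy, rfl⟩
        exact ⟨y, hy⟩
    rw [himg]
    exact isClosedMap_fst_of_compactSpace _ hCc
  have : strictCone m n z = {A : Fin m → Fin n → ℝ |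
      ∀ x : Fin n → ℝ, (∀ i, ∑ j, A i j * x j = 0) → x = 0} ∩ {A : Fin m → Fin n → ℝ |
      ∃ y : Fin m → ℝ, (∀ i, 0 < y i) ∧ ∀ j, ∑ i, y i * A i j = z j} := rfl
  rw [this]
  exact h1.inter h2

/-- negate the rows in `F` -/
def flipA {m n : ℕ} (F : Finset (Fin m)) (A : Fin m → Fin n → ℝ) : Fin m → Fin n → ℝ :=
  fun i j => sgn F i * A i j

lemma measurePreserving_flipA {m n : ℕ} (σ : ℝ) (F : Finset (Fin m)) :
    MeasurePreserving (flipA (n := n) F) (noiseA m n σ) (noiseA m n σ) :=
  measurePreserving_pi (fun _ : Fin m => Measure.pi fun _ : Fin n =>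
    gaussianReal 0 (Real.toNNReal (σ ^ 2))) (fun _ : Fin m => Measure.pi fun _ : Fin n =>
    gaussianReal 0 (Real.toNNReal (σ ^ 2))) (f := fun i (x : Fin n → ℝ) j => sgn F i * x j)
    fun i => measurePreserving_pi _ _ fun _ => measurePreserving_sgn (sgn_sq F i) _

lemma sgn_ne_zero {m : ℕ} (F : Finset (Fin m)) (i : Fin m) : sgn F i ≠ 0 := by
  unfold sgn; split_ifs <;> norm_num

open Classical in
/-- the sign patterns for which `z` lies in the cone of the rows -/
noncomputable def cellsA {m n : ℕ} (z : Fin n → ℝ) (A : Fin m → Fin n → ℝ) :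
    Finset (Finset (Fin m)) :=
  univ.filter fun F => flipA F A ∈ strictCone m n z

lemma card_cellsA_le {m n : ℕ} (z : Fin n → ℝ) (A : Fin m → Fin n → ℝ) :
    (cellsA z A).card ≤ ∑ k ∈ range (m - n + 1), m.choose k := by
  classical
  have hvc : (cellsA z A).vcDim ≤ m - n := by
    unfold Finset.vcDim
    apply Finset.sup_le
    intro s hs
    rw [mem_shatterer] at hs
    by_contra hlt
    push Not at hlt
    have hsm : s.card ≤ m := by
      have := card_le_univ s
      rwa [Fintype.card_fin] at this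
    -- the kernel of `A` is trivial
    have hinj : ∀ x : Fin n → ℝ, (∀ i, ∑ j, A i j * x j = 0) → x = 0 := by
      obtain ⟨F, hF, -⟩ := hs (t := ∅) (empty_subset _)
      rw [cellsA, mem_filter] at hF
      intro x hx
      apply hF.2.1 x
      intro i
      have : ∑ j, flipA F A i j * x j = sgn F i * ∑ j, A i j * x j := by
        rw [Finset.mul_sum]
        exact Finset.sum_congr rfl fun j _ => by simp only [flipA]; ring
      rw [this, hx i, mul_zero]
    -- a vector in the kernel of the rows outside `s`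
    set M : Matrix (sᶜ : Finset (Fin m)) (Fin n) ℝ := Matrix.of fun i j => A i j with hM
    have hker : M.mulVecLin.ker ≠ ⊥ := by
      apply LinearMap.ker_ne_bot_of_finrank_lt
      rw [Module.finrank_fintype_fun_eq_card, Module.finrank_fintype_fun_eq_card,
        Fintype.card_fin, Fintype.card_coe, card_compl, Fintype.card_fin]
      omega
    obtain ⟨x, hxmem, hx0⟩ := Submodule.exists_mem_ne_zero_of_ne_bot hker
    have hxker : ∀ i ∉ s, ∑ j, A i j * x j = 0 := by
      intro i hi
      have := congrFun (LinearMap.mem_ker.1 hxmem) ⟨i, mem_compl.2 hi⟩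
      simpa [Matrix.mulVec, dotProduct, hM] using this
    have key : ∀ x : Fin n → ℝ, x ≠ 0 → (∀ i ∉ s, ∑ j, A i j * x j = 0) →
        0 < ∑ j, z j * x j := by
      intro x hx0 hxker
      obtain ⟨F, hF, hFs⟩ := hs (t := s.filter fun i => ∑ j, A i j * x j < 0)
        (filter_subset _ _)
      rw [cellsA, mem_filter] at hF
      obtain ⟨-, y, hy, hyz⟩ := hF.2
      have hterm : ∀ i, 0 ≤ y i * (sgn F i * ∑ j, A i j * x j) ∧
          (∑ j, A i j * x j ≠ 0 → 0 < y i * (sgn F i * ∑ j, A i j * x j)) := by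
        intro i
        by_cases his : i ∈ s
        · have hmem : i ∈ F ↔ ∑ j, A i j * x j < 0 := by
            have h1 : i ∈ s ∩ F ↔ i ∈ s.filter fun i => ∑ j, A i j * x j < 0 := by
              rw [hFs]
            rw [mem_inter, mem_filter] at h1
            constructor
            · intro h
              exact (h1.1 ⟨his, h⟩).2
            · intro h
              exact (h1.2 ⟨his, h⟩).2
          by_cases hi : i ∈ F
          · have hli := hmem.1 hi
            simp only [sgn, if_pos hi]
            have h2 : 0 < -1 * ∑ j, A i j * x j := by linarith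
            exact ⟨(mul_pos (hy i) h2).le, fun _ => mul_pos (hy i) h2⟩
          · have hli : 0 ≤ ∑ j, A i j * x j := not_lt.1 fun h => hi (hmem.2 h)
            simp only [sgn, if_neg hi, one_mul]
            exact ⟨mul_nonneg (hy i).le hli,
              fun h => mul_pos (hy i) (lt_of_le_of_ne hli (Ne.symm h))⟩
        · rw [hxker i his]
          simp
      have hex : ∃ i, ∑ j, A i j * x j ≠ 0 := by
        by_contra hcon
        push Not at hcon
        exact hx0 (hinj x hcon)
      obtain ⟨i₀, hi₀⟩ := hex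
      have hpos : 0 < ∑ i, y i * (sgn F i * ∑ j, A i j * x j) :=
        Finset.sum_pos' (fun i _ => (hterm i).1) ⟨i₀, mem_univ _, (hterm i₀).2 hi₀⟩
      have heq : ∑ i, y i * (sgn F i * ∑ j, A i j * x j) = ∑ j, z j * x j := by
        calc ∑ i, y i * (sgn F i * ∑ j, A i j * x j)
            = ∑ i, ∑ j, (y i * flipA F A i j) * x j := by
              refine Finset.sum_congr rfl fun i _ => ?_
              rw [Finset.mul_sum, Finset.mul_sum]
              exact Finset.sum_congr rfl fun j _ => by simp only [flipA]; ring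
          _ = ∑ j, ∑ i, (y i * flipA F A i j) * x j := Finset.sum_comm
          _ = ∑ j, z j * x j := by
              refine Finset.sum_congr rfl fun j _ => ?_
              rw [← Finset.sum_mul, hyz j]
      rw [← heq]
      exact hpos
    have h1 := key x hx0 hxker
    have h2 := key (-x) (neg_ne_zero.2 hx0) fun i hi => by
      have : ∑ j, A i j * (-x) j = -∑ j, A i j * x j := by
        rw [← Finset.sum_neg_distrib]
        exact Finset.sum_congr rfl fun j _ => by simp
      rw [this, hxker i hi, neg_zero]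
    have h3 : ∑ j, z j * (-x) j = -∑ j, z j * x j := by
      rw [← Finset.sum_neg_distrib]
      exact Finset.sum_congr rfl fun j _ => by simp
    rw [h3] at h2
    linarith
  calc (cellsA z A).card ≤ (cellsA z A).shatterer.card := card_le_card_shatterer _
    _ ≤ ∑ k ∈ Iic (cellsA z A).vcDim, (Fintype.card (Fin m)).choose k :=
        card_shatterer_le_sum_vcDim
    _ ≤ ∑ k ∈ range (m - n + 1), m.choose k := by
        rw [Fintype.card_fin]
        apply Finset.sum_le_sum_of_subset
        intro k hk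
        rw [mem_Iic] at hk
        rw [mem_range]
        omega

/-- the probability that `z` lies in the cone spanned by `m` centred Gaussian rows -/
lemma centredA_le (m n : ℕ) (σ : ℝ) (z : Fin n → ℝ) :
    2 ^ m * noiseA m n σ (strictCone m n z) ≤ (∑ k ∈ range (m - n + 1), m.choose k : ℕ) := by
  classical
  have hS := measurableSet_strictCone m n z
  have h1 : ∀ F : Finset (Fin m), noiseA m n σ (strictCone m n z) =
      ∫⁻ ω, (strictCone m n z).indicator 1 (flipA F ω) ∂(noiseA m n σ) := by
    intro F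
    rw [(measurePreserving_flipA σ F).lintegral_comp (measurable_one.indicator hS),
      lintegral_indicator_one hS]
  have h2 : (2 : ℝ≥0∞) ^ m * noiseA m n σ (strictCone m n z) =
      ∑ F : Finset (Fin m), ∫⁻ ω, (strictCone m n z).indicator 1 (flipA F ω) ∂(noiseA m n σ) := by
    rw [Finset.sum_congr rfl fun F _ => (h1 F).symm, Finset.sum_const, card_univ,
      Fintype.card_finset, Fintype.card_fin, nsmul_eq_mul]
    push_cast
    rfl
  have h3 : ∑ F : Finset (Fin m), ∫⁻ ω, (strictCone m n z).indicator 1 (flipA F ω)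
        ∂(noiseA m n σ) =
      ∫⁻ ω, ∑ F : Finset (Fin m),
        (strictCone m n z).indicator (1 : (Fin m → Fin n → ℝ) → ℝ≥0∞) (flipA F ω)
        ∂(noiseA m n σ) := by
    rw [lintegral_finsetSum]
    intro F _
    exact (measurable_one.indicator hS).comp (measurePreserving_flipA σ F).measurable
  rw [h2, h3]
  calc ∫⁻ ω, ∑ F : Finset (Fin m), (strictCone m n z).indicator 1 (flipA F ω) ∂(noiseA m n σ)
      ≤ ∫⁻ _ω, ((∑ k ∈ range (m - n + 1), m.choose k : ℕ) : ℝ≥0∞) ∂(noiseA m n σ) := by
        apply lintegral_mono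
        intro ω
        have : ∑ F : Finset (Fin m),
            (strictCone m n z).indicator (1 : (Fin m → Fin n → ℝ) → ℝ≥0∞) (flipA F ω) =
            ((cellsA z ω).card : ℝ≥0∞) := by
          rw [cellsA, Finset.card_filter]
          push_cast
          exact Finset.sum_congr rfl fun F _ => by simp [Set.indicator_apply]
        simp only [this]
        exact_mod_cast card_cellsA_le z ω
    _ = _ := by simp

/-- the law of the shifted matrix -/
noncomputable def shiftedNoiseA {m n : ℕ} (A₀ : Fin m → Fin n → ℝ) (σ : ℝ) :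
    Measure (Fin m → Fin n → ℝ) :=
  Measure.pi fun i => Measure.pi fun j => gaussianReal (A₀ i j) (Real.toNNReal (σ ^ 2))

lemma measurePreserving_shiftedNoiseA {m n : ℕ} (A₀ : Fin m → Fin n → ℝ) (σ : ℝ) :
    MeasurePreserving (fun G : Fin m → Fin n → ℝ => A₀ + G) (noiseA m n σ)
      (shiftedNoiseA A₀ σ) := by
  unfold shiftedNoiseA
  exact measurePreserving_pi (fun _ : Fin m => Measure.pi fun _ : Fin n =>
    gaussianReal 0 (Real.toNNReal (σ ^ 2))) (fun i : Fin m => Measure.pi fun j : Fin n =>
    gaussianReal (A₀ i j) (Real.toNNReal (σ ^ 2))) (f := fun i (x : Fin n → ℝ) j => A₀ i j + x j)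
    fun i => measurePreserving_pi _ _ fun j => measurePreserving_shift (A₀ i j) _

lemma CS_shiftedNoiseA {m n : ℕ} (A₀ : Fin m → Fin n → ℝ) {σ : ℝ} (hσ : 0 < σ) :
    CS (shiftedNoiseA A₀ σ) (noiseA m n σ)
      (ENNReal.ofReal (Real.exp ((∑ i, ∑ j, A₀ i j ^ 2) / σ ^ 2))) := by
  have hv : Real.toNNReal (σ ^ 2) ≠ 0 := by
    have : 0 < Real.toNNReal (σ ^ 2) := Real.toNNReal_pos.2 (by positivity)
    exact this.ne'
  have hcoe : ((Real.toNNReal (σ ^ 2) : NNReal) : ℝ) = σ ^ 2 :=
    Real.coe_toNNReal _ (by positivity)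
  have h1 := CS.pi (fun i => Measure.pi fun j => gaussianReal (A₀ i j) (Real.toNNReal (σ ^ 2)))
    (fun _ => Measure.pi fun _ => gaussianReal 0 (Real.toNNReal (σ ^ 2))) _
    fun i => CS.pi (fun j => gaussianReal (A₀ i j) (Real.toNNReal (σ ^ 2)))
      (fun _ => gaussianReal 0 (Real.toNNReal (σ ^ 2))) _ fun j => CS_gaussian (A₀ i j) hv
  unfold shiftedNoiseA
  convert h1 using 1
  have h4 : ∀ i, ∏ j, ENNReal.ofReal (Real.exp (A₀ i j ^ 2 / (Real.toNNReal (σ ^ 2) : NNReal))) =
      ENNReal.ofReal (Real.exp ((∑ j, A₀ i j ^ 2) / σ ^ 2)) := by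
    intro i
    rw [← ENNReal.ofReal_prod_of_nonneg fun _ _ => Real.exp_nonneg _, ← Real.exp_sum, hcoe,
      Finset.sum_div]
  simp_rw [h4]
  rw [← ENNReal.ofReal_prod_of_nonneg fun _ _ => Real.exp_nonneg _, ← Real.exp_sum,
    ← Finset.sum_div]

/-- with few constraints, `z` is rarely in the cone of the shifted rows -/
lemma shifted_cone_le {m n : ℕ} (h : m ≤ 2 * n) (hnm : n ≤ m) {σ : ℝ} (hσ : 0 < σ)
    {A₀ : Fin m → Fin n → ℝ} (hF : (∑ i, ∑ j, A₀ i j ^ 2) ≤ 1) (z : Fin n → ℝ) :
    noiseA m n σ {G | A₀ + G ∈ strictCone m n z} ≤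
      ENNReal.ofReal (Real.exp (1 / (2 * σ ^ 2) - (m - 2 * n : ℝ) ^ 2 / (4 * m))) := by
  have hS := measurableSet_strictCone m n z
  have h1 : noiseA m n σ {G | A₀ + G ∈ strictCone m n z} =
      shiftedNoiseA A₀ σ (strictCone m n z) :=
    (measurePreserving_shiftedNoiseA A₀ σ).measure_preimage hS.nullMeasurableSet
  rw [h1]
  have h2 := (CS_shiftedNoiseA A₀ hσ).measure_le hS
  have h3 : noiseA m n σ (strictCone m n z) ≤
      ENNReal.ofReal (Real.exp (-((m - 2 * n : ℝ) ^ 2 / (2 * m)))) := by
    have h4 := centredA_le m n σ z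
    have h5 : ((∑ k ∈ range (m - n + 1), m.choose k : ℕ) : ℝ≥0∞) ≤
        2 ^ m * ENNReal.ofReal (Real.exp (-((m - 2 * n : ℝ) ^ 2 / (2 * m)))) := by
      have h6 := ENNReal.ofReal_le_ofReal (chernoff_choose_le m (m - n) (by omega))
      have h7 : ((m : ℝ) - 2 * ((m - n : ℕ) : ℝ)) ^ 2 = ((m : ℝ) - 2 * n) ^ 2 := by
        rw [Nat.cast_sub hnm]
        ring
      rw [ENNReal.ofReal_natCast, ENNReal.ofReal_mul (by positivity),
        ENNReal.ofReal_pow (by norm_num), h7] at h6
      simpa using h6
    exact (ENNReal.mul_le_mul_iff_right (by positivity) (by finiteness)).1 (h4.trans h5)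
  have h6 : (shiftedNoiseA A₀ σ (strictCone m n z)) ^ 2 ≤
      (ENNReal.ofReal (Real.exp (1 / (2 * σ ^ 2) - (m - 2 * n : ℝ) ^ 2 / (4 * m)))) ^ 2 := by
    refine h2.trans ?_
    rw [← ENNReal.ofReal_pow (Real.exp_nonneg _), ← Real.exp_nat_mul]
    calc ENNReal.ofReal (Real.exp ((∑ i, ∑ j, A₀ i j ^ 2) / σ ^ 2)) *
          noiseA m n σ (strictCone m n z)
        ≤ ENNReal.ofReal (Real.exp (1 / σ ^ 2)) *
          ENNReal.ofReal (Real.exp (-((m - 2 * n : ℝ) ^ 2 / (2 * m)))) := by
          gcongr
      _ = _ := by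
          rw [← ENNReal.ofReal_mul (Real.exp_nonneg _), ← Real.exp_add]
          congr 2
          push_cast
          rcases Nat.eq_zero_or_pos m with hm | hm
          · subst hm
            field_simp
            simp
          · have hm0 : (0 : ℝ) < m := by exact_mod_cast hm
            field_simp
            ring
  exact (ENNReal.pow_le_pow_left_iff (by norm_num)).1 h6

end Run7.h302
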