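import Pool.Agent.Run7.h302.Numeric

/-! Real inequalities for the second choice of the parameters. -/

namespace Run7.h302

lemma t_le_cube {q t : ℝ} {ν : ℕ} (hq : 2 ≤ q) (hν : (ν : ℝ) ≤ q - 1)
    (ht : t = 2 + (ν + 5 : ℕ) * Real.log q) : t ≤ q ^ 3 := by
  have hq0 : 0 < q := by linarith
  have hlog0 : 0 ≤ Real.log q := Real.log_nonneg (by linarith)
  have hlog : Real.log q ≤ q - 1 := Real.log_le_sub_one_of_pos hq0
  have h1 : ((ν + 5 : ℕ) : ℝ) ≤ q + 4 := by push_cast; linarith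
  have h2 : ((ν + 5 : ℕ) : ℝ) * Real.log q ≤ (q + 4) * (q - 1) :=
    mul_le_mul h1 hlog hlog0 (by linarith)
  rw [ht]
  have h3 : 0 ≤ (q - 2) * (q ^ 2 + q - 1) := by
    apply mul_nonneg (by linarith)
    nlinarith
  nlinarith

lemma Hσ_le {q u σ t H : ℝ} (hq : 2 ≤ q) (hσ : 0 < σ) (hu : u = 1 + 1 / σ)
    (ht3 : t ≤ q ^ 3) (hH : H = 1 + σ * t) : H / σ ≤ q ^ 3 * u := by
  have h1 : H / σ = 1 / σ + t := by rw [hH]; field_simp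
  have h2 : (1 : ℝ) ≤ q ^ 3 := one_le_pow₀ (by linarith)
  have h3 : 0 ≤ 1 / σ := by positivity
  rw [h1, hu]
  nlinarith

/-- bound for `Λ + 1` -/
lemma Lam_le {q u : ℝ} {ν Λ : ℕ} (hq : 2 ≤ q) (hu1 : 1 ≤ u) (hν : (ν : ℝ) ≤ q - 1)
    (hΛ : (Λ : ℝ) + 1 ≤ (2 * ν + 9) * q + u + 1) : (Λ : ℝ) + 1 ≤ q ^ 6 * u := by
  have hq0 : 0 < q := by linarith
  have h2 : (2 * (ν : ℝ) + 9) * q ≤ (2 * q + 7) * q := by
    apply mul_le_mul_of_nonneg_right _ hq0.le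
    linarith
  have h1 : (Λ : ℝ) + 1 ≤ (2 * q ^ 2 + 7 * q + 2) * u := by
    have h3 : (2 * q + 7) * q ≤ (2 * q ^ 2 + 7 * q) * u := by
      have : (2 * q + 7) * q = 2 * q ^ 2 + 7 * q := by ring
      rw [this]
      have h4 : 0 ≤ 2 * q ^ 2 + 7 * q := by positivity
      nlinarith
    nlinarith
  have h4 : 2 * q ^ 2 + 7 * q + 2 ≤ q ^ 6 := by
    have h5 : (16 : ℝ) ≤ q ^ 4 := by
      have : (2 : ℝ) ^ 4 ≤ q ^ 4 := pow_le_pow_left₀ (by norm_num) hq 4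
      linarith
    have h6 : q ^ 6 = q ^ 4 * q ^ 2 := by ring
    rw [h6]
    have h7 : 16 * q ^ 2 ≤ q ^ 4 * q ^ 2 := mul_le_mul_of_nonneg_right h5 (by positivity)
    nlinarith
  calc (Λ : ℝ) + 1 ≤ (2 * q ^ 2 + 7 * q + 2) * u := h1
    _ ≤ q ^ 6 * u := mul_le_mul_of_nonneg_right h4 (by linarith)

/-- the final numerical estimate -/
lemma final_numeric2 {q u σ t H θ ε : ℝ} {n ν s Λ F : ℕ} (hq : 2 ≤ q) (hσ : 0 < σ)
    (hu : u = 1 + 1 / σ) (hn : (n : ℝ) ≤ q) (hn0 : 0 < n) (hν : (ν : ℝ) ≤ q - 1)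
    (hs : (s : ℝ) + 1 ≤ q) (ht0 : 0 < t) (ht3 : t ≤ q ^ 3) (hH : H = 1 + σ * t)
    (hθ : θ = σ / (n * (s + 1) * H * q ^ (2 * s + 6)))
    (hε : ε = σ * θ / (2 * n * H * q ^ (4 * s + 12) * u))
    (hΛ : (Λ : ℝ) + 1 ≤ (2 * ν + 9) * q + u + 1) (hF : (F : ℝ) ≤ 2 / ε) :
    q ^ (3 * s) * (2 * ((Λ + 1) * (F + 1))) ≤ u ^ 4 * q ^ (9 * s + 37) := by
  have hq0 : 0 < q := by linarith
  have hu1 : 1 ≤ u := by
    rw [hu]
    have : 0 ≤ 1 / σ := by positivity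
    linarith
  have hn1 : (0 : ℝ) < n := by exact_mod_cast hn0
  have hHpos : 0 < H := by rw [hH]; positivity
  have hHσ : H / σ ≤ q ^ 3 * u := Hσ_le hq hσ hu ht3 hH
  have hHσ0 : 0 < H / σ := by positivity
  have hu0 : 0 < u := by linarith
  -- `2 / ε`
  have h2ε : 2 / ε = 4 * (n ^ 2 * (s + 1)) * (H / σ) ^ 2 * q ^ (6 * s + 18) * u := by
    rw [hε, hθ]
    have hs1 : (0 : ℝ) < s + 1 := by positivity
    field_simp
    ring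
  have h2ε' : 2 / ε ≤ 4 * (q ^ (6 * s + 27) * u ^ 3) := by
    rw [h2ε]
    have h1 : (n : ℝ) ^ 2 * (s + 1) ≤ q ^ 2 * q := by
      apply mul_le_mul _ hs (by positivity) (by positivity)
      exact pow_le_pow_left₀ hn1.le hn 2
    have h2 : (H / σ) ^ 2 ≤ (q ^ 3 * u) ^ 2 := pow_le_pow_left₀ hHσ0.le hHσ 2
    calc 4 * ((n : ℝ) ^ 2 * (s + 1)) * (H / σ) ^ 2 * q ^ (6 * s + 18) * u
        ≤ 4 * (q ^ 2 * q) * (q ^ 3 * u) ^ 2 * q ^ (6 * s + 18) * u := by gcongr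
      _ = 4 * (q ^ (6 * s + 27) * u ^ 3) := by ring
  have hu3 : (1 : ℝ) ≤ u ^ 3 := one_le_pow₀ hu1
  have hF1 : (F : ℝ) + 1 ≤ q ^ (6 * s + 30) * u ^ 3 := by
    have h1 : (1 : ℝ) ≤ q ^ (6 * s + 27) * u ^ 3 := by
      have : (1 : ℝ) ≤ q ^ (6 * s + 27) := one_le_pow₀ (by linarith)
      nlinarith
    have h2 : (8 : ℝ) ≤ q ^ 3 := by
      have : (2 : ℝ) ^ 3 ≤ q ^ 3 := pow_le_pow_left₀ (by norm_num) hq 3
      linarith
    calc (F : ℝ) + 1 ≤ 4 * (q ^ (6 * s + 27) * u ^ 3) + q ^ (6 * s + 27) * u ^ 3 := by linarith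
      _ = 5 * (q ^ (6 * s + 27) * u ^ 3) := by ring
      _ ≤ q ^ 3 * (q ^ (6 * s + 27) * u ^ 3) := by
          apply mul_le_mul_of_nonneg_right _ (by positivity)
          linarith
      _ = q ^ (6 * s + 30) * u ^ 3 := by ring
  have hΛ1 := Lam_le hq hu1 hν hΛ
  calc q ^ (3 * s) * (2 * (((Λ : ℝ) + 1) * (F + 1)))
      ≤ q ^ (3 * s) * (q * ((q ^ 6 * u) * (q ^ (6 * s + 30) * u ^ 3))) := by
        gcongr
    _ = u ^ 4 * q ^ (9 * s + 37) := by ring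

end Run7.h302
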