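import Pool.Agent.Run7.h302.Cone
import Pool.Agent.Run7.h302.Main2

/-!
# The expected number of pivots, with the probability of a starting vertex as a factor
-/

open MeasureTheory ProbabilityTheory Finset
open scoped ENNReal

namespace Run7.h302

/-- at a nondegenerate vertex which maximises `zᵀx` with nonzero dual variables, `z` is a strictly
positive combination of all rows -/
lemma strictCone_of_vertex {m n : ℕ} {A : Fin m → Fin n → ℝ} {b : Fin m → ℝ} (hnd : Nondeg A b)
    {v z : Fin n → ℝ} (hv : v ∈ (feas A b).extremePoints ℝ)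
    (hmax : ∀ x ∈ feas A b, ∑ j, z j * x j ≤ ∑ j, z j * v j)
    (hdual : ∀ S, IsBasis A S → ∀ i ∈ S, dualVec A z S i ≠ 0) : A ∈ strictCone m n z := by
  classical
  set S := actSet A b v with hS
  have hbas := act_isBasis hnd hv
  rw [← hS] at hbas
  have hkertriv : ∀ h : Fin n → ℝ, (∀ i ∈ S, ∑ j, A i j * h j = 0) → h = 0 := fun h hh =>
    ker_act_trivial hv hh
  refine ⟨fun x hx => hkertriv x fun i _ => hx i, ?_⟩
  set M : Matrix S (Fin n) ℝ := Matrix.of fun i j => A i j with hM
  have hinj : Function.Injective M.mulVecLin := by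
    rw [← LinearMap.ker_eq_bot, LinearMap.ker_eq_bot']
    intro h hh
    apply hkertriv
    intro i hi
    have := congrFun hh ⟨i, hi⟩
    simpa [Matrix.mulVec, dotProduct, hM] using this
  have hsurj : Function.Surjective M.mulVecLin := by
    rw [← LinearMap.injective_iff_surjective_of_finrank_eq_finrank]
    · exact hinj
    · rw [Module.finrank_fintype_fun_eq_card, Module.finrank_fintype_fun_eq_card, Fintype.card_fin,
        Fintype.card_coe, hbas.1]
  set y := dualVec A z S with hy
  -- the dual variables of the active rows are positive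
  have hypos : ∀ i₀ ∈ S, 0 < y i₀ := by
    intro i₀ hi₀
    obtain ⟨h, hh⟩ := hsurj fun i => if (i : Fin m) = i₀ then -1 else 0
    have hh' : ∀ i ∈ S, ∑ j, A i j * h j = if i = i₀ then -1 else 0 := by
      intro i hi
      have := congrFun hh ⟨i, hi⟩
      simpa [Matrix.mulVec, dotProduct, hM] using this
    have hev : ∀ i, ∀ᶠ ε in nhdsWithin (0 : ℝ) (Set.Ioi 0),
        i ∉ S → ε * |∑ j, A i j * h j| < b i - ∑ j, A i j * v j := by
      intro i
      by_cases hi : i ∈ S
      · exact Filter.Eventually.of_forall fun ε h => absurd hi h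
      · have hlt : 0 < b i - ∑ j, A i j * v j := by
          have h1 := hv.1 i
          have h2 : ∑ j, A i j * v j ≠ b i := fun h => hi (mem_actSet.2 h)
          have h3 := lt_of_le_of_ne h1 h2
          linarith
        have hc : Filter.Tendsto (fun ε : ℝ => ε * |∑ j, A i j * h j|) (nhds 0) (nhds 0) := by
          have : Continuous fun ε : ℝ => ε * |∑ j, A i j * h j| := by fun_prop
          have h3 := this.tendsto 0
          simpa using h3
        have h4 := hc.eventually (gt_mem_nhds hlt)
        exact (h4.filter_mono nhdsWithin_le_nhds).mono fun ε h _ => h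
    have hall := (Filter.eventually_all.2 hev).and self_mem_nhdsWithin
    obtain ⟨ε, hε, hεpos⟩ := hall.exists
    have hεpos' : 0 < ε := hεpos
    have hmem : v + ε • h ∈ feas A b := by
      intro i
      rw [row_add_smul]
      by_cases hi : i ∈ S
      · rw [hh' i hi]
        have := hv.1 i
        split_ifs <;> linarith
      · have h1 := hε i hi
        have h2 : ε * ∑ j, A i j * h j ≤ ε * |∑ j, A i j * h j| :=
          mul_le_mul_of_nonneg_left (le_abs_self _) hεpos'.le
        linarith
    have h1 := hmax _ hmem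
    have h2 : ∑ j, z j * (v + ε • h) j = ∑ j, z j * v j + ε * ∑ j, z j * h j := by
      rw [Finset.mul_sum, ← Finset.sum_add_distrib]
      refine Finset.sum_congr rfl fun j _ => ?_
      simp only [Pi.add_apply, Pi.smul_apply, smul_eq_mul]
      ring
    have h3 : ∑ j, z j * h j = -y i₀ := by
      calc ∑ j, z j * h j = ∑ j, ∑ i, y i * (A i j * h j) := by
            refine Finset.sum_congr rfl fun j _ => ?_
            rw [← dualVec_eq hbas z j, Finset.sum_mul]
            exact Finset.sum_congr rfl fun i _ => by ring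
        _ = ∑ i, y i * ∑ j, A i j * h j := by
            rw [Finset.sum_comm]
            exact Finset.sum_congr rfl fun i _ => by rw [Finset.mul_sum]
        _ = ∑ i ∈ S, y i * ∑ j, A i j * h j := sum_dualVec_support A z S _
        _ = ∑ i ∈ S, (if i = i₀ then -y i₀ else 0) := by
            refine Finset.sum_congr rfl fun i hi => ?_
            rw [hh' i hi]
            by_cases hii : i = i₀
            · subst hii
              simp
            · simp [hii]
        _ = -y i₀ := by
            rw [Finset.sum_ite_eq' S i₀ fun _ => -y i₀, if_pos hi₀]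
    rw [h2, h3] at h1
    have h4 : 0 ≤ y i₀ := by
      by_contra hneg
      push Not at hneg
      nlinarith
    exact lt_of_le_of_ne h4 (Ne.symm (hdual S hbas i₀ hi₀))
  -- spread a small weight over the other rows
  set w : Fin n → ℝ := fun j => ∑ i ∈ Sᶜ, A i j with hw
  set y' := dualVec A w S with hy'
  have hev : ∀ i, ∀ᶠ ε in nhdsWithin (0 : ℝ) (Set.Ioi 0), i ∈ S → ε * |y' i| < y i := by
    intro i
    by_cases hi : i ∈ S
    · have hc : Filter.Tendsto (fun ε : ℝ => ε * |y' i|) (nhds 0) (nhds 0) := by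
        have : Continuous fun ε : ℝ => ε * |y' i| := by fun_prop
        have h3 := this.tendsto 0
        simpa using h3
      have h4 := hc.eventually (gt_mem_nhds (hypos i hi))
      exact (h4.filter_mono nhdsWithin_le_nhds).mono fun ε h _ => h
    · exact Filter.Eventually.of_forall fun ε h => absurd h hi
  have hall := (Filter.eventually_all.2 hev).and self_mem_nhdsWithin
  obtain ⟨ε, hε, hεpos⟩ := hall.exists
  have hεpos' : 0 < ε := hεpos
  refine ⟨fun i => y i - ε * y' i + if i ∈ S then 0 else ε, fun i => ?_, fun j => ?_⟩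
  · by_cases hi : i ∈ S
    · simp only [if_pos hi, add_zero]
      have h1 := hε i hi
      have h2 : ε * y' i ≤ ε * |y' i| := mul_le_mul_of_nonneg_left (le_abs_self _) hεpos'.le
      linarith
    · simp only [if_neg hi]
      rw [hy, hy', dualVec_supp A z S i hi, dualVec_supp A w S i hi]
      linarith
  · have h1 : ∑ i, y i * A i j = z j := dualVec_eq hbas z j
    have h2 : ∑ i, y' i * A i j = w j := dualVec_eq hbas w j
    have h3 : ∑ i, (if i ∈ S then 0 else ε) * A i j = ε * w j := by
      rw [hw, Finset.mul_sum, ← Finset.sum_subset (Finset.subset_univ Sᶜ)]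
      · refine Finset.sum_congr rfl fun i hi => ?_
        rw [if_neg (mem_compl.1 hi)]
      · intro i _ hi
        rw [mem_compl, not_not] at hi
        rw [if_pos hi, zero_mul]
    calc ∑ i, (y i - ε * y' i + if i ∈ S then 0 else ε) * A i j
        = ∑ i, y i * A i j - ε * ∑ i, y' i * A i j + ∑ i, (if i ∈ S then 0 else ε) * A i j := by
          rw [Finset.mul_sum, ← Finset.sum_sub_distrib, ← Finset.sum_add_distrib]
          exact Finset.sum_congr rfl fun i _ => by ring
      _ = z j := by rw [h1, h2, h3]; ring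

/-- almost surely all dual variables of all bases are nonzero -/
lemma ae_dual_ne_zero {m n : ℕ} {σ : ℝ} (hσ : 0 < σ) (A₀ : Fin m → Fin n → ℝ) {z : Fin n → ℝ}
    (hz : ∃ j, |z j| = 1) :
    ∀ᵐ G ∂(noiseA m n σ), ∀ S, IsBasis (A₀ + G) S → ∀ i ∈ S, dualVec (A₀ + G) z S i ≠ 0 := by
  have h0 : noiseA m n σ (badLight A₀ z 0 0) = 0 := by
    refine le_antisymm ((badLight_le A₀ z 0 hσ le_rfl).trans ?_) zero_le
    simp
  rw [← compl_mem_ae_iff] at h0
  filter_upwards [h0] with G hG S hS i hi hzero
  apply hG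
  have hH : ∀ i j, |(A₀ + G) i j| ≤ ‖A₀ + G‖ := by
    intro i j
    exact (norm_le_pi_norm ((A₀ + G) i) j).trans (norm_le_pi_norm (A₀ + G) i)
  obtain ⟨D, i₀, hD, hi₀, hDS, hiD, hmem⟩ := light_rows hS hz hH (θ := 0) le_rfl one_pos 0 (by
    rw [Finset.card_pos]
    refine ⟨i, ?_⟩
    rw [mem_filter]
    refine ⟨hi, ?_⟩
    rw [hzero, abs_zero, zero_mul])
  rw [badLight]
  simp only [Set.mem_iUnion]
  refine ⟨S, mem_powersetCard.2 ⟨subset_univ _, hS.1⟩, D, ?_, i₀, mem_univ _, ?_⟩
  · rw [mem_filter]
    exact ⟨mem_univ _, hD.le⟩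
  · rw [if_pos ⟨hD, hi₀, hDS, hiD⟩]
    simpa using hmem

lemma integral_bound_cone {m n : ℕ} (hn : 0 < n) {σ t θ Y ε : ℝ} (hσ : 0 < σ) (ht : 0 ≤ t)
    (hθ0 : 0 < θ) (hθ1 : θ < 1) (hε : 0 < ε) (hY : 0 < Y) {K d Λ : ℕ} (hK : 0 < K)
    (hΛ : n * Y * (1 + σ * t) < 2 ^ (Λ + 1))
    {A₀ : Fin m → Fin n → ℝ} {b₀ : Fin m → ℝ}
    (hF : (∑ i, ∑ j, A₀ i j ^ 2) + ∑ i, b₀ i ^ 2 ≤ 1) {c : Fin n → ℝ} (hc1 : ∃ j, |c j| = 1)
    (hc : ∀ j, |c j| ≤ 1) {c₂ : Fin n → ℝ} (hcc : ∀ P v w, Improving P c₂ v w → Improving P c v w)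
    (R : Rule) {z z' : Fin n → ℝ} (hz' : ∃ j, |z' j| = 1)
    (hzz : ∀ x v : Fin n → ℝ, ∑ j, z j * x j ≤ ∑ j, z j * v j →
      ∑ j, z' j * x j ≤ ∑ j, z' j * v j) {pA pB : ℝ≥0∞}
    (hpA : noiseA m n σ (badA A₀ c d σ t θ Y) ≤ pA)
    (hpB : ∀ G, noiseB m σ (badB (A₀ + G) b₀ c K d Λ σ t θ ε) ≤ pB) :
    ∫⁻ ω, pivots R (feas (A₀ + ω.1) (b₀ + ω.2)) c₂ z ∂(noise m n σ) ≤
      (goodLen m K d Λ ε + m.choose n * pB) * noiseA m n σ {G | A₀ + G ∈ strictCone m n z'} +
        m.choose n * pA := by
  classical
  set E := toMeasurable (noiseA m n σ) (badA A₀ c d σ t θ Y) with hE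
  have hEm : MeasurableSet E := measurableSet_toMeasurable _ _
  set C : Set (Fin m → Fin n → ℝ) := {G | A₀ + G ∈ strictCone m n z'} with hC
  have hCm : MeasurableSet C :=
    (measurePreserving_shiftedNoiseA A₀ σ).measurable (measurableSet_strictCone m n z')
  calc ∫⁻ ω, pivots R (feas (A₀ + ω.1) (b₀ + ω.2)) c₂ z ∂(noise m n σ)
      ≤ ∫⁻ G, ∫⁻ g, pivots R (feas (A₀ + G) (b₀ + g)) c₂ z ∂(noiseB m σ) ∂(noiseA m n σ) :=
        lintegral_prod_le _
    _ ≤ ∫⁻ G, (C.indicator (fun _ => (goodLen m K d Λ ε + m.choose n * pB : ℝ≥0∞)) G +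
          E.indicator (fun _ => (m.choose n : ℝ≥0∞)) G) ∂(noiseA m n σ) := by
        apply lintegral_mono_ae
        filter_upwards [ae_dual_ne_zero hσ A₀ hz'] with G hdual
        by_cases hGC : G ∈ C
        · refine (inner_integral (d := d) hn hσ ht hθ0 hθ1 hε hY hK hΛ hF hc1 hc hcc R z G).trans ?_
          rw [Set.indicator_of_mem hGC]
          split_ifs with hG
          · rw [Set.indicator_of_mem (show G ∈ E from subset_toMeasurable _ _ hG)]
            exact le_add_self
          · refine le_trans ?_ le_self_add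
            gcongr
            exact hpB G
        · have hz0 : ∫⁻ g, pivots R (feas (A₀ + G) (b₀ + g)) c₂ z ∂(noiseB m σ) = 0 := by
            rw [← lintegral_zero (μ := noiseB m σ)]
            apply lintegral_congr_ae
            filter_upwards [ae_nondeg hσ (A₀ + G) b₀] with g hg
            unfold pivots
            refine le_antisymm (iSup_le fun v => iSup_le fun hv => iSup_le fun hmax => ?_) zero_le
            exact absurd (strictCone_of_vertex hg hv (fun x hx => hzz x v (hmax x hx)) hdual) hGC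
          rw [hz0]
          exact zero_le
    _ = (goodLen m K d Λ ε + m.choose n * pB) * noiseA m n σ C +
          m.choose n * noiseA m n σ E := by
        rw [lintegral_add_left (measurable_const.indicator hCm), lintegral_indicator hEm,
          lintegral_indicator hCm]
        simp
    _ ≤ _ := by
        rw [hE, measure_toMeasurable]
        gcongr

end Run7.h302
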