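import Mathlib

/-!
# The simplex method with a pivoting rule, and its smoothed complexity

Definitions for the problem on the smoothed complexity of the greedy, steepest-edge and random
pivoting rules.
-/

open MeasureTheory ProbabilityTheory
open scoped ENNReal

namespace Run7.h302

variable {n : ℕ}

/-- The feasible polyhedron `{x ∈ ℝⁿ : A x ≤ b}`. -/
def feas {m n : ℕ} (A : Fin m → Fin n → ℝ) (b : Fin m → ℝ) : Set (Fin n → ℝ) :=
  {x | ∀ i, ∑ j, A i j * x j ≤ b i}

/-- `v` and `w` are neighbours on `P`: two different vertices (extreme points) of `P` such that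
the segment between them is an edge, that is, a one-dimensional face (extreme subset) of `P`. -/
def Neighbour (P : Set (Fin n → ℝ)) (v w : Fin n → ℝ) : Prop :=
  v ≠ w ∧ v ∈ P.extremePoints ℝ ∧ w ∈ P.extremePoints ℝ ∧ IsExtreme ℝ P (segment ℝ v w)

/-- `w` is an improving neighbour of `v` for the objective `x ↦ cᵀx`. -/
def Improving (P : Set (Fin n → ℝ)) (c v w : Fin n → ℝ) : Prop :=
  Neighbour P v w ∧ ∑ j, c j * v j < ∑ j, c j * w j

/-- One step of the greedy rule: the improving neighbour with the largest `cᵀ(w - v)`. -/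
def GreedyStep (P : Set (Fin n → ℝ)) (c v w : Fin n → ℝ) : Prop :=
  Improving P c v w ∧ ∀ w', Improving P c v w' →
    ∑ j, c j * (w' j - v j) ≤ ∑ j, c j * (w j - v j)

/-- One step of the steepest-edge rule: the improving neighbour with the largest
`cᵀ(w - v) / ‖w - v‖₂`. -/
def SteepestStep (P : Set (Fin n → ℝ)) (c v w : Fin n → ℝ) : Prop :=
  Improving P c v w ∧ ∀ w', Improving P c v w' →
    (∑ j, c j * (w' j - v j)) / Real.sqrt (∑ j, (w' j - v j) ^ 2) ≤
      (∑ j, c j * (w j - v j)) / Real.sqrt (∑ j, (w j - v j) ^ 2)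

/-- The expected number of steps of the random rule started at `v` and cut off after `k` steps:
at each vertex with an improving neighbour, one of the improving neighbours is chosen uniformly
at random, independently of everything else; the path stops when there is none. -/
noncomputable def expectedSteps (P : Set (Fin n → ℝ)) (c : Fin n → ℝ) :
    ℕ → (Fin n → ℝ) → ℝ≥0∞
  | 0, _ => 0
  | k + 1, v =>
    open Classical in
    if ∃ w, Improving P c v w then
      1 + ∑' w : {w // Improving P c v w},
        expectedSteps P c k w / ((Set.encard {w | Improving P c v w} : ℕ∞) : ℝ≥0∞)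
    else 0

/-- The pivoting rules: the three rules of the problem, and the adversarial rule, which from any
vertex picks improving neighbours so as to make the path as long as possible. -/
inductive Rule
  | greedy
  | steepestEdge
  | random
  | adversarial

/-- The number of steps of the longest path `p 0, p 1, …, p k` with `p 0 = v` all of whose steps
are allowed by `step`. -/
noncomputable def longestRun (step : (Fin n → ℝ) → (Fin n → ℝ) → Prop) (v : Fin n → ℝ) : ℝ≥0∞ :=
  ⨆ (k : ℕ) (p : ℕ → (Fin n → ℝ)) (_ : p 0 = v) (_ : ∀ i < k, step (p i) (p (i + 1))), (k : ℝ≥0∞)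

/-- The number of pivot steps from the vertex `v`, in expectation over the choices of the rule
in the case of the random rule. -/
noncomputable def pivotsFrom (R : Rule) (P : Set (Fin n → ℝ)) (c v : Fin n → ℝ) : ℝ≥0∞ :=
  match R with
  | Rule.greedy => longestRun (GreedyStep P c) v
  | Rule.steepestEdge => longestRun (SteepestStep P c) v
  | Rule.random => ⨆ k, expectedSteps P c k v
  | Rule.adversarial => longestRun (Improving P c) v

/-- The number `T` of pivot steps when the start is the vertex of `P` that maximises `zᵀx` over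
`P` (and `0` if there is no such vertex). -/
noncomputable def pivots (R : Rule) (P : Set (Fin n → ℝ)) (c z : Fin n → ℝ) : ℝ≥0∞ :=
  ⨆ (v : Fin n → ℝ) (_ : v ∈ P.extremePoints ℝ)
    (_ : ∀ x ∈ P, ∑ j, z j * x j ≤ ∑ j, z j * v j), pivotsFrom R P c v

/-- The law of the perturbation `(G, g)`: all entries are independent `N(0, σ²)`. -/
noncomputable def noise (m n : ℕ) (σ : ℝ) : Measure ((Fin m → Fin n → ℝ) × (Fin m → ℝ)) :=
  (Measure.pi fun _ => Measure.pi fun _ => gaussianReal 0 (Real.toNNReal (σ ^ 2))).prod
    (Measure.pi fun _ => gaussianReal 0 (Real.toNNReal (σ ^ 2)))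

/-- The smoothed complexity `C(m, n, σ)` of the rule `R`: the supremum of the expected number of
pivot steps on `{x : (A₀ + G) x ≤ b₀ + g}`, over all `A₀, b₀` with Frobenius norm
`‖(A₀, b₀)‖ ≤ 1` and all `c, z`. -/
noncomputable def smoothedComplexity (R : Rule) (m n : ℕ) (σ : ℝ) : ℝ≥0∞ :=
  ⨆ (A₀ : Fin m → Fin n → ℝ) (b₀ : Fin m → ℝ)
    (_ : (∑ i, ∑ j, A₀ i j ^ 2) + ∑ i, b₀ i ^ 2 ≤ 1) (c : Fin n → ℝ) (z : Fin n → ℝ),
    ∫⁻ ω, pivots R (feas (A₀ + ω.1) (b₀ + ω.2)) c z ∂(noise m n σ)

end Run7.h302
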