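import Pool.Agent.Run7.h302.RowBad2

open Finset

namespace Run7.h302

variable {m n : ℕ}

/-- `S` is a basis: `n` linearly independent rows -/
def IsBasis (A : Fin m → Fin n → ℝ) (S : Finset (Fin m)) : Prop :=
  S.card = n ∧ LinearIndependent ℝ (fun i : S => A i)

open Classical in
/-- the dual vector of `S`: supported on `S`, with `∑ i, y i * A i = c` -/
noncomputable def dualVec (A : Fin m → Fin n → ℝ) (c : Fin n → ℝ) (S : Finset (Fin m)) :
    Fin m → ℝ :=
  if h : ∃ y : Fin m → ℝ, (∀ i ∉ S, y i = 0) ∧ ∀ j, ∑ i, y i * A i j = c j then h.choose else 0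

lemma dualVec_supp (A : Fin m → Fin n → ℝ) (c : Fin n → ℝ) (S : Finset (Fin m)) :
    ∀ i ∉ S, dualVec A c S i = 0 := by
  intro i hi
  unfold dualVec
  split_ifs with h
  · exact h.choose_spec.1 i hi
  · rfl

lemma dualVec_eq {A : Fin m → Fin n → ℝ} {S : Finset (Fin m)} (hS : IsBasis A S) (c : Fin n → ℝ)
    (j : Fin n) : ∑ i, dualVec A c S i * A i j = c j := by
  have h : ∃ y : Fin m → ℝ, (∀ i ∉ S, y i = 0) ∧ ∀ j, ∑ i, y i * A i j = c j := by
    obtain ⟨hcard, hli⟩ := hS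
    have hspan : Submodule.span ℝ (Set.range (fun i : S => A i)) = ⊤ := by
      apply hli.span_eq_top_of_card_eq_finrank'
      simp [hcard]
    have hc : c ∈ Submodule.span ℝ (Set.range (fun i : S => A i)) := by
      rw [hspan]; exact Submodule.mem_top
    rw [Submodule.mem_span_range_iff_exists_fun] at hc
    obtain ⟨w, hw⟩ := hc
    refine ⟨fun i => if h : i ∈ S then w ⟨i, h⟩ else 0, fun i hi => dif_neg hi, fun j => ?_⟩
    have h1 := congrFun hw j
    simp only [Finset.sum_apply, Pi.smul_apply, smul_eq_mul] at h1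
    rw [← h1, ← Finset.sum_subset (Finset.subset_univ S)]
    · rw [← Finset.sum_coe_sort S]
      refine Finset.sum_congr rfl fun i _ => ?_
      simp only [dif_pos i.2]
    · intro i _ hi
      simp only [dif_neg hi, zero_mul]
  unfold dualVec
  rw [dif_pos h]
  exact h.choose_spec.2 j

/-- the objective value at the vertex of a basis is `⟨y, b⟩` -/
lemma dual_value {A : Fin m → Fin n → ℝ} {S : Finset (Fin m)} (hS : IsBasis A S) (c : Fin n → ℝ)
    {b : Fin m → ℝ} {x : Fin n → ℝ} (hx : ∀ i ∈ S, ∑ j, A i j * x j = b i) :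
    ∑ j, c j * x j = ∑ i, dualVec A c S i * b i := by
  have h1 : ∀ j, c j * x j = ∑ i, dualVec A c S i * (A i j * x j) := by
    intro j
    rw [← dualVec_eq hS c j, Finset.sum_mul]
    exact Finset.sum_congr rfl fun i _ => by ring
  rw [Finset.sum_congr rfl fun j _ => h1 j, Finset.sum_comm]
  refine Finset.sum_congr rfl fun i _ => ?_
  rw [← Finset.mul_sum]
  by_cases hi : i ∈ S
  · rw [hx i hi]
  · rw [dualVec_supp A c S i hi, zero_mul, zero_mul]

lemma sum_dualVec_support (A : Fin m → Fin n → ℝ) (c : Fin n → ℝ) (S : Finset (Fin m))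
    (f : Fin m → ℝ) : ∑ i, dualVec A c S i * f i = ∑ i ∈ S, dualVec A c S i * f i := by
  symm
  apply Finset.sum_subset (Finset.subset_univ S)
  intro i _ hi
  rw [dualVec_supp A c S i hi, zero_mul]

/-- `|⟨y, f⟩| ≤ n ‖y‖ H` if `|f i| ≤ H` -/
lemma abs_dual_sum_le {A : Fin m → Fin n → ℝ} {S : Finset (Fin m)} (hS : S.card = n)
    (c : Fin n → ℝ) {f : Fin m → ℝ} {H : ℝ} (hH : ∀ i, |f i| ≤ H) :
    |∑ i, dualVec A c S i * f i| ≤ n * ‖dualVec A c S‖ * H := by
  rw [sum_dualVec_support]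
  calc |∑ i ∈ S, dualVec A c S i * f i| ≤ ∑ i ∈ S, |dualVec A c S i * f i| :=
        Finset.abs_sum_le_sum_abs _ _
    _ ≤ ∑ _i ∈ S, ‖dualVec A c S‖ * H := by
        apply Finset.sum_le_sum
        intro i _
        rw [abs_mul]
        exact mul_le_mul (norm_le_pi_norm (dualVec A c S) i) (hH i) (abs_nonneg _) (norm_nonneg _)
    _ = n * ‖dualVec A c S‖ * H := by
        rw [Finset.sum_const, hS, nsmul_eq_mul, mul_assoc]

/-- lower bound on the dual vector -/
lemma one_le_norm_dualVec {A : Fin m → Fin n → ℝ} {S : Finset (Fin m)} (hS : IsBasis A S)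
    {c : Fin n → ℝ} (hc : ∃ j, |c j| = 1) {H : ℝ} (hH : ∀ i j, |A i j| ≤ H) :
    1 ≤ n * ‖dualVec A c S‖ * H := by
  obtain ⟨j, hj⟩ := hc
  rw [← hj, ← dualVec_eq hS c j]
  exact abs_dual_sum_le hS.1 c fun i => hH i j

/-- many light rows force a bad row -/
lemma light_rows {A₀ G : Fin m → Fin n → ℝ} {S : Finset (Fin m)} (hS : IsBasis (A₀ + G) S)
    {c : Fin n → ℝ} (hc : ∃ j, |c j| = 1) {H : ℝ} (hH : ∀ i j, |(A₀ + G) i j| ≤ H)
    {θ : ℝ} (hθ0 : 0 ≤ θ) (hθ : θ < 1) (d : ℕ)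
    (hlight : d < (S.filter fun i => |dualVec (A₀ + G) c S i| ≤ θ * ‖dualVec (A₀ + G) c S‖).card) :
    ∃ (D : Finset (Fin m)) (i₀ : Fin m), D.card = d + 1 ∧ i₀ ∈ S ∧ D ⊆ S ∧ i₀ ∉ D ∧
      G ∈ rowBad A₀ c (S \ insert i₀ D) i₀ ((d + 1 : ℕ) * θ * H) := by
  set y := dualVec (A₀ + G) c S with hy
  have hpos : 0 < ‖y‖ := by
    by_contra h0
    have h1 : ‖y‖ = 0 := le_antisymm (not_lt.1 h0) (norm_nonneg _)
    have := one_le_norm_dualVec hS hc hH
    rw [← hy, h1] at this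
    norm_num at this
  obtain ⟨D, hDsub, hDcard⟩ := Finset.exists_subset_card_eq (Nat.succ_le_of_lt hlight)
  -- the maximal entry
  have : Nonempty (Fin m) := by
    by_contra hne
    rw [not_nonempty_iff] at hne
    have : y = 0 := Subsingleton.elim _ _
    rw [this, norm_zero] at hpos
    exact lt_irrefl _ hpos
  obtain ⟨i₀, hi₀⟩ : ∃ i₀, ‖y‖ = |y i₀| := by
    obtain ⟨i₀, hi₀⟩ := (IsGreatest.pi_norm y).1
    exact ⟨i₀, hi₀.symm⟩
  have hyi₀ : y i₀ ≠ 0 := by
    intro h0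
    rw [h0, abs_zero] at hi₀
    linarith
  have hi₀S : i₀ ∈ S := by
    by_contra hns
    exact hyi₀ (dualVec_supp _ _ _ _ hns)
  have hi₀D : i₀ ∉ D := by
    intro hmem
    have := (Finset.mem_filter.1 (hDsub hmem)).2
    rw [← hi₀] at this
    nlinarith
  have hDS : D ⊆ S := fun i hi => (Finset.mem_filter.1 (hDsub hi)).1
  refine ⟨D, i₀, hDcard, hi₀S, hDS, hi₀D, ?_⟩
  refine ⟨1 / y i₀, fun i => -(y i / y i₀), fun j => ?_⟩
  have hsum : ∑ i ∈ S, y i * (A₀ + G) i j = c j := by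
    rw [hy, ← sum_dualVec_support]
    exact dualVec_eq hS c j
  have hSdec : S = insert i₀ ((S \ insert i₀ D) ∪ D) := by
    ext i
    simp only [mem_insert, mem_union, mem_sdiff, not_or]
    constructor
    · intro hi
      by_cases h1 : i = i₀
      · exact Or.inl h1
      · by_cases h2 : i ∈ D
        · exact Or.inr (Or.inr h2)
        · exact Or.inr (Or.inl ⟨hi, h1, h2⟩)
    · rintro (h | h | h)
      · rw [h]; exact hi₀S
      · exact h.1
      · exact hDS h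
  have hnot : i₀ ∉ (S \ insert i₀ D) ∪ D := by
    simp [hi₀D]
  have hdisj : Disjoint (S \ insert i₀ D) D := by
    rw [Finset.disjoint_left]
    intro i hi hiD
    rw [mem_sdiff, mem_insert, not_or] at hi
    exact hi.2.2 hiD
  have hsum2 : y i₀ * (A₀ + G) i₀ j + ((∑ i ∈ S \ insert i₀ D, y i * (A₀ + G) i j) +
      ∑ i ∈ D, y i * (A₀ + G) i j) = c j := by
    rw [← hsum]
    conv_rhs => rw [hSdec, Finset.sum_insert hnot, Finset.sum_union hdisj]
  have hexp : (A₀ i₀ j + G i₀ j) -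
      (1 / y i₀ * c j + ∑ i ∈ S \ insert i₀ D, -(y i / y i₀) * (A₀ i j + G i j)) =
      -(∑ i ∈ D, (y i / y i₀) * (A₀ + G) i j) := by
    have e1 : ∑ i ∈ S \ insert i₀ D, -(y i / y i₀) * (A₀ i j + G i j) =
        -((∑ i ∈ S \ insert i₀ D, y i * (A₀ + G) i j) / y i₀) := by
      rw [Finset.sum_div, ← Finset.sum_neg_distrib]
      refine Finset.sum_congr rfl fun i _ => ?_
      simp only [Pi.add_apply]
      ring
    have e2 : ∑ i ∈ D, (y i / y i₀) * (A₀ + G) i j = (∑ i ∈ D, y i * (A₀ + G) i j) / y i₀ := by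
      rw [Finset.sum_div]
      refine Finset.sum_congr rfl fun i _ => ?_
      ring
    rw [e1, e2, ← hsum2]
    simp only [Pi.add_apply] 
    field_simp
    ring
  rw [hexp, abs_neg]
  calc |∑ i ∈ D, (y i / y i₀) * (A₀ + G) i j| ≤ ∑ i ∈ D, |(y i / y i₀) * (A₀ + G) i j| :=
        Finset.abs_sum_le_sum_abs _ _
    _ ≤ ∑ _i ∈ D, θ * H := by
        apply Finset.sum_le_sum
        intro i hi
        rw [abs_mul]
        have h1 := (Finset.mem_filter.1 (hDsub hi)).2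
        have h2 : |y i / y i₀| ≤ θ := by
          rw [abs_div, div_le_iff₀ (abs_pos.2 hyi₀), ← hi₀]
          exact h1
        exact mul_le_mul h2 (hH i j) (abs_nonneg _) hθ0
    _ = (d + 1 : ℕ) * θ * H := by
        rw [Finset.sum_const, hDcard, nsmul_eq_mul, mul_assoc]

/-- a large dual vector forces a bad row -/
lemma large_dual {A₀ G : Fin m → Fin n → ℝ} {S : Finset (Fin m)} (hS : IsBasis (A₀ + G) S)
    {c : Fin n → ℝ} (hc : ∀ j, |c j| ≤ 1) {Y : ℝ} (hY : 0 < Y)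
    (hlarge : Y < ‖dualVec (A₀ + G) c S‖) :
    ∃ i₀ ∈ S, G ∈ rowBad A₀ 0 (S.erase i₀) i₀ (1 / Y) := by
  set y := dualVec (A₀ + G) c S with hy
  have hpos : 0 < ‖y‖ := hY.trans hlarge
  have : Nonempty (Fin m) := by
    by_contra hne
    rw [not_nonempty_iff] at hne
    have : y = 0 := Subsingleton.elim _ _
    rw [this, norm_zero] at hpos
    exact lt_irrefl _ hpos
  obtain ⟨i₀, hi₀⟩ : ∃ i₀, ‖y‖ = |y i₀| := by
    obtain ⟨i₀, hi₀⟩ := (IsGreatest.pi_norm y).1
    exact ⟨i₀, hi₀.symm⟩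
  have hyi₀ : y i₀ ≠ 0 := by
    intro h0
    rw [h0, abs_zero] at hi₀
    linarith
  have hi₀S : i₀ ∈ S := by
    by_contra hns
    exact hyi₀ (dualVec_supp _ _ _ _ hns)
  refine ⟨i₀, hi₀S, 0, fun i => -(y i / y i₀), fun j => ?_⟩
  have hsum : ∑ i ∈ S, y i * (A₀ + G) i j = c j := by
    rw [hy, ← sum_dualVec_support]
    exact dualVec_eq hS c j
  rw [← Finset.add_sum_erase S _ hi₀S] at hsum
  have e1 : ∑ i ∈ S.erase i₀, -(y i / y i₀) * (A₀ i j + G i j) =
      -((∑ i ∈ S.erase i₀, y i * (A₀ + G) i j) / y i₀) := by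
    rw [Finset.sum_div, ← Finset.sum_neg_distrib]
    refine Finset.sum_congr rfl fun i _ => ?_
    simp only [Pi.add_apply]
    ring
  have hexp : (A₀ i₀ j + G i₀ j) - (0 * (0 : Fin n → ℝ) j +
      ∑ i ∈ S.erase i₀, -(y i / y i₀) * (A₀ i j + G i j)) = c j / y i₀ := by
    rw [e1, ← hsum]
    simp only [Pi.add_apply]
    field_simp
    ring
  rw [hexp, abs_div, ← hi₀]
  calc |c j| / ‖y‖ ≤ 1 / ‖y‖ := by gcongr; exact hc j
    _ ≤ 1 / Y := one_div_le_one_div_of_le hY hlarge.le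

end Run7.h302
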