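import Mathlib

/-!
# A change of measure for shifted Gaussians
-/

open MeasureTheory ProbabilityTheory
open scoped ENNReal

namespace Run7.h302

/-- `μ` is dominated by `ν` in the sense of the Cauchy-Schwarz inequality with constant `C` -/
def CS {α : Type*} [MeasurableSpace α] (μ ν : Measure α) (C : ℝ≥0∞) : Prop :=
  ∀ f : α → ℝ≥0∞, Measurable f → (∫⁻ x, f x ∂μ) ^ 2 ≤ C * ∫⁻ x, f x ^ 2 ∂ν

lemma CS.measure_le {α : Type*} [MeasurableSpace α] {μ ν : Measure α} {C : ℝ≥0∞}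
    (h : CS μ ν C) {S : Set α} (hS : MeasurableSet S) : μ S ^ 2 ≤ C * ν S := by
  have := h (S.indicator fun _ => 1) (measurable_const.indicator hS)
  rw [lintegral_indicator_const hS, one_mul] at this
  refine this.trans (le_of_eq ?_)
  congr 1
  have h2 : ∀ x, (S.indicator (fun _ => (1 : ℝ≥0∞)) x) ^ 2 = S.indicator (fun _ => 1) x := by
    intro x
    by_cases hx : x ∈ S <;> simp [hx]
  simp_rw [h2]
  rw [lintegral_indicator_const hS, one_mul]

lemma CS.of_measurePreserving {α β : Type*} [MeasurableSpace α] [MeasurableSpace β]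
    {μ ν : Measure α} {μ' ν' : Measure β} {C : ℝ≥0∞} (e : α ≃ᵐ β)
    (h1 : MeasurePreserving e μ μ') (h2 : MeasurePreserving e ν ν') (h : CS μ' ν' C) :
    CS μ ν C := by
  intro f hf
  have hf' : Measurable fun y => f (e.symm y) := hf.comp e.symm.measurable
  have key := h (fun y => f (e.symm y)) hf'
  have e1 : ∫⁻ y, f (e.symm y) ∂μ' = ∫⁻ x, f x ∂μ := by
    rw [← h1.lintegral_comp hf']
    simp
  have e2 : ∫⁻ y, f (e.symm y) ^ 2 ∂ν' = ∫⁻ x, f x ^ 2 ∂ν := by
    rw [← h2.lintegral_comp (hf'.pow_const 2)]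
    simp
  rwa [e1, e2] at key

lemma CS.prod {α β : Type*} [MeasurableSpace α] [MeasurableSpace β]
    {μ₁ ν₁ : Measure α} {μ₂ ν₂ : Measure β} [SFinite μ₂] [SFinite ν₂] {C₁ C₂ : ℝ≥0∞}
    (h1 : CS μ₁ ν₁ C₁) (h2 : CS μ₂ ν₂ C₂) :
    CS (μ₁.prod μ₂) (ν₁.prod ν₂) (C₁ * C₂) := by
  intro f hf
  rw [lintegral_prod _ hf.aemeasurable, lintegral_prod _ (hf.pow_const 2).aemeasurable]
  have hF : Measurable fun x => ∫⁻ y, f (x, y) ∂μ₂ := hf.lintegral_prod_right'
  refine (h1 _ hF).trans ?_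
  rw [mul_assoc]
  gcongr
  rw [← lintegral_const_mul _ (hf.pow_const 2).lintegral_prod_right']
  apply lintegral_mono
  intro x
  exact h2 (fun y => f (x, y)) (hf.comp measurable_prodMk_left)

lemma CS.pi {k : ℕ} {α : Type*} [MeasurableSpace α] (μ ν : Fin k → Measure α)
    [∀ i, SigmaFinite (μ i)] [∀ i, SigmaFinite (ν i)] (C : Fin k → ℝ≥0∞)
    (h : ∀ i, CS (μ i) (ν i) (C i)) :
    CS (Measure.pi μ) (Measure.pi ν) (∏ i, C i) := by
  induction k with
  | zero =>
    intro f hf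
    rw [Measure.pi_of_empty μ, Measure.pi_of_empty ν]
    rw [lintegral_dirac' _ hf, lintegral_dirac' _ (hf.pow_const 2)]
    simp
  | succ k ih =>
    have hrec := ih (fun j => μ j.succ) (fun j => ν j.succ) (fun j => C j.succ) fun j => h _
    have e1 := measurePreserving_piFinSuccAbove μ 0
    have e2 := measurePreserving_piFinSuccAbove ν 0
    rw [Fin.prod_univ_succ]
    exact CS.of_measurePreserving _ e1 e2 ((h 0).prod hrec)

lemma CS_gaussian (a : ℝ) {v : NNReal} (hv : v ≠ 0) :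
    CS (gaussianReal a v) (gaussianReal 0 v) (ENNReal.ofReal (Real.exp (a ^ 2 / v))) := by
  intro f hf
  have hv' : (0 : ℝ) < v := by positivity
  set L : ℝ → ℝ≥0∞ := fun x => ENNReal.ofReal (Real.exp (a * x / v - a ^ 2 / (2 * v))) with hL
  have hLm : Measurable L := by
    rw [hL]; fun_prop
  have hpdf : ∀ x, gaussianPDF a v x = gaussianPDF 0 v x * L x := by
    intro x
    rw [hL, gaussianPDF, gaussianPDF, ← ENNReal.ofReal_mul (gaussianPDFReal_nonneg _ _ _)]
    congr 1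
    rw [gaussianPDFReal, gaussianPDFReal, mul_assoc (√(2 * Real.pi * ↑v))⁻¹, ← Real.exp_add]
    congr 2
    field_simp
    ring
  have hpdf2 : ∀ x, gaussianPDF 0 v x * L x ^ 2 =
      ENNReal.ofReal (Real.exp (a ^ 2 / v)) * gaussianPDF (2 * a) v x := by
    intro x
    rw [hL, gaussianPDF, gaussianPDF, ← ENNReal.ofReal_pow (Real.exp_nonneg _),
      ← ENNReal.ofReal_mul (gaussianPDFReal_nonneg _ _ _), ← ENNReal.ofReal_mul (Real.exp_nonneg _)]
    congr 1
    rw [gaussianPDFReal, gaussianPDFReal, ← Real.exp_nat_mul, mul_assoc (√(2 * Real.pi * ↑v))⁻¹,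
      ← Real.exp_add, mul_left_comm, ← Real.exp_add]
    congr 2
    push_cast
    field_simp
    ring
  have h1 : ∫⁻ x, f x ∂(gaussianReal a v) = ∫⁻ x, (L * f) x ∂(gaussianReal 0 v) := by
    rw [gaussianReal_of_var_ne_zero _ hv, gaussianReal_of_var_ne_zero _ hv,
      lintegral_withDensity_eq_lintegral_mul _ (measurable_gaussianPDF _ _) hf,
      lintegral_withDensity_eq_lintegral_mul _ (measurable_gaussianPDF _ _) (hLm.mul hf)]
    apply lintegral_congr
    intro x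
    simp only [Pi.mul_apply]
    rw [hpdf x, mul_assoc]
  have h2 : ∫⁻ x, L x ^ 2 ∂(gaussianReal 0 v) = ENNReal.ofReal (Real.exp (a ^ 2 / v)) := by
    rw [gaussianReal_of_var_ne_zero _ hv,
      lintegral_withDensity_eq_lintegral_mul _ (measurable_gaussianPDF _ _) (hLm.pow_const 2)]
    have : ∀ x, (gaussianPDF 0 v * fun x => L x ^ 2) x =
        ENNReal.ofReal (Real.exp (a ^ 2 / v)) * gaussianPDF (2 * a) v x := fun x => hpdf2 x
    simp_rw [this]
    rw [lintegral_const_mul _ (measurable_gaussianPDF _ _), lintegral_gaussianPDF_eq_one _ hv,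
      mul_one]
  have hCS := ENNReal.lintegral_mul_le_Lp_mul_Lq (gaussianReal 0 v)
    (p := 2) (q := 2) (by norm_num [Real.holderConjugate_iff]) hLm.aemeasurable hf.aemeasurable
  rw [h1]
  calc (∫⁻ x, (L * f) x ∂(gaussianReal 0 v)) ^ 2
      ≤ ((∫⁻ x, L x ^ (2 : ℝ) ∂(gaussianReal 0 v)) ^ (1 / 2 : ℝ) *
          (∫⁻ x, f x ^ (2 : ℝ) ∂(gaussianReal 0 v)) ^ (1 / 2 : ℝ)) ^ 2 := by
        gcongr
    _ = (∫⁻ x, L x ^ 2 ∂(gaussianReal 0 v)) * ∫⁻ x, f x ^ 2 ∂(gaussianReal 0 v) := by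
        rw [mul_pow, ← ENNReal.rpow_natCast, ← ENNReal.rpow_natCast, ← ENNReal.rpow_mul,
          ← ENNReal.rpow_mul]
        norm_num
    _ = _ := by rw [h2]

end Run7.h302
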