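import Pool.Agent.Run7.h302.Defs
import Pool.Agent.Run7.h302.Shift

/-!
# Feasibility of a system of linear inequalities with symmetric coefficients
-/

open MeasureTheory ProbabilityTheory Finset
open scoped ENNReal

namespace Run7.h302

/-- the data `(A, b)` of a linear program -/
abbrev Data (m n : ℕ) := (Fin m → Fin n → ℝ) × (Fin m → ℝ)

/-- the strictly feasible data -/
def strictFeas (m n : ℕ) : Set (Data m n) :=
  {ω | ∃ x : Fin n → ℝ, ∀ i, ∑ j, ω.1 i j * x j < ω.2 i}

lemma isOpen_strictFeas (m n : ℕ) : IsOpen (strictFeas m n) := by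
  have : strictFeas m n = ⋃ x : Fin n → ℝ, ⋂ i : Fin m,
      {ω : Data m n | ∑ j, ω.1 i j * x j < ω.2 i} := by
    ext ω
    simp [strictFeas]
  rw [this]
  refine isOpen_iUnion fun x => isOpen_iInter_of_finite fun i => ?_
  apply isOpen_lt <;> fun_prop

/-- the sign of row `i` when the rows in `F` are negated -/
def sgn {m : ℕ} (F : Finset (Fin m)) (i : Fin m) : ℝ := if i ∈ F then -1 else 1

lemma sgn_sq {m : ℕ} (F : Finset (Fin m)) (i : Fin m) : sgn F i ^ 2 = 1 := by
  unfold sgn; split_ifs <;> norm_num

/-- negate the rows in `F` -/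
def flip {m n : ℕ} (F : Finset (Fin m)) (ω : Data m n) : Data m n :=
  (fun i j => sgn F i * ω.1 i j, fun i => sgn F i * ω.2 i)

lemma measurePreserving_sgn {c : ℝ} (hc : c ^ 2 = 1) (v : NNReal) :
    MeasurePreserving (fun x : ℝ => c * x) (gaussianReal 0 v) (gaussianReal 0 v) := by
  refine ⟨by fun_prop, ?_⟩
  rw [gaussianReal_map_const_mul, mul_zero]
  congr 1
  ext
  push_cast
  rw [hc, one_mul]

lemma measurePreserving_flip {m n : ℕ} (σ : ℝ) (F : Finset (Fin m)) :
    MeasurePreserving (flip (n := n) F) (noise m n σ) (noise m n σ) := by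
  unfold noise
  have h1 := measurePreserving_pi (fun _ : Fin m => Measure.pi fun _ : Fin n =>
    gaussianReal 0 (Real.toNNReal (σ ^ 2))) (fun _ : Fin m => Measure.pi fun _ : Fin n =>
    gaussianReal 0 (Real.toNNReal (σ ^ 2))) (f := fun i (x : Fin n → ℝ) j => sgn F i * x j)
    fun i => measurePreserving_pi _ _ fun j => measurePreserving_sgn (sgn_sq F i) _
  have h2 := measurePreserving_pi (fun _ : Fin m => gaussianReal 0 (Real.toNNReal (σ ^ 2)))
    (fun _ : Fin m => gaussianReal 0 (Real.toNNReal (σ ^ 2))) (f := fun i (x : ℝ) => sgn F i * x)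
    fun i => measurePreserving_sgn (sgn_sq F i) _
  exact h1.prod h2

open Classical in
/-- the sign patterns of the cells of an arrangement of `m` hyperplanes in `ℝⁿ` -/
noncomputable def cells {m n : ℕ} (ω : Data m n) : Finset (Finset (Fin m)) :=
  univ.filter fun F => flip F ω ∈ strictFeas m n

lemma card_cells_le {m n : ℕ} (ω : Data m n) :
    (cells ω).card ≤ ∑ k ∈ range (n + 1), m.choose k := by
  classical
  have hvc : (cells ω).vcDim ≤ n := by
    unfold Finset.vcDim
    apply Finset.sup_le
    intro s hs
    rw [mem_shatterer] at hs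
    by_contra hlt
    push Not at hlt
    -- a linear dependency
    set M : Matrix (Fin n) s ℝ := Matrix.of fun a i => ω.1 i a with hM
    have hker : M.mulVecLin.ker ≠ ⊥ := by
      apply LinearMap.ker_ne_bot_of_finrank_lt
      rw [Module.finrank_fintype_fun_eq_card, Module.finrank_fintype_fun_eq_card]
      simpa using hlt
    obtain ⟨l, hlmem, hl0⟩ := Submodule.exists_mem_ne_zero_of_ne_bot hker
    have hlker : ∀ a, ∑ i : s, l i * ω.1 i a = 0 := by
      intro a
      have := congrFun (LinearMap.mem_ker.1 hlmem) a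
      simp only [Matrix.mulVecLin_apply, Matrix.mulVec, dotProduct, hM, Matrix.of_apply,
        Pi.zero_apply] at this
      rw [← this]
      exact Finset.sum_congr rfl fun i _ => mul_comm _ _
    -- both signs
    have key : ∀ l : s → ℝ, l ≠ 0 → (∀ a, ∑ i : s, l i * ω.1 i a = 0) →
        ∑ i : s, l i * ω.2 i < 0 := by
      intro l hl0 hlker
      obtain ⟨F, hF, hFs⟩ := hs (t := s.filter fun i => ∃ h : i ∈ s, 0 < l ⟨i, h⟩)
        (filter_subset _ _)
      rw [cells, mem_filter] at hF
      obtain ⟨x, hx⟩ := hF.2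
      have hterm : ∀ i : s, 0 ≤ l i * ((∑ j, ω.1 i j * x j) - ω.2 i) ∧
          (l i ≠ 0 → 0 < l i * ((∑ j, ω.1 i j * x j) - ω.2 i)) := by
        intro i
        have hxi := hx i
        simp only [flip] at hxi
        have hsum : ∑ j, sgn F i * ω.1 i j * x j = sgn F i * ∑ j, ω.1 i j * x j := by
          rw [Finset.mul_sum]
          exact Finset.sum_congr rfl fun j _ => by ring
        rw [hsum] at hxi
        have hmem : (i : Fin m) ∈ F ↔ 0 < l i := by
          have h1 : (i : Fin m) ∈ s ∩ F ↔ (i : Fin m) ∈ s.filter fun i => ∃ h : i ∈ s, 0 < l ⟨i, h⟩ := by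
            rw [hFs]
          rw [mem_inter, mem_filter] at h1
          constructor
          · intro h
            obtain ⟨-, h2⟩ := h1.1 ⟨i.2, h⟩
            obtain ⟨_, h3⟩ := h2
            exact h3
          · intro h
            exact (h1.2 ⟨i.2, ⟨i.2, h⟩⟩).2
        by_cases hi : (i : Fin m) ∈ F
        · have hli := hmem.1 hi
          simp only [sgn, if_pos hi] at hxi
          have : 0 < (∑ j, ω.1 i j * x j) - ω.2 i := by linarith
          exact ⟨(mul_pos hli this).le, fun _ => mul_pos hli this⟩
        · have hli : l i ≤ 0 := not_lt.1 fun h => hi (hmem.2 h)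
          simp only [sgn, if_neg hi] at hxi
          have : (∑ j, ω.1 i j * x j) - ω.2 i < 0 := by linarith
          exact ⟨mul_nonneg_of_nonpos_of_nonpos hli this.le,
            fun h => mul_pos_of_neg_of_neg (lt_of_le_of_ne hli h) this⟩
      obtain ⟨i₀, hi₀⟩ := Function.ne_iff.1 hl0
      have hpos : 0 < ∑ i : s, l i * ((∑ j, ω.1 i j * x j) - ω.2 i) :=
        Finset.sum_pos' (fun i _ => (hterm i).1) ⟨i₀, mem_univ _, (hterm i₀).2 hi₀⟩
      have hzero : ∑ i : s, l i * ∑ j, ω.1 i j * x j = 0 := by
        calc ∑ i : s, l i * ∑ j, ω.1 i j * x j = ∑ i : s, ∑ j, x j * (l i * ω.1 i j) := by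
              refine Finset.sum_congr rfl fun i _ => ?_
              rw [Finset.mul_sum]
              exact Finset.sum_congr rfl fun j _ => by ring
          _ = ∑ j, x j * ∑ i : s, l i * ω.1 i j := by
              rw [Finset.sum_comm]
              exact Finset.sum_congr rfl fun j _ => by rw [Finset.mul_sum]
          _ = 0 := by
              refine Finset.sum_eq_zero fun j _ => ?_
              rw [hlker j, mul_zero]
      simp only [mul_sub, Finset.sum_sub_distrib, hzero] at hpos
      linarith
    have h1 := key l hl0 hlker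
    have h2 := key (-l) (neg_ne_zero.2 hl0) fun a => by
      simp only [Pi.neg_apply, neg_mul, Finset.sum_neg_distrib, hlker a, neg_zero]
    simp only [Pi.neg_apply, neg_mul, Finset.sum_neg_distrib] at h2
    linarith
  calc (cells ω).card ≤ (cells ω).shatterer.card := card_le_card_shatterer _
    _ ≤ ∑ k ∈ Iic (cells ω).vcDim, (Fintype.card (Fin m)).choose k := card_shatterer_le_sum_vcDim
    _ ≤ ∑ k ∈ range (n + 1), m.choose k := by
        rw [Fintype.card_fin]
        apply Finset.sum_le_sum_of_subset
        intro k hk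
        rw [mem_Iic] at hk
        rw [mem_range]
        omega

/-- the probability that a centred system is strictly feasible -/
lemma centred_le (m n : ℕ) (σ : ℝ) :
    2 ^ m * noise m n σ (strictFeas m n) ≤ (∑ k ∈ range (n + 1), m.choose k : ℕ) := by
  classical
  have hprob : IsProbabilityMeasure (noise m n σ) := by unfold noise; infer_instance
  have hS : MeasurableSet (strictFeas m n) := (isOpen_strictFeas m n).measurableSet
  have h1 : ∀ F : Finset (Fin m), noise m n σ (strictFeas m n) =
      ∫⁻ ω, (strictFeas m n).indicator 1 (flip F ω) ∂(noise m n σ) := by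
    intro F
    rw [(measurePreserving_flip σ F).lintegral_comp (measurable_one.indicator hS),
      lintegral_indicator_one hS]
  have h2 : (2 : ℝ≥0∞) ^ m * noise m n σ (strictFeas m n) =
      ∑ F : Finset (Fin m), ∫⁻ ω, (strictFeas m n).indicator 1 (flip F ω) ∂(noise m n σ) := by
    rw [Finset.sum_congr rfl fun F _ => (h1 F).symm, Finset.sum_const, card_univ,
      Fintype.card_finset, Fintype.card_fin, nsmul_eq_mul]
    push_cast
    rfl
  have h3 : ∑ F : Finset (Fin m), ∫⁻ ω, (strictFeas m n).indicator 1 (flip F ω) ∂(noise m n σ) =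
      ∫⁻ ω, ∑ F : Finset (Fin m), (strictFeas m n).indicator (1 : Data m n → ℝ≥0∞) (flip F ω)
        ∂(noise m n σ) := by
    rw [lintegral_finsetSum]
    intro F _
    exact (measurable_one.indicator hS).comp (measurePreserving_flip σ F).measurable
  rw [h2, h3]
  calc ∫⁻ ω, ∑ F : Finset (Fin m), (strictFeas m n).indicator 1 (flip F ω) ∂(noise m n σ)
      ≤ ∫⁻ _ω, ((∑ k ∈ range (n + 1), m.choose k : ℕ) : ℝ≥0∞) ∂(noise m n σ) := by
        apply lintegral_mono
        intro ω
        have : ∑ F : Finset (Fin m), (strictFeas m n).indicator (1 : Data m n → ℝ≥0∞) (flip F ω) =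
            ((cells ω).card : ℝ≥0∞) := by
          rw [cells, Finset.card_filter]
          push_cast
          exact Finset.sum_congr rfl fun F _ => by simp [Set.indicator_apply]
        simp only [this]
        exact_mod_cast card_cells_le ω
    _ = _ := by simp

end Run7.h302
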