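import Pool.Agent.Run7.h302.Defs
import Pool.Agent.Run7.h302.Dual

open Finset

namespace Run7.h302

variable {m n : ℕ}

/-- the active rows at `x` -/
noncomputable def actSet (A : Fin m → Fin n → ℝ) (b : Fin m → ℝ) (x : Fin n → ℝ) :
    Finset (Fin m) :=
  open Classical in univ.filter fun i => ∑ j, A i j * x j = b i

lemma mem_actSet {A : Fin m → Fin n → ℝ} {b : Fin m → ℝ} {x : Fin n → ℝ} {i : Fin m} :
    i ∈ actSet A b x ↔ ∑ j, A i j * x j = b i := by
  simp [actSet]

/-- no `n + 1` of the hyperplanes meet in a point determined by `n` of them -/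
def Nondeg (A : Fin m → Fin n → ℝ) (b : Fin m → ℝ) : Prop :=
  ∀ S, IsBasis A S → ∀ x : Fin n → ℝ, (∀ i ∈ S, ∑ j, A i j * x j = b i) →
    ∀ i ∉ S, ∑ j, A i j * x j ≠ b i

lemma row_add_smul (A : Fin m → Fin n → ℝ) (x h : Fin n → ℝ) (ε : ℝ) (i : Fin m) :
    ∑ j, A i j * (x + ε • h) j = ∑ j, A i j * x j + ε * ∑ j, A i j * h j := by
  rw [Finset.mul_sum, ← Finset.sum_add_distrib]
  refine Finset.sum_congr rfl fun j _ => ?_
  simp only [Pi.add_apply, Pi.smul_apply, smul_eq_mul]
  ring

/-- small moves along the kernel of the active rows stay feasible -/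
lemma exists_move {A : Fin m → Fin n → ℝ} {b : Fin m → ℝ} {x : Fin n → ℝ} (hx : x ∈ feas A b)
    {h : Fin n → ℝ} (hh : ∀ i ∈ actSet A b x, ∑ j, A i j * h j = 0) :
    ∃ ε : ℝ, 0 < ε ∧ x + ε • h ∈ feas A b ∧ x + (-ε) • h ∈ feas A b := by
  have hev : ∀ i, ∀ᶠ ε in nhdsWithin (0 : ℝ) (Set.Ioi 0),
      i ∉ actSet A b x → ε * |∑ j, A i j * h j| < b i - ∑ j, A i j * x j := by
    intro i
    by_cases hi : i ∈ actSet A b x
    · exact Filter.Eventually.of_forall fun ε h => absurd hi h
    · have hlt : 0 < b i - ∑ j, A i j * x j := by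
        have h1 := hx i
        have h2 : ∑ j, A i j * x j ≠ b i := fun h => hi (mem_actSet.2 h)
        have h3 := lt_of_le_of_ne h1 h2
        linarith
      have hc : Filter.Tendsto (fun ε : ℝ => ε * |∑ j, A i j * h j|) (nhds 0) (nhds 0) := by
        have : Continuous fun ε : ℝ => ε * |∑ j, A i j * h j| := by fun_prop
        have h3 := this.tendsto 0
        simpa using h3
      have h4 := hc.eventually (gt_mem_nhds hlt)
      exact (h4.filter_mono nhdsWithin_le_nhds).mono fun ε h _ => h
  have hall := (Filter.eventually_all.2 hev).and self_mem_nhdsWithin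
  obtain ⟨ε, hε, hεpos⟩ := hall.exists
  have hεpos' : 0 < ε := hεpos
  refine ⟨ε, hεpos', fun i => ?_, fun i => ?_⟩
  · rw [row_add_smul]
    by_cases hi : i ∈ actSet A b x
    · rw [hh i hi, mul_zero, add_zero]; exact hx i
    · have h1 := hε i hi
      have h2 : ε * ∑ j, A i j * h j ≤ ε * |∑ j, A i j * h j| :=
        mul_le_mul_of_nonneg_left (le_abs_self _) hεpos'.le
      linarith
  · rw [row_add_smul]
    by_cases hi : i ∈ actSet A b x
    · rw [hh i hi, mul_zero, add_zero]; exact hx i
    · have h1 := hε i hi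
      have h2 : ε * (-∑ j, A i j * h j) ≤ ε * |∑ j, A i j * h j| :=
        mul_le_mul_of_nonneg_left (neg_le_abs _) hεpos'.le
      linarith

lemma mem_openSegment_move (x h : Fin n → ℝ) (ε : ℝ) :
    x ∈ openSegment ℝ (x + ε • h) (x + (-ε) • h) := by
  refine ⟨1 / 2, 1 / 2, by norm_num, by norm_num, by norm_num, ?_⟩
  funext j
  simp only [Pi.add_apply, Pi.smul_apply, smul_eq_mul]
  ring

/-- at an extreme point the active rows have trivial kernel -/
lemma ker_act_trivial {A : Fin m → Fin n → ℝ} {b : Fin m → ℝ} {v : Fin n → ℝ}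
    (hv : v ∈ (feas A b).extremePoints ℝ) {h : Fin n → ℝ}
    (hh : ∀ i ∈ actSet A b v, ∑ j, A i j * h j = 0) : h = 0 := by
  obtain ⟨ε, hε, h1, h2⟩ := exists_move hv.1 hh
  have h3 := hv.2 h1 h2 (mem_openSegment_move v h ε)
  have h4 : ε • h = 0 := by
    have : v + ε • h = v + 0 := by rw [h3, add_zero]
    exact add_left_cancel this
  rcases smul_eq_zero.1 h4 with h5 | h5
  · exact absurd h5 hε.ne'
  · exact h5

/-- at an extreme point there is a basis among the active rows -/
lemma exists_basis_act {A : Fin m → Fin n → ℝ} {b : Fin m → ℝ} {v : Fin n → ℝ}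
    (hv : v ∈ (feas A b).extremePoints ℝ) : ∃ S ⊆ actSet A b v, IsBasis A S := by
  classical
  set T := actSet A b v with hT
  set M : Matrix T (Fin n) ℝ := Matrix.of fun i j => A i j with hM
  have hinj : Function.Injective M.mulVecLin := by
    rw [← LinearMap.ker_eq_bot, LinearMap.ker_eq_bot']
    intro h hh
    apply ker_act_trivial hv
    intro i hi
    have := congrFun hh ⟨i, hi⟩
    simpa [Matrix.mulVec, dotProduct, hM] using this
  have hrank : M.rank = n := by
    rw [Matrix.rank, LinearMap.finrank_range_of_inj hinj, Module.finrank_fintype_fun_eq_card,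
      Fintype.card_fin]
  rw [Matrix.rank_eq_finrank_span_row] at hrank
  have hspan : Submodule.span ℝ (Set.range M.row) = ⊤ := by
    apply Submodule.eq_top_of_finrank_eq
    rw [hrank, Module.finrank_fintype_fun_eq_card, Fintype.card_fin]
  obtain ⟨κ, a, ha, hsp, hli⟩ := exists_linearIndependent' ℝ M.row
  rw [hspan] at hsp
  have : Finite κ := Finite.of_injective a ha
  have : Fintype κ := Fintype.ofFinite κ
  have hcard : Fintype.card κ = n := by
    have h1 := finrank_span_eq_card hli
    rw [hsp, finrank_top, Module.finrank_fintype_fun_eq_card, Fintype.card_fin] at h1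
    exact h1.symm
  set f : κ → Fin m := fun k => (a k : Fin m) with hf
  have hfinj : Function.Injective f := fun k k' h => ha (Subtype.ext h)
  refine ⟨univ.image f, ?_, ?_, ?_⟩
  · intro i hi
    obtain ⟨k, -, rfl⟩ := mem_image.1 hi
    exact (a k).2
  · rw [card_image_of_injective _ hfinj, card_univ, hcard]
  · let e : κ ≃ (univ.image f : Finset (Fin m)) := Equiv.ofBijective
      (fun k => ⟨f k, mem_image_of_mem f (mem_univ k)⟩)
        ⟨fun k k' h => hfinj (congrArg (fun x : (univ.image f : Finset (Fin m)) => (x : Fin m)) h),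
        fun ⟨i, hi⟩ => by
          obtain ⟨k, -, hk⟩ := mem_image.1 hi
          exact ⟨k, Subtype.ext hk⟩⟩
    rw [← linearIndependent_equiv e]
    exact hli

lemma act_isBasis {A : Fin m → Fin n → ℝ} {b : Fin m → ℝ} (hnd : Nondeg A b) {v : Fin n → ℝ}
    (hv : v ∈ (feas A b).extremePoints ℝ) : IsBasis A (actSet A b v) := by
  obtain ⟨S, hS, hSb⟩ := exists_basis_act hv
  have : actSet A b v = S := by
    apply Finset.Subset.antisymm _ hS
    intro i hi
    by_contra hiS
    exact hnd S hSb v (fun k hk => mem_actSet.1 (hS hk)) i hiS (mem_actSet.1 hi)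
  rw [this]
  exact hSb

/-- a vertex is determined by its active rows -/
lemma eq_of_act_eq {A : Fin m → Fin n → ℝ} {b : Fin m → ℝ} {v w : Fin n → ℝ}
    (hv : v ∈ (feas A b).extremePoints ℝ) (h : actSet A b v ⊆ actSet A b w) : v = w := by
  have h1 : w - v = 0 := by
    apply ker_act_trivial hv
    intro i hi
    have h2 := mem_actSet.1 hi
    have h3 := mem_actSet.1 (h hi)
    simp only [Pi.sub_apply, mul_sub, Finset.sum_sub_distrib]
    rw [h2, h3, sub_self]
  exact (sub_eq_zero.1 h1).symm

/-- neighbouring vertices have bases differing by one exchange -/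
lemma neighbour_exchange {A : Fin m → Fin n → ℝ} {b : Fin m → ℝ} (hnd : Nondeg A b)
    {v w : Fin n → ℝ} (h : Neighbour (feas A b) v w) :
    ∃ i j, actSet A b w = insert j ((actSet A b v).erase i) := by
  classical
  obtain ⟨hne, hv, hw, hE⟩ := h
  set S := actSet A b v with hS
  set T := actSet A b w with hT
  have hScard := (act_isBasis hnd hv).1
  have hTcard := (act_isBasis hnd hw).1
  rw [← hS] at hScard
  rw [← hT] at hTcard
  -- the midpoint
  set u : Fin n → ℝ := (1 / 2 : ℝ) • v + (1 / 2 : ℝ) • w with hu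
  have huseg : u ∈ segment ℝ v w := ⟨1 / 2, 1 / 2, by norm_num, by norm_num, by norm_num, rfl⟩
  have huP : u ∈ feas A b := hE.1 huseg
  have hrow : ∀ i, ∑ j, A i j * u j = (1 / 2) * ∑ j, A i j * v j + (1 / 2) * ∑ j, A i j * w j := by
    intro i
    rw [Finset.mul_sum, Finset.mul_sum, ← Finset.sum_add_distrib]
    refine Finset.sum_congr rfl fun j _ => ?_
    simp only [hu, Pi.add_apply, Pi.smul_apply, smul_eq_mul]
    ring
  have hact : ∀ i ∈ actSet A b u, i ∈ S ∩ T := by
    intro i hi
    have h1 := mem_actSet.1 hi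
    rw [hrow i] at h1
    have h2 := hv.1 i
    have h3 := hw.1 i
    rw [mem_inter, hS, hT, mem_actSet, mem_actSet]
    constructor <;> linarith
  -- the kernel of the common rows is one-dimensional
  have hcardle : n ≤ (S ∩ T).card + 1 := by
    set M : Matrix (S ∩ T : Finset (Fin m)) (Fin n) ℝ := Matrix.of fun i j => A i j with hM
    have hker : M.mulVecLin.ker ≤ Submodule.span ℝ {w - v} := by
      intro h hh
      have hh' : ∀ i ∈ actSet A b u, ∑ j, A i j * h j = 0 := by
        intro i hi
        have := congrFun (LinearMap.mem_ker.1 hh) ⟨i, hact i hi⟩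
        simpa [Matrix.mulVec, dotProduct, hM] using this
      obtain ⟨ε, hε, h1, h2⟩ := exists_move huP hh'
      have h3 := hE.2 h1 h2 huseg (mem_openSegment_move u h ε)
      obtain ⟨s, t, hs, ht, hst, heq⟩ := h3
      rw [Submodule.mem_span_singleton]
      refine ⟨(t - 1 / 2) / ε, ?_⟩
      funext j
      have h4 := congrFun heq j
      simp only [hu, Pi.add_apply, Pi.smul_apply, smul_eq_mul] at h4
      simp only [Pi.smul_apply, Pi.sub_apply, smul_eq_mul]
      have hs' : s = 1 - t := by linarith
      rw [hs'] at h4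
      field_simp
      linarith
    have h1 : Module.finrank ℝ M.mulVecLin.ker ≤ 1 := by
      refine (Submodule.finrank_mono hker).trans ?_
      refine (finrank_span_le_card ({w - v} : Set (Fin n → ℝ))).trans ?_
      simp
    have h2 := LinearMap.finrank_range_add_finrank_ker M.mulVecLin
    have h3 : Module.finrank ℝ M.mulVecLin.range ≤ (S ∩ T).card := by
      refine (Submodule.finrank_le _).trans ?_
      rw [Module.finrank_fintype_fun_eq_card, Fintype.card_coe]
    rw [Module.finrank_fintype_fun_eq_card, Fintype.card_fin] at h2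
    omega
  have hSne : S ≠ T := by
    intro heq
    exact hne (eq_of_act_eq hv (by rw [← hS, ← hT, heq]))
  have h1 : (S \ T).card + (S ∩ T).card = S.card := Finset.card_sdiff_add_card_inter S T
  have h2 : (T \ S).card + (T ∩ S).card = T.card := Finset.card_sdiff_add_card_inter T S
  rw [Finset.inter_comm T S] at h2
  have h3 : (S ∩ T).card ≠ n := by
    intro h4
    apply hSne
    have h5 : S ∩ T = S := Finset.eq_of_subset_of_card_le inter_subset_left (by omega)
    have h6 : S ∩ T = T := Finset.eq_of_subset_of_card_le inter_subset_right (by omega)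
    rw [← h5]; exact h6
  have h4 : (S \ T).card = 1 := by omega
  have h5 : (T \ S).card = 1 := by omega
  obtain ⟨i, hi⟩ := card_eq_one.1 h4
  obtain ⟨j, hj⟩ := card_eq_one.1 h5
  refine ⟨i, j, ?_⟩
  ext k
  have hik : k ∈ S \ T ↔ k = i := by rw [hi, mem_singleton]
  have hjk : k ∈ T \ S ↔ k = j := by rw [hj, mem_singleton]
  rw [mem_sdiff] at hik hjk
  rw [mem_insert, mem_erase]
  constructor
  · intro hk
    by_cases hkS : k ∈ S
    · refine Or.inr ⟨fun h => ?_, hkS⟩
      exact (hik.2 h).2 hk
    · exact Or.inl (hjk.1 ⟨hk, hkS⟩)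
  · rintro (hk | ⟨hk1, hk2⟩)
    · exact (hjk.2 hk).1
    · by_contra hkT
      exact hk1 (hik.1 ⟨hk2, hkT⟩)

end Run7.h302
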