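import Pool.Agent.Run7.h302.BadA

open MeasureTheory ProbabilityTheory Finset
open scoped ENNReal

namespace Run7.h302

/-- the bound for good instances -/
noncomputable def goodLen (m K d Λ : ℕ) (ε : ℝ) : ℕ :=
  (m + 1) ^ (2 * (K - 1) + d) * (2 * ((Λ + 1) * (⌊2 / ε⌋₊ + 1)))

open Classical in
lemma inner_integral {m n : ℕ} (hn : 0 < n) {σ t θ Y ε : ℝ} (hσ : 0 < σ) (ht : 0 ≤ t)
    (hθ0 : 0 < θ) (hθ1 : θ < 1) (hε : 0 < ε) (hY : 0 < Y) {K d Λ : ℕ} (hK : 0 < K)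
    (hΛ : n * Y * (1 + σ * t) < 2 ^ (Λ + 1))
    {A₀ : Fin m → Fin n → ℝ} {b₀ : Fin m → ℝ}
    (hF : (∑ i, ∑ j, A₀ i j ^ 2) + ∑ i, b₀ i ^ 2 ≤ 1) {c : Fin n → ℝ} (hc1 : ∃ j, |c j| = 1)
    (hc : ∀ j, |c j| ≤ 1) {c₂ : Fin n → ℝ} (hcc : ∀ P v w, Improving P c₂ v w → Improving P c v w)
    (R : Rule) (z : Fin n → ℝ) (G : Fin m → Fin n → ℝ) :
    ∫⁻ g, pivots R (feas (A₀ + G) (b₀ + g)) c₂ z ∂(noiseB m σ) ≤
      (if G ∈ badA A₀ c d σ t θ Y then (m.choose n : ℝ≥0∞) else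
        goodLen m K d Λ ε + m.choose n * noiseB m σ (badB (A₀ + G) b₀ c K d Λ σ t θ ε)) := by
  have hchoose : ∀ᵐ g ∂(noiseB m σ), pivots R (feas (A₀ + G) (b₀ + g)) c₂ z ≤ (m.choose n : ℝ≥0∞) := by
    filter_upwards [ae_nondeg hσ (A₀ + G) b₀] with g hg
    apply pivots_le
    intro v k p _ hp
    exact path_le_choose hg hp
  split_ifs with hG
  · calc ∫⁻ g, pivots R (feas (A₀ + G) (b₀ + g)) c₂ z ∂(noiseB m σ)
        ≤ ∫⁻ _g, (m.choose n : ℝ≥0∞) ∂(noiseB m σ) := lintegral_mono_ae hchoose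
      _ = (m.choose n : ℝ≥0∞) := by simp
  · set E := toMeasurable (noiseB m σ) (badB (A₀ + G) b₀ c K d Λ σ t θ ε) with hE
    have hEm : MeasurableSet E := measurableSet_toMeasurable _ _
    have hle : ∀ᵐ g ∂(noiseB m σ), pivots R (feas (A₀ + G) (b₀ + g)) c₂ z ≤
        goodLen m K d Λ ε + E.indicator (fun _ => (m.choose n : ℝ≥0∞)) g := by
      filter_upwards [ae_nondeg hσ (A₀ + G) b₀, hchoose] with g hg hg2
      by_cases hgE : g ∈ E
      · rw [Set.indicator_of_mem hgE]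
        exact hg2.trans le_add_self
      · have hgb : g ∉ badB (A₀ + G) b₀ c K d Λ σ t θ ε := fun h =>
          hgE (subset_toMeasurable _ _ h)
        have hgood := good_of_not_bad hF hc1 hc hY hθ0.le hθ1 hΛ hG hgb hg
        rw [Set.indicator_of_notMem hgE, add_zero]
        apply pivots_le
        intro v k p _ hp
        have h1 := good_pathBound hn (by positivity) hθ0 hε hK hgood fun t ht => hcc _ _ _ (hp t ht)
        rw [goodLen]
        omega
    calc ∫⁻ g, pivots R (feas (A₀ + G) (b₀ + g)) c₂ z ∂(noiseB m σ)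
        ≤ ∫⁻ g, (goodLen m K d Λ ε + E.indicator (fun _ => (m.choose n : ℝ≥0∞)) g)
            ∂(noiseB m σ) := lintegral_mono_ae hle
      _ = goodLen m K d Λ ε + m.choose n * noiseB m σ E := by
          rw [lintegral_add_left measurable_const, lintegral_indicator hEm]
          simp
      _ = _ := by rw [hE, measure_toMeasurable]

lemma integral_bound {m n : ℕ} (hn : 0 < n) {σ t θ Y ε : ℝ} (hσ : 0 < σ) (ht : 0 ≤ t)
    (hθ0 : 0 < θ) (hθ1 : θ < 1) (hε : 0 < ε) (hY : 0 < Y) {K d Λ : ℕ} (hK : 0 < K)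
    (hΛ : n * Y * (1 + σ * t) < 2 ^ (Λ + 1))
    {A₀ : Fin m → Fin n → ℝ} {b₀ : Fin m → ℝ}
    (hF : (∑ i, ∑ j, A₀ i j ^ 2) + ∑ i, b₀ i ^ 2 ≤ 1) {c : Fin n → ℝ} (hc1 : ∃ j, |c j| = 1)
    (hc : ∀ j, |c j| ≤ 1) {c₂ : Fin n → ℝ} (hcc : ∀ P v w, Improving P c₂ v w → Improving P c v w)
    (R : Rule) (z : Fin n → ℝ) {pA pB : ℝ≥0∞}
    (hpA : noiseA m n σ (badA A₀ c d σ t θ Y) ≤ pA)
    (hpB : ∀ G, noiseB m σ (badB (A₀ + G) b₀ c K d Λ σ t θ ε) ≤ pB) :
    ∫⁻ ω, pivots R (feas (A₀ + ω.1) (b₀ + ω.2)) c₂ z ∂(noise m n σ) ≤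
      goodLen m K d Λ ε + m.choose n * pB + m.choose n * pA := by
  classical
  set E := toMeasurable (noiseA m n σ) (badA A₀ c d σ t θ Y) with hE
  have hEm : MeasurableSet E := measurableSet_toMeasurable _ _
  calc ∫⁻ ω, pivots R (feas (A₀ + ω.1) (b₀ + ω.2)) c₂ z ∂(noise m n σ)
      ≤ ∫⁻ G, ∫⁻ g, pivots R (feas (A₀ + G) (b₀ + g)) c₂ z ∂(noiseB m σ) ∂(noiseA m n σ) :=
        lintegral_prod_le _
    _ ≤ ∫⁻ G, ((goodLen m K d Λ ε + m.choose n * pB) +
          E.indicator (fun _ => (m.choose n : ℝ≥0∞)) G) ∂(noiseA m n σ) := by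
        apply lintegral_mono
        intro G
        refine (inner_integral (d := d) hn hσ ht hθ0 hθ1 hε hY hK hΛ hF hc1 hc hcc R z G).trans ?_
        simp only
        split_ifs with hG
        · rw [Set.indicator_of_mem (show G ∈ E from subset_toMeasurable _ _ hG)]
          exact le_add_self
        · refine le_trans ?_ le_self_add
          gcongr
          exact hpB G
    _ = goodLen m K d Λ ε + m.choose n * pB + m.choose n * noiseA m n σ E := by
        rw [lintegral_add_left measurable_const, lintegral_indicator hEm]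
        simp
    _ ≤ _ := by
        rw [hE, measure_toMeasurable]
        gcongr

end Run7.h302
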