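import Mathlib

/-! Real inequalities for the choice of the parameters. -/

namespace Run7.h302

lemma choose_le_pow_min {m n : ℕ} (h : n ≤ m) : m.choose n ≤ (m + 1) ^ (min n (m - n)) := by
  rcases le_total n (m - n) with h1 | h1
  · rw [min_eq_left h1]
    exact (Nat.choose_le_pow m n).trans (Nat.pow_le_pow_left (by omega) _)
  · rw [min_eq_right h1, ← Nat.choose_symm h]
    exact (Nat.choose_le_pow m (m - n)).trans (Nat.pow_le_pow_left (by omega) _)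

lemma two_exp_le {q : ℝ} (hq : 1 ≤ q) (N : ℕ) :
    2 * Real.exp (1 / 2 - (2 + N * Real.log q)) ≤ 1 / q ^ N := by
  have hq0 : 0 < q := by linarith
  have h1 : Real.exp (1 / 2 - (2 + N * Real.log q)) = Real.exp (-(3 / 2)) / q ^ N := by
    have : (1 / 2 - (2 + N * Real.log q) : ℝ) = -(3 / 2) - N * Real.log q := by ring
    rw [this, Real.exp_sub, Real.exp_nat_mul, Real.exp_log hq0]
  rw [h1, ← mul_div_assoc]
  apply div_le_div_of_nonneg_right _ (by positivity)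
  have h2 : (2 : ℝ) ≤ Real.exp (3 / 2) := by
    have := Real.add_one_le_exp (3 / 2 : ℝ)
    linarith
  rw [Real.exp_neg]
  have h3 : 0 < Real.exp (3 / 2) := Real.exp_pos _
  rw [← div_eq_mul_inv, div_le_one h3]
  exact h2

/-- the final numerical estimate -/
lemma final_numeric {q u σ t H θ ε : ℝ} {n ν s Λ F : ℕ} (hq : 2 ≤ q) (hσ : 0 < σ)
    (hu : u = 1 + 1 / σ) (hn : (n : ℝ) ≤ q) (hn0 : 0 < n) (hν : (ν : ℝ) ≤ q - 1)
    (hs : (s : ℝ) + 1 ≤ q) (ht : t = 2 + (ν + 2 : ℕ) * Real.log q) (hH : H = 1 + σ * t)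
    (hθ : θ = σ / (n * (s + 1) * H * q ^ (2 * s + 3)))
    (hε : ε = σ * θ / (2 * n * H * q ^ (4 * s + 4)))
    (hΛ : (Λ : ℝ) + 1 ≤ (2 * ν + 6) * q + u + 1) (hF : (F : ℝ) ≤ 2 / ε) :
    q ^ (3 * s) * (2 * ((Λ + 1) * (F + 1))) + Λ + 5 ≤ u ^ 3 * q ^ (9 * s + 27) := by
  have hq0 : 0 < q := by linarith
  have hlog0 : 0 ≤ Real.log q := Real.log_nonneg (by linarith)
  have hu1 : 1 ≤ u := by
    rw [hu]
    have : 0 ≤ 1 / σ := by positivity
    linarith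
  have ht0 : 0 < t := by rw [ht]; positivity
  have hn1 : (0 : ℝ) < n := by exact_mod_cast hn0
  have hHpos : 0 < H := by rw [hH]; positivity
  -- `t ≤ q ^ 3`
  have hlog : Real.log q ≤ q - 1 := Real.log_le_sub_one_of_pos hq0
  have ht3 : t ≤ q ^ 3 := by
    have h1 : ((ν + 2 : ℕ) : ℝ) ≤ q + 1 := by push_cast; linarith
    have h2 : ((ν + 2 : ℕ) : ℝ) * Real.log q ≤ (q + 1) * (q - 1) :=
      mul_le_mul h1 hlog hlog0 (by linarith)
    rw [ht]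
    nlinarith [mul_pos hq0 hq0]
  have hHσ : H / σ ≤ q ^ 3 * u := by
    have h1 : H / σ = 1 / σ + t := by rw [hH]; field_simp
    have h2 : (1 : ℝ) ≤ q ^ 3 := one_le_pow₀ (by linarith)
    have h3 : 0 ≤ 1 / σ := by positivity
    rw [h1, hu]
    nlinarith
  have hHσ0 : 0 < H / σ := by positivity
  -- `2 / ε`
  have h2ε : 2 / ε = 4 * (n ^ 2 * (s + 1)) * (H / σ) ^ 2 * q ^ (6 * s + 7) := by
    rw [hε, hθ]
    have hs1 : (0 : ℝ) < s + 1 := by positivity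
    field_simp
    ring
  have h2ε' : 2 / ε ≤ 4 * (q ^ (6 * s + 16) * u ^ 2) := by
    rw [h2ε]
    have h1 : (n : ℝ) ^ 2 * (s + 1) ≤ q ^ 2 * q := by
      apply mul_le_mul _ hs (by positivity) (by positivity)
      exact pow_le_pow_left₀ hn1.le hn 2
    have h2 : (H / σ) ^ 2 ≤ (q ^ 3 * u) ^ 2 := pow_le_pow_left₀ hHσ0.le hHσ 2
    calc 4 * ((n : ℝ) ^ 2 * (s + 1)) * (H / σ) ^ 2 * q ^ (6 * s + 7)
        ≤ 4 * (q ^ 2 * q) * (q ^ 3 * u) ^ 2 * q ^ (6 * s + 7) := by gcongr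
      _ = 4 * (q ^ (6 * s + 16) * u ^ 2) := by ring
  have hu2 : (1 : ℝ) ≤ u ^ 2 := one_le_pow₀ hu1
  have hF1 : (F : ℝ) + 1 ≤ q ^ (6 * s + 19) * u ^ 2 := by
    have h1 : (1 : ℝ) ≤ q ^ (6 * s + 16) * u ^ 2 := by
      have : (1 : ℝ) ≤ q ^ (6 * s + 16) := one_le_pow₀ (by linarith)
      nlinarith
    have h2 : (8 : ℝ) ≤ q ^ 3 := by
      have : (2 : ℝ) ^ 3 ≤ q ^ 3 := pow_le_pow_left₀ (by norm_num) hq 3
      linarith
    calc (F : ℝ) + 1 ≤ 4 * (q ^ (6 * s + 16) * u ^ 2) + q ^ (6 * s + 16) * u ^ 2 := by linarith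
      _ = 5 * (q ^ (6 * s + 16) * u ^ 2) := by ring
      _ ≤ q ^ 3 * (q ^ (6 * s + 16) * u ^ 2) := by
          apply mul_le_mul_of_nonneg_right _ (by positivity)
          linarith
      _ = q ^ (6 * s + 19) * u ^ 2 := by ring
  have hΛ1 : (Λ : ℝ) + 1 ≤ q ^ 5 * u := by
    have h1 : (Λ : ℝ) + 1 ≤ (2 * q ^ 2 + 4 * q + 2) * u := by
      have h2 : (2 * (ν : ℝ) + 6) * q ≤ (2 * q + 4) * q := by
        apply mul_le_mul_of_nonneg_right _ hq0.le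
        linarith
      have h3 : (2 * q + 4) * q ≤ (2 * q ^ 2 + 4 * q) * u := by
        have : (2 * q + 4) * q = 2 * q ^ 2 + 4 * q := by ring
        rw [this]
        have h4 : 0 ≤ 2 * q ^ 2 + 4 * q := by positivity
        nlinarith
      nlinarith
    have h4 : 2 * q ^ 2 + 4 * q + 2 ≤ q ^ 5 := by
      have h5 : (8 : ℝ) ≤ q ^ 3 := by
        have : (2 : ℝ) ^ 3 ≤ q ^ 3 := pow_le_pow_left₀ (by norm_num) hq 3
        linarith
      have h6 : q ^ 5 = q ^ 3 * q ^ 2 := by ring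
      rw [h6]
      have h7 : 8 * q ^ 2 ≤ q ^ 3 * q ^ 2 := mul_le_mul_of_nonneg_right h5 (by positivity)
      nlinarith
    calc (Λ : ℝ) + 1 ≤ (2 * q ^ 2 + 4 * q + 2) * u := h1
      _ ≤ q ^ 5 * u := mul_le_mul_of_nonneg_right h4 (by linarith)
  set X := q ^ (9 * s + 25) * u ^ 3 with hX
  have hmain : q ^ (3 * s) * (2 * ((Λ + 1) * (F + 1))) ≤ X := by
    calc q ^ (3 * s) * (2 * (((Λ : ℝ) + 1) * (F + 1)))
        ≤ q ^ (3 * s) * (q * ((q ^ 5 * u) * (q ^ (6 * s + 19) * u ^ 2))) := by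
          gcongr
      _ = X := by rw [hX]; ring
  have hu3 : (1 : ℝ) ≤ u ^ 3 := one_le_pow₀ hu1
  have hΛX : (Λ : ℝ) + 1 ≤ X := by
    refine hΛ1.trans ?_
    rw [hX]
    apply mul_le_mul _ _ (by linarith) (by positivity)
    · exact pow_le_pow_right₀ (by linarith) (by omega)
    · calc u = u ^ 1 := (pow_one u).symm
        _ ≤ u ^ 3 := pow_le_pow_right₀ hu1 (by norm_num)
  have h4X : (4 : ℝ) ≤ X := by
    have h1 : (2 : ℝ) ^ 2 ≤ q ^ (9 * s + 25) := by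
      calc (2 : ℝ) ^ 2 ≤ q ^ 2 := pow_le_pow_left₀ (by norm_num) hq 2
        _ ≤ q ^ (9 * s + 25) := pow_le_pow_right₀ (by linarith) (by omega)
    rw [hX]
    nlinarith
  have hfin : 3 * X ≤ u ^ 3 * q ^ (9 * s + 27) := by
    have h1 : u ^ 3 * q ^ (9 * s + 27) = q ^ 2 * X := by rw [hX]; ring
    rw [h1]
    have h2 : (4 : ℝ) ≤ q ^ 2 := by nlinarith
    nlinarith
  linarith

end Run7.h302
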