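import Pool.Agent.Run7.h302.Integral
import Pool.Agent.Run7.h302.Numeric

open MeasureTheory ProbabilityTheory Finset
open scoped ENNReal

namespace Run7.h302

/-- the bound, for a normalised objective -/
lemma main_normalised {m n : ℕ} (hn : 0 < n) (hnm : n ≤ m) {σ : ℝ} (hσ : 0 < σ)
    {A₀ : Fin m → Fin n → ℝ} {b₀ : Fin m → ℝ}
    (hF : (∑ i, ∑ j, A₀ i j ^ 2) + ∑ i, b₀ i ^ 2 ≤ 1) {c : Fin n → ℝ} (hc1 : ∃ j, |c j| = 1)
    (hc : ∀ j, |c j| ≤ 1) {c₂ : Fin n → ℝ} (hcc : ∀ P v w, Improving P c₂ v w → Improving P c v w)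
    (R : Rule) (z : Fin n → ℝ) {ν : ℕ} (hνm : ν ≤ m) (hνc : m.choose n ≤ (m + 1) ^ ν) :
    ∫⁻ ω, pivots R (feas (A₀ + ω.1) (b₀ + ω.2)) c₂ z ∂(noise m n σ) ≤
      ENNReal.ofReal ((1 + 1 / σ) ^ 3 *
        (m + 1 : ℝ) ^ (9 * Nat.sqrt ν + 27)) := by
  -- parameters
  set s := Nat.sqrt ν with hs
  set q : ℝ := m + 1 with hq
  have hm1 : (1 : ℝ) ≤ m := by
    have : 1 ≤ m := by omega
    exact_mod_cast this
  have hq2 : 2 ≤ q := by rw [hq]; linarith
  have hq0 : 0 < q := by linarith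
  have hq1 : 1 ≤ q := by linarith
  have hn1 : (0 : ℝ) < n := by exact_mod_cast hn
  have hnq : (n : ℝ) ≤ q := by
    have : (n : ℝ) ≤ m := by exact_mod_cast hnm
    rw [hq]; linarith
  have hνq : (ν : ℝ) ≤ q - 1 := by
    have : (ν : ℝ) ≤ m := by exact_mod_cast hνm
    rw [hq]; linarith
  have hs1 : s * s ≤ ν := Nat.sqrt_le ν
  have hs2 : ν + 1 ≤ (s + 1) * (s + 1) := Nat.lt_succ_sqrt ν
  have hsq : (s : ℝ) + 1 ≤ q := by
    have : s ≤ m := by nlinarith
    have : (s : ℝ) ≤ m := by exact_mod_cast this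
    rw [hq]; linarith
  set t : ℝ := 2 + (ν + 2 : ℕ) * Real.log q with ht
  have hlog0 : 0 ≤ Real.log q := Real.log_nonneg hq1
  have ht0 : 0 < t := by rw [ht]; positivity
  set H : ℝ := 1 + σ * t with hH
  have hH1 : 1 ≤ H := by rw [hH]; have : 0 < σ * t := by positivity
                         linarith
  have hH0 : 0 < H := by linarith
  have hσH : σ < H := by
    rw [hH]
    have : 2 ≤ t := by
      rw [ht]
      have : 0 ≤ ((ν + 2 : ℕ) : ℝ) * Real.log q := by positivity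
      linarith
    nlinarith
  set θ : ℝ := σ / (n * (s + 1) * H * q ^ (2 * s + 3)) with hθ
  have hs1' : (0 : ℝ) < s + 1 := by positivity
  have hθ0 : 0 < θ := by rw [hθ]; positivity
  have hθ1 : θ < 1 := by
    rw [hθ, div_lt_one (by positivity)]
    have h1 : (1 : ℝ) ≤ n := by exact_mod_cast hn
    have h2 : (1 : ℝ) ≤ s + 1 := by
      have : (0 : ℝ) ≤ s := by positivity
      linarith
    have h3 : (1 : ℝ) ≤ q ^ (2 * s + 3) := one_le_pow₀ hq1
    calc σ < H := hσH
      _ = 1 * 1 * H * 1 := by ring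
      _ ≤ n * (s + 1) * H * q ^ (2 * s + 3) := by gcongr
  set ε : ℝ := σ * θ / (2 * n * H * q ^ (4 * s + 4)) with hε
  have hε0 : 0 < ε := by rw [hε]; positivity
  set Y : ℝ := n * q ^ (2 * ν + 1) / σ with hY
  have hY0 : 0 < Y := by rw [hY]; positivity
  set u : ℝ := 1 + 1 / σ with hu
  set Λ : ℕ := (2 * ν + 6) * (m + 1) + ⌈1 / σ⌉₊ with hΛ
  -- the number of bases
  set M : ℝ := (m.choose n : ℝ) with hM
  have hMν : M ≤ q ^ ν := by
    rw [hM, hq]
    exact_mod_cast hνc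
  have hM0 : 0 ≤ M := by positivity
  have hmq : (m : ℝ) ≤ q := by rw [hq]; linarith
  -- `t ≤ q ^ 3`, again
  have hexp : 2 * Real.exp (1 / 2 - t) ≤ 1 / q ^ (ν + 2) := two_exp_le hq1 (ν + 2)
  -- the bound on the values
  have hHσ : H / σ ≤ q ^ 3 * u := by
    have hlog : Real.log q ≤ q - 1 := Real.log_le_sub_one_of_pos hq0
    have ht3 : t ≤ q ^ 3 := by
      have h1 : ((ν + 2 : ℕ) : ℝ) ≤ q + 1 := by push_cast; linarith
      have h2 : ((ν + 2 : ℕ) : ℝ) * Real.log q ≤ (q + 1) * (q - 1) :=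
        mul_le_mul h1 hlog hlog0 (by linarith)
      rw [ht]
      nlinarith [mul_pos hq0 hq0]
    have h1 : H / σ = 1 / σ + t := by rw [hH]; field_simp
    have h2 : (1 : ℝ) ≤ q ^ 3 := one_le_pow₀ (by linarith)
    have h3 : 0 ≤ 1 / σ := by positivity
    rw [h1, hu]
    nlinarith
  have hu1 : 1 ≤ u := by
    rw [hu]
    have : 0 ≤ 1 / σ := by positivity
    linarith
  have hlam : n * Y * (1 + σ * t) < 2 ^ (Λ + 1) := by
    have h1 : n * Y * (1 + σ * t) = n ^ 2 * q ^ (2 * ν + 1) * (H / σ) := by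
      rw [hY, hH]; field_simp
    have h2 : (n : ℝ) ^ 2 ≤ q ^ 2 := pow_le_pow_left₀ hn1.le hnq 2
    have h3 : n * Y * (1 + σ * t) ≤ q ^ (2 * ν + 6) * u := by
      rw [h1]
      calc (n : ℝ) ^ 2 * q ^ (2 * ν + 1) * (H / σ) ≤ q ^ 2 * q ^ (2 * ν + 1) * (q ^ 3 * u) := by
            gcongr
        _ = q ^ (2 * ν + 6) * u := by ring
    have h4 : q ≤ 2 ^ (m + 1) := by
      have := (Nat.lt_two_pow_self (n := m + 1)).le
      rw [hq]
      exact_mod_cast this
    have h5 : u < 2 ^ (⌈1 / σ⌉₊ + 1) := by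
      have h6 : 1 / σ ≤ (⌈1 / σ⌉₊ : ℝ) := Nat.le_ceil _
      have h7 : ((⌈1 / σ⌉₊ + 1 : ℕ) : ℝ) < 2 ^ (⌈1 / σ⌉₊ + 1) := by
        exact_mod_cast Nat.lt_two_pow_self
      rw [hu]
      push_cast at h7
      linarith
    calc n * Y * (1 + σ * t) ≤ q ^ (2 * ν + 6) * u := h3
      _ ≤ (2 ^ (m + 1)) ^ (2 * ν + 6) * u := by gcongr
      _ < (2 ^ (m + 1)) ^ (2 * ν + 6) * 2 ^ (⌈1 / σ⌉₊ + 1) := by
          apply mul_lt_mul_of_pos_left h5
          positivity
      _ = 2 ^ (Λ + 1) := by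
          rw [← pow_mul, ← pow_add, hΛ]
          congr 1
          ring
  -- the exceptional probabilities
  set a₁ : ℝ := m * (n * (2 * Real.exp (1 / 2 - t))) with ha₁
  set a₂ : ℝ := M * (q ^ (s + 1) * m) * (1 / q ^ (2 * s + 3)) ^ (s + 1) with ha₂
  set a₃ : ℝ := M * m * (n / (Y * σ)) with ha₃
  have hpA : noiseA m n σ (badA A₀ c s σ t θ Y) ≤ ENNReal.ofReal (a₁ + (a₂ + a₃)) := by
    have e1 : noiseA m n σ {G | ∃ i j, σ * t < |G i j|} ≤ ENNReal.ofReal a₁ := by
      refine (noiseA_tail hσ t).trans (le_of_eq ?_)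
      rw [ha₁, ENNReal.ofReal_mul (p := (m : ℝ)) (by positivity),
        ENNReal.ofReal_mul (p := (n : ℝ)) (by positivity),
        ENNReal.ofReal_natCast, ENNReal.ofReal_natCast]
    have e2 : noiseA m n σ (badLight A₀ c s ((s + 1 : ℕ) * θ * (1 + σ * t))) ≤
        ENNReal.ofReal a₂ := by
      refine (badLight_le A₀ c s hσ (by positivity)).trans (le_of_eq ?_)
      rw [ha₂, ENNReal.ofReal_mul (by positivity)]
      congr 1
      · rw [← ENNReal.ofReal_natCast]
        congr 1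
        rw [hM, hq]
        push_cast
        ring
      · congr 2
        rw [← hH, hθ]
        push_cast
        field_simp
    have e3 : noiseA m n σ (badLarge A₀ Y) ≤ ENNReal.ofReal a₃ := by
      refine (badLarge_le A₀ hn hσ hY0).trans (le_of_eq ?_)
      rw [ha₃, ENNReal.ofReal_mul (by positivity), ← ENNReal.ofReal_natCast]
      congr 2
      rw [hM]
      push_cast
      ring
    calc noiseA m n σ (badA A₀ c s σ t θ Y)
        ≤ noiseA m n σ {G | ∃ i j, σ * t < |G i j|} +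
          (noiseA m n σ (badLight A₀ c s ((s + 1 : ℕ) * θ * (1 + σ * t))) +
            noiseA m n σ (badLarge A₀ Y)) := by
          rw [badA]
          exact (measure_union_le _ _).trans (add_le_add le_rfl (measure_union_le _ _))
      _ ≤ ENNReal.ofReal a₁ + (ENNReal.ofReal a₂ + ENNReal.ofReal a₃) := by gcongr
      _ = ENNReal.ofReal (a₁ + (a₂ + a₃)) := by
          rw [ENNReal.ofReal_add (by positivity) (by positivity),
            ENNReal.ofReal_add (by positivity) (by positivity)]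
  set b₁ : ℝ := m * (2 * Real.exp (1 / 2 - t)) with hb₁
  set b₂ : ℝ := (Λ + 1) * (M * q ^ ((s + 1) * (s + 1) + (s + 1) * (s + 1))) *
    (1 / q ^ (4 * s + 4)) ^ (s + 1) with hb₂
  have hpB : ∀ G, noiseB m σ (badB (A₀ + G) b₀ c (s + 1) s Λ σ t θ ε) ≤
      ENNReal.ofReal (b₁ + b₂) := by
    intro G
    have e1 : noiseB m σ {g | ∃ i, σ * t < |g i|} ≤ ENNReal.ofReal b₁ := by
      refine (noiseB_tail hσ t).trans (le_of_eq ?_)
      rw [hb₁, ENNReal.ofReal_mul (p := (m : ℝ)) (by positivity), ENNReal.ofReal_natCast]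
    have e2 := coinc_le hσ (A₀ + G) b₀ c hn hH0 hθ0 hε0 (s + 1) s Λ
    have e3 : ((Λ + 1 : ℕ) * (m.choose n *
        ((m + 1) ^ ((s + 1) * (s + 1) + (s + 1) * (s + 1)) : ℕ)) : ℝ≥0∞) *
        ENNReal.ofReal ((2 * n * H * ε / (σ * θ)) ^ (s + 1)) = ENNReal.ofReal b₂ := by
      rw [hb₂, ENNReal.ofReal_mul (by positivity)]
      congr 1
      · rw [← ENNReal.ofReal_natCast, ← ENNReal.ofReal_natCast, ← ENNReal.ofReal_natCast,
          ← ENNReal.ofReal_mul (by positivity), ← ENNReal.ofReal_mul (by positivity)]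
        congr 1
        rw [hM, hq]
        push_cast
        ring
      · congr 2
        rw [hε]
        field_simp
    rw [e3] at e2
    rw [badB]
    refine (measure_union_le _ _).trans ?_
    rw [ENNReal.ofReal_add (by positivity) (by positivity)]
    exact add_le_add e1 e2
  -- assemble
  have hint := integral_bound (d := s) hn hσ ht0.le hθ0 hθ1 hε0 hY0 (K := s + 1) (by omega) hlam hF
    hc1 hc hcc R z hpA hpB
  refine hint.trans ?_
  have hMpA : (m.choose n : ℝ≥0∞) * ENNReal.ofReal (a₁ + (a₂ + a₃)) ≤ ENNReal.ofReal 3 := by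
    rw [← ENNReal.ofReal_natCast, ← ENNReal.ofReal_mul (by positivity)]
    apply ENNReal.ofReal_le_ofReal
    rw [← hM, mul_add, mul_add]
    have h1 : M * a₁ ≤ 1 := by
      calc M * a₁ = M * m * n * (2 * Real.exp (1 / 2 - t)) := by rw [ha₁]; ring
        _ ≤ q ^ ν * q * q * (1 / q ^ (ν + 2)) := by gcongr
        _ = 1 := by
            field_simp
            ring
    have h2 : M * a₂ ≤ 1 := by
      calc M * a₂ = M * M * q ^ (s + 1) * m * (1 / q ^ (2 * s + 3)) ^ (s + 1) := by rw [ha₂]; ring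
        _ ≤ q ^ ν * q ^ ν * q ^ (s + 1) * q * (1 / q ^ (2 * s + 3)) ^ (s + 1) := by gcongr
        _ = q ^ (2 * ν + s + 2) / q ^ ((2 * s + 3) * (s + 1)) := by
            rw [one_div_pow, ← pow_mul, mul_one_div]
            congr 1
            ring
        _ ≤ 1 := by
            rw [div_le_one (by positivity)]
            apply pow_le_pow_right₀ hq1
            nlinarith
    have h3 : M * a₃ ≤ 1 := by
      calc M * a₃ = M * M * m * (n / (Y * σ)) := by rw [ha₃]; ring
        _ ≤ q ^ ν * q ^ ν * q * (n / (Y * σ)) := by gcongr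
        _ = 1 := by
            rw [hY]
            field_simp
            ring
    linarith
  have hMpB : (m.choose n : ℝ≥0∞) * ENNReal.ofReal (b₁ + b₂) ≤ ENNReal.ofReal (1 + (Λ + 1)) := by
    rw [← ENNReal.ofReal_natCast, ← ENNReal.ofReal_mul (by positivity)]
    apply ENNReal.ofReal_le_ofReal
    rw [← hM, mul_add]
    have h1 : M * b₁ ≤ 1 := by
      calc M * b₁ = M * m * 1 * (2 * Real.exp (1 / 2 - t)) := by rw [hb₁]; ring
        _ ≤ q ^ ν * q * q * (1 / q ^ (ν + 2)) := by gcongr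
        _ = 1 := by
            field_simp
            ring
    have h2 : M * b₂ ≤ Λ + 1 := by
      calc M * b₂ = (Λ + 1) * (M * M * q ^ ((s + 1) * (s + 1) + (s + 1) * (s + 1)) *
            (1 / q ^ (4 * s + 4)) ^ (s + 1)) := by rw [hb₂]; ring
        _ ≤ (Λ + 1) * (q ^ ν * q ^ ν * q ^ ((s + 1) * (s + 1) + (s + 1) * (s + 1)) *
            (1 / q ^ (4 * s + 4)) ^ (s + 1)) := by gcongr
        _ = (Λ + 1) * (q ^ (2 * ν + ((s + 1) * (s + 1) + (s + 1) * (s + 1))) /
              q ^ ((4 * s + 4) * (s + 1))) := by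
            rw [one_div_pow, ← pow_mul, mul_one_div]
            congr 2
            ring
        _ ≤ (Λ + 1) * 1 := by
            gcongr
            rw [div_le_one (by positivity)]
            apply pow_le_pow_right₀ hq1
            nlinarith
        _ = Λ + 1 := mul_one _
    linarith
  have hlen : (goodLen m (s + 1) s Λ ε : ℝ≥0∞) =
      ENNReal.ofReal (q ^ (3 * s) * (2 * ((Λ + 1) * (⌊2 / ε⌋₊ + 1)))) := by
    rw [← ENNReal.ofReal_natCast]
    congr 1
    rw [goodLen, hq]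
    push_cast
    have : 2 * s + s = 3 * s := by omega
    rw [this]
  have hΛ1 : (Λ : ℝ) + 1 ≤ (2 * ν + 6) * q + u + 1 := by
    have h1 : (⌈1 / σ⌉₊ : ℝ) ≤ 1 / σ + 1 := (Nat.ceil_lt_add_one (by positivity)).le
    rw [hΛ, hu, hq]
    push_cast
    linarith
  have hfin := final_numeric (F := ⌊2 / ε⌋₊) hq2 hσ hu hnq hn hνq hsq ht hH hθ hε hΛ1
    (Nat.floor_le (by positivity))
  calc (goodLen m (s + 1) s Λ ε : ℝ≥0∞) + m.choose n * ENNReal.ofReal (b₁ + b₂) +
        m.choose n * ENNReal.ofReal (a₁ + (a₂ + a₃))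
      ≤ ENNReal.ofReal (q ^ (3 * s) * (2 * ((Λ + 1) * (⌊2 / ε⌋₊ + 1)))) +
          ENNReal.ofReal (1 + (Λ + 1)) + ENNReal.ofReal 3 := by
        rw [hlen]
        gcongr
    _ = ENNReal.ofReal (q ^ (3 * s) * (2 * ((Λ + 1) * (⌊2 / ε⌋₊ + 1))) + (1 + (Λ + 1)) + 3) := by
        rw [← ENNReal.ofReal_add (by positivity) (by positivity),
          ← ENNReal.ofReal_add (by positivity) (by positivity)]
    _ ≤ ENNReal.ofReal (u ^ 3 * q ^ (9 * s + 27)) := by
        apply ENNReal.ofReal_le_ofReal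
        linarith

end Run7.h302
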