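import Mathlib

namespace Run7.h302

/-- `δ 0, …, δ (k-1)` have a `k × k` minor of absolute value at least `D`. -/
def HasMinor {ι : Type*} (k : ℕ) (δ : Fin k → ι → ℝ) (D : ℝ) : Prop :=
  ∃ I : Fin k → ι, D ≤ |(Matrix.of fun a b => δ a (I b)).det|

lemma hasMinor_zero {ι : Type*} (δ : Fin 0 → ι → ℝ) : HasMinor 0 δ 1 :=
  ⟨fun i => i.elim0, by simp⟩

/-- Adding a vector which is `Θ`-far (in the sup norm) from the span multiplies the best minor by
at least `Θ`. -/
lemma hasMinor_succ {ι : Type*} {k : ℕ} (δ : Fin k → ι → ℝ) (y : ι → ℝ) {D Θ : ℝ} (hD : 0 < D)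
    (_hΘ : 0 ≤ Θ) (h : HasMinor k δ D) (hfar : ∀ w : Fin k → ℝ, ∃ i, Θ < |y i - ∑ a, w a * δ a i|) :
    HasMinor (k + 1) (Fin.cons y δ : Fin (k + 1) → ι → ℝ) (Θ * D) := by
  obtain ⟨I, hI⟩ := h
  set M : Matrix (Fin k) (Fin k) ℝ := Matrix.of fun a b => δ a (I b) with hM
  have hMdet : M.det ≠ 0 := by
    intro h0
    rw [h0, abs_zero] at hI
    linarith
  -- interpolation coefficients
  obtain ⟨w, hw⟩ : ∃ w : Fin k → ℝ, ∀ b, ∑ a, w a * δ a (I b) = y (I b) := by
    refine ⟨Matrix.vecMul (fun b => y (I b)) M⁻¹, fun b => ?_⟩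
    have h1 : Matrix.vecMul (Matrix.vecMul (fun b => y (I b)) M⁻¹) M = fun b => y (I b) := by
      rw [Matrix.vecMul_vecMul, Matrix.nonsing_inv_mul _ (isUnit_iff_ne_zero.2 hMdet),
        Matrix.vecMul_one]
    have h2 := congrFun h1 b
    simpa [Matrix.vecMul, dotProduct, hM] using h2
  obtain ⟨i, hi⟩ := hfar w
  refine ⟨Fin.cons i I, ?_⟩
  set N : Matrix (Fin (k + 1)) (Fin (k + 1)) ℝ :=
    Matrix.of fun a b => (Fin.cons y δ : Fin (k + 1) → ι → ℝ) a ((Fin.cons i I : Fin (k + 1) → ι) b)
    with hN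
  -- subtract the combination from row `0`
  set r : ℝ := y i - ∑ a, w a * δ a i with hr
  have hdet : N.det = r * M.det := by
    have h1 : N.det = (N.updateRow 0 (N 0 + ∑ a : Fin k, (-w a) • N a.succ)).det := by
      have : ∀ s : Finset (Fin k), (N.updateRow 0 (N 0 + ∑ a ∈ s, (-w a) • N a.succ)).det = N.det := by
        intro s
        induction s using Finset.induction_on with
        | empty => simp
        | insert a s ha ih =>
          rw [Finset.sum_insert ha, add_comm ((-w a) • N a.succ), ← add_assoc]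
          have h2 := Matrix.det_updateRow_add_smul_self
            (N.updateRow 0 (N 0 + ∑ a ∈ s, (-w a) • N a.succ)) (i := 0) (j := a.succ)
            (Fin.succ_ne_zero a).symm (-w a)
          rw [Matrix.updateRow_self, Matrix.updateRow_ne (Fin.succ_ne_zero a),
            Matrix.updateRow_idem] at h2
          rw [h2, ih]
      exact (this Finset.univ).symm
    have hrow0 : (N 0 + ∑ a : Fin k, (-w a) • N a.succ) 0 = r := by
      simp [hN, hr, Finset.sum_neg_distrib, sub_eq_add_neg]
    have hrowS : ∀ b : Fin k, (N 0 + ∑ a : Fin k, (-w a) • N a.succ) b.succ = 0 := by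
      intro b
      have := hw b
      simp only [Pi.add_apply, Finset.sum_apply, Pi.smul_apply, smul_eq_mul]
      simp only [hN, Matrix.of_apply, Fin.cons_zero, Fin.cons_succ, neg_mul,
        Finset.sum_neg_distrib]
      linarith
    set R : Fin (k + 1) → ℝ := N 0 + ∑ a : Fin k, (-w a) • N a.succ with hR
    have hsub : (N.updateRow 0 R).submatrix Fin.succ (Fin.succAbove 0) = M := by
      ext a b
      simp [hN, hM, Matrix.updateRow_apply]
    rw [h1, Matrix.det_succ_row_zero, Fin.sum_univ_succ, Matrix.updateRow_self, hsub, hrow0]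
    have hz : ∀ b : Fin k, (-1 : ℝ) ^ ((b.succ : Fin (k + 1)) : ℕ) * R b.succ *
        ((N.updateRow 0 R).submatrix Fin.succ (b.succ).succAbove).det = 0 := by
      intro b
      rw [hrowS b]
      ring
    rw [Finset.sum_congr rfl (fun b _ => hz b), Finset.sum_const_zero, add_zero]
    simp
  rw [hdet, abs_mul]
  exact mul_le_mul hi.le hI hD.le (abs_nonneg _)

end Run7.h302
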