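import Pool.Agent.Run7.h302.Defs

open scoped ENNReal

namespace Run7.h302

variable {n : ℕ}

/-- every path of improving steps that starts at `v` has at most `L` steps -/
def PathBoundFrom (P : Set (Fin n → ℝ)) (c v : Fin n → ℝ) (L : ℕ) : Prop :=
  ∀ (k : ℕ) (p : ℕ → Fin n → ℝ), p 0 = v → (∀ t < k, Improving P c (p t) (p (t + 1))) → k ≤ L

lemma PathBoundFrom.next {P : Set (Fin n → ℝ)} {c v w : Fin n → ℝ} {L : ℕ}
    (h : PathBoundFrom P c v L) (hvw : Improving P c v w) :
    1 ≤ L ∧ PathBoundFrom P c w (L - 1) := by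
  have key : ∀ (k : ℕ) (p : ℕ → Fin n → ℝ), p 0 = w →
      (∀ t < k, Improving P c (p t) (p (t + 1))) → k + 1 ≤ L := by
    intro k p hp0 hp
    apply h (k + 1) (fun t => if t = 0 then v else p (t - 1))
    · simp
    · intro t ht
      by_cases h0 : t = 0
      · subst h0
        simp only
        simp [hp0, hvw]
      · obtain ⟨s, rfl⟩ := Nat.exists_eq_succ_of_ne_zero h0
        simp only [Nat.succ_eq_add_one, Nat.add_eq_zero_iff, one_ne_zero, and_false, if_false,
          Nat.add_sub_cancel]
        exact hp s (by omega)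
  refine ⟨by simpa using key 0 (fun _ => w) rfl (by intro t ht; omega), ?_⟩
  intro k p hp0 hp
  have := key k p hp0 hp
  omega

lemma expectedSteps_le {P : Set (Fin n → ℝ)} {c : Fin n → ℝ} (k : ℕ) :
    ∀ (v : Fin n → ℝ) (L : ℕ), PathBoundFrom P c v L → expectedSteps P c k v ≤ (L : ℝ≥0∞) := by
  induction k with
  | zero => intro v L _; simp [expectedSteps]
  | succ k ih =>
    intro v L h
    rw [expectedSteps]
    split_ifs with hex
    · obtain ⟨w₀, hw₀⟩ := hex
      have hL := (h.next hw₀).1
      set N : ℝ≥0∞ := ((Set.encard {w | Improving P c v w} : ℕ∞) : ℝ≥0∞) with hN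
      have hsum : ∑' w : {w // Improving P c v w}, expectedSteps P c k w / N ≤
          ((L - 1 : ℕ) : ℝ≥0∞) := by
        calc ∑' w : {w // Improving P c v w}, expectedSteps P c k w / N
            ≤ ∑' _w : ({w | Improving P c v w} : Set (Fin n → ℝ)), ((L - 1 : ℕ) : ℝ≥0∞) / N := by
              apply ENNReal.tsum_le_tsum
              intro w
              gcongr
              exact ih w (L - 1) (h.next w.2).2
          _ = N * (((L - 1 : ℕ) : ℝ≥0∞) / N) := by
              rw [ENNReal.tsum_set_const]
          _ ≤ ((L - 1 : ℕ) : ℝ≥0∞) := ENNReal.mul_div_le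
      calc 1 + ∑' w : {w // Improving P c v w}, expectedSteps P c k w / N
          ≤ 1 + ((L - 1 : ℕ) : ℝ≥0∞) := by gcongr
        _ = (L : ℝ≥0∞) := by
            have : L = 1 + (L - 1) := by omega
            conv_rhs => rw [this]
            push_cast
            rfl
    · exact zero_le

lemma longestRun_le {P : Set (Fin n → ℝ)} {c : Fin n → ℝ}
    {step : (Fin n → ℝ) → (Fin n → ℝ) → Prop} (hstep : ∀ v w, step v w → Improving P c v w)
    {v : Fin n → ℝ} {L : ℕ} (h : PathBoundFrom P c v L) : longestRun step v ≤ (L : ℝ≥0∞) := by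
  unfold longestRun
  refine iSup_le fun k => iSup_le fun p => iSup_le fun hp0 => iSup_le fun hp => ?_
  exact_mod_cast h k p hp0 fun t ht => hstep _ _ (hp t ht)

/-- if all monotone edge paths have at most `L` steps, all rules take at most `L` steps -/
lemma pivots_le {P : Set (Fin n → ℝ)} {c : Fin n → ℝ} {L : ℕ} (h : ∀ v, PathBoundFrom P c v L)
    (R : Rule) (z : Fin n → ℝ) : pivots R P c z ≤ (L : ℝ≥0∞) := by
  unfold pivots
  refine iSup_le fun v => iSup_le fun _ => iSup_le fun _ => ?_
  cases R with
  | greedy => exact longestRun_le (fun _ _ h => h.1) (h v)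
  | steepestEdge => exact longestRun_le (fun _ _ h => h.1) (h v)
  | random => exact iSup_le fun k => expectedSteps_le k v L (h v)
  | adversarial => exact longestRun_le (fun _ _ h => h) (h v)

end Run7.h302
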