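import Mathlib

open Finset

namespace Run7.h302

lemma sum_choose_le (m k : ℕ) : ∑ j ∈ range (k + 1), m.choose j ≤ (m + 1) ^ k := by
  rw [add_pow]
  apply Finset.sum_le_sum
  intro j hj
  have hjk : j ≤ k := Nat.lt_succ_iff.1 (Finset.mem_range.1 hj)
  have h1 : m.choose j ≤ m ^ j := Nat.choose_le_pow m j
  have h2 : 0 < k.choose j := Nat.choose_pos hjk
  simp only [one_pow, mul_one, Nat.cast_id]
  calc m.choose j ≤ m ^ j := h1
    _ = m ^ j * 1 := (mul_one _).symm
    _ ≤ m ^ j * k.choose j := Nat.mul_le_mul_left _ h2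

lemma card_small_finsets {ι : Type*} [Fintype ι] [DecidableEq ι] (d : ℕ) :
    (univ.filter fun D : Finset ι => D.card ≤ d).card ≤ (Fintype.card ι + 1) ^ d := by
  refine le_trans ?_ (sum_choose_le (Fintype.card ι) d)
  have hsub : (univ.filter fun D : Finset ι => D.card ≤ d) ⊆
      (range (d + 1)).biUnion fun j => powersetCard j (univ : Finset ι) := by
    intro D hD
    simp only [mem_filter, mem_univ, true_and] at hD
    simp only [mem_biUnion, mem_range, mem_powersetCard, subset_univ, true_and]
    exact ⟨D.card, by omega, rfl⟩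
  refine (card_le_card hsub).trans (card_biUnion_le.trans ?_)
  apply Finset.sum_le_sum
  intro j _
  rw [card_powersetCard, card_univ]

/-- the patterns `{i : thr < u i + ∑ a, w a * δ a i}`, `w ∈ ℝᵏ` -/
noncomputable def patterns {ι : Type*} [Fintype ι] [DecidableEq ι] {k : ℕ} (u : ι → ℝ)
    (δ : Fin k → ι → ℝ) (thr : ℝ) : Finset (Finset ι) :=
  open Classical in
  univ.filter fun H : Finset ι => ∃ w : Fin k → ℝ, ∀ i, i ∈ H ↔ thr < u i + ∑ a, w a * δ a i

lemma card_patterns_le {ι : Type*} [Fintype ι] [DecidableEq ι] {k : ℕ} (u : ι → ℝ)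
    (δ : Fin k → ι → ℝ) (thr : ℝ) :
    (patterns u δ thr).card ≤ (Fintype.card ι + 1) ^ k := by
  classical
  set PP := patterns u δ thr with hPP
  have hvc : PP.vcDim ≤ k := by
    unfold Finset.vcDim
    apply Finset.sup_le
    intro s hs
    rw [mem_shatterer] at hs
    by_contra hlt
    push Not at hlt
    -- a linear dependency
    set M : Matrix (Fin k) s ℝ := Matrix.of fun a i => δ a i with hM
    have hker : M.mulVecLin.ker ≠ ⊥ := by
      apply LinearMap.ker_ne_bot_of_finrank_lt
      rw [Module.finrank_fintype_fun_eq_card, Module.finrank_fintype_fun_eq_card]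
      simpa using hlt
    obtain ⟨l, hlmem, hl0⟩ := Submodule.exists_mem_ne_zero_of_ne_bot hker
    have hlker : ∀ a, ∑ i : s, l i * δ a i = 0 := by
      intro a
      have := congrFun (LinearMap.mem_ker.1 hlmem) a
      simp only [Matrix.mulVecLin_apply, Matrix.mulVec, dotProduct, hM, Matrix.of_apply,
        Pi.zero_apply] at this
      rw [← this]
      exact Finset.sum_congr rfl fun i _ => mul_comm _ _
    -- sign choice
    obtain ⟨l, hl0, hlker, hc⟩ : ∃ l : s → ℝ, l ≠ 0 ∧ (∀ a, ∑ i : s, l i * δ a i = 0) ∧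
        ∑ i : s, l i * (u i - thr) ≤ 0 := by
      rcases le_total (∑ i : s, l i * (u i - thr)) 0 with h | h
      · exact ⟨l, hl0, hlker, h⟩
      · refine ⟨-l, neg_ne_zero.2 hl0, fun a => ?_, ?_⟩
        · simp only [Pi.neg_apply, neg_mul, Finset.sum_neg_distrib, hlker a, neg_zero]
        · simp only [Pi.neg_apply, neg_mul, Finset.sum_neg_distrib]
          linarith
    have hval : ∀ w : Fin k → ℝ, ∑ i : s, l i * (u i + (∑ a, w a * δ a i) - thr) =
        ∑ i : s, l i * (u i - thr) := by
      intro w
      have h1 : ∀ i : s, l i * (u i + (∑ a, w a * δ a i) - thr) =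
          l i * (u i - thr) + ∑ a, w a * (l i * δ a i) := by
        intro i
        have : ∑ a, w a * (l i * δ a i) = l i * ∑ a, w a * δ a i := by
          rw [Finset.mul_sum]
          exact Finset.sum_congr rfl fun a _ => by ring
        rw [this]; ring
      rw [Finset.sum_congr rfl fun i _ => h1 i, Finset.sum_add_distrib, Finset.sum_comm]
      have : ∀ a, ∑ i : s, w a * (l i * δ a i) = 0 := by
        intro a
        rw [← Finset.mul_sum, hlker a, mul_zero]
      rw [Finset.sum_congr rfl fun a _ => this a]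
      simp
    -- realise a subset of `s`
    have hreal : ∀ t : Finset ι, t ⊆ s → ∃ w : Fin k → ℝ, ∀ i ∈ s,
        (i ∈ t ↔ 0 < u i + (∑ a, w a * δ a i) - thr) := by
      intro t ht
      obtain ⟨H, hH, hHt⟩ := hs ht
      rw [hPP, patterns, mem_filter] at hH
      obtain ⟨w, hw⟩ := hH.2
      refine ⟨w, fun i hi => ?_⟩
      have h1 : i ∈ t ↔ i ∈ H := by
        rw [← hHt, mem_inter]
        exact ⟨fun h => h.2, fun h => ⟨hi, h⟩⟩
      rw [h1, hw i]
      constructor <;> intro h <;> linarith
    by_cases hpos : ∃ i : s, 0 < l i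
    · obtain ⟨i₀, hi₀⟩ := hpos
      obtain ⟨w, hw⟩ := hreal (s.filter fun i => ∃ h : i ∈ s, 0 < l ⟨i, h⟩) (filter_subset _ _)
      have hmem : ∀ i : s, (0 < l i ↔ 0 < u i + (∑ a, w a * δ a i) - thr) := by
        intro i
        rw [← hw i i.2]
        simp [i.2]
      have hposs : 0 < ∑ i : s, l i * (u i + (∑ a, w a * δ a i) - thr) := by
        apply Finset.sum_pos'
        · intro i _
          by_cases hli : 0 < l i
          · exact (mul_pos hli ((hmem i).1 hli)).le
          · have h1 : u i + (∑ a, w a * δ a i) - thr ≤ 0 := by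
              by_contra h2
              exact hli ((hmem i).2 (by linarith))
            nlinarith
        · exact ⟨i₀, mem_univ _, mul_pos hi₀ ((hmem i₀).1 hi₀)⟩
      rw [hval w] at hposs
      linarith
    · push Not at hpos
      obtain ⟨i₀, hi₀⟩ : ∃ i, l i ≠ 0 := by
        by_contra h
        push Not at h
        exact hl0 (funext h)
      have hi₀' : l i₀ < 0 := lt_of_le_of_ne (hpos i₀) hi₀
      -- empty pattern
      obtain ⟨w, hw⟩ := hreal ∅ (empty_subset _)
      have h1 : 0 ≤ ∑ i : s, l i * (u i + (∑ a, w a * δ a i) - thr) := by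
        apply Finset.sum_nonneg
        intro i _
        have h2 : u i + (∑ a, w a * δ a i) - thr ≤ 0 := by
          by_contra h3
          have := (hw i i.2).2 (by linarith)
          simp at this
        nlinarith [hpos i]
      rw [hval w] at h1
      -- full pattern
      obtain ⟨w', hw'⟩ := hreal s (Subset.refl _)
      have h2 : ∑ i : s, l i * (u i + (∑ a, w' a * δ a i) - thr) < 0 := by
        have h3 : 0 < ∑ i : s, -(l i * (u i + (∑ a, w' a * δ a i) - thr)) := by
          apply Finset.sum_pos'
          · intro i _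
            have h4 := (hw' i i.2).1 i.2
            nlinarith [hpos i]
          · refine ⟨i₀, mem_univ _, ?_⟩
            have h4 := (hw' i₀ i₀.2).1 i₀.2
            nlinarith
        rw [Finset.sum_neg_distrib] at h3
        linarith
      rw [hval w'] at h2
      linarith
  calc PP.card ≤ PP.shatterer.card := card_le_card_shatterer PP
    _ ≤ ∑ j ∈ Iic PP.vcDim, (Fintype.card ι).choose j := card_shatterer_le_sum_vcDim
    _ ≤ ∑ j ∈ range (k + 1), (Fintype.card ι).choose j := by
        apply Finset.sum_le_sum_of_subset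
        intro j hj
        rw [mem_Iic] at hj
        rw [mem_range]
        omega
    _ ≤ (Fintype.card ι + 1) ^ k := sum_choose_le _ _

/-- the bases `B` whose vector `y B` is `Θ`-close to the affine space `u + span δ`, and which have
at most `d` light rows -/
noncomputable def near {ι : Type*} [Fintype ι] [DecidableEq ι] {k : ℕ} (y : Finset ι → ι → ℝ)
    (Θ : ℝ) (d : ℕ) (u : ι → ℝ) (δ : Fin k → ι → ℝ) : Finset (Finset ι) :=
  open Classical in
  univ.filter fun B : Finset ι => (B.filter fun i => |y B i| ≤ 2 * Θ).card ≤ d ∧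
    ∃ w : Fin k → ℝ, ∀ i, |y B i - (u i + ∑ a, w a * δ a i)| ≤ Θ

lemma card_near_le {ι : Type*} [Fintype ι] [DecidableEq ι] {k : ℕ} (y : Finset ι → ι → ℝ)
    (hy : ∀ B, ∀ i ∉ B, y B i = 0) (Θ : ℝ) (d : ℕ) (u : ι → ℝ) (δ : Fin k → ι → ℝ) :
    (near y Θ d u δ).card ≤ (Fintype.card ι + 1) ^ (2 * k + d) := by
  classical
  set 𝒜 : Finset (Finset ι) := patterns u δ Θ
  set ℬ : Finset (Finset ι) := patterns (-u) (-δ) Θ
  set 𝒟 : Finset (Finset ι) := univ.filter fun D : Finset ι => D.card ≤ d
  have hsub : near y Θ d u δ ⊆ ((𝒜 ×ˢ ℬ) ×ˢ 𝒟).image fun x => (x.1.1 ∪ x.1.2) ∪ x.2 := by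
    intro B hB
    rw [near, mem_filter] at hB
    obtain ⟨-, hcard, w, hw⟩ := hB
    set H₁ : Finset ι := univ.filter fun i => Θ < u i + ∑ a, w a * δ a i with hH₁
    set H₂ : Finset ι := univ.filter fun i => Θ < (-u) i + ∑ a, w a * (-δ) a i with hH₂
    have hneg : ∀ i, (-u) i + ∑ a, w a * (-δ) a i = -(u i + ∑ a, w a * δ a i) := by
      intro i
      simp only [Pi.neg_apply, mul_neg, Finset.sum_neg_distrib]
      ring
    have h1B : H₁ ⊆ B := by
      intro i hi
      rw [hH₁, mem_filter] at hi
      by_contra hiB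
      have := hw i
      rw [hy B i hiB, abs_le] at this
      linarith [this.1, hi.2]
    have h2B : H₂ ⊆ B := by
      intro i hi
      rw [hH₂, mem_filter, hneg] at hi
      by_contra hiB
      have := hw i
      rw [hy B i hiB, abs_le] at this
      linarith [this.2, hi.2]
    rw [mem_image]
    refine ⟨((H₁, H₂), B \ (H₁ ∪ H₂)), ?_, ?_⟩
    · simp only [mem_product]
      refine ⟨⟨?_, ?_⟩, ?_⟩
      · simp only [𝒜, patterns, mem_filter, mem_univ, true_and]
        exact ⟨w, fun i => by simp [hH₁]⟩
      · simp only [ℬ, patterns, mem_filter, mem_univ, true_and]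
        refine ⟨w, fun i => ?_⟩
        rw [hH₂, mem_filter]
        simp only [mem_univ, true_and]
      · simp only [𝒟, mem_filter, mem_univ, true_and]
        refine le_trans (card_le_card ?_) hcard
        intro i hi
        rw [mem_sdiff, mem_union, not_or] at hi
        rw [mem_filter]
        refine ⟨hi.1, ?_⟩
        have h3 : ¬ Θ < u i + ∑ a, w a * δ a i := by
          intro h; exact hi.2.1 (by rw [hH₁, mem_filter]; exact ⟨mem_univ _, h⟩)
        have h4 : ¬ Θ < -(u i + ∑ a, w a * δ a i) := by
          intro h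
          exact hi.2.2 (by rw [hH₂, mem_filter, hneg]; exact ⟨mem_univ _, h⟩)
        have h5 := abs_le.1 (hw i)
        rw [abs_le]
        constructor <;> linarith [h5.1, h5.2]
    · simp only
      exact Finset.union_sdiff_of_subset (Finset.union_subset h1B h2B)
  calc (near y Θ d u δ).card ≤ _ := card_le_card hsub
    _ ≤ ((𝒜 ×ˢ ℬ) ×ˢ 𝒟).card := card_image_le
    _ = 𝒜.card * ℬ.card * 𝒟.card := by rw [card_product, card_product]
    _ ≤ (Fintype.card ι + 1) ^ k * (Fintype.card ι + 1) ^ k * (Fintype.card ι + 1) ^ d := by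
        apply Nat.mul_le_mul (Nat.mul_le_mul _ _) _
        · exact card_patterns_le u δ Θ
        · exact card_patterns_le _ _ Θ
        · exact card_small_finsets d
    _ = (Fintype.card ι + 1) ^ (2 * k + d) := by
        rw [← pow_add, ← pow_add]; congr 1; ring

end Run7.h302
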