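import Pool.Agent.Run7.h302.Minor
import Pool.Agent.Run7.h302.Pattern

open Finset

namespace Run7.h302

variable {ι : Type*} [Fintype ι] [DecidableEq ι]

/-- difference vectors `y (β a) - y B₀` -/
def diffs (y : Finset ι → ι → ℝ) (B₀ : Finset ι) {k : ℕ} (β : Fin k → Finset ι) :
    Fin k → ι → ℝ := fun a i => y (β a) i - y B₀ i

lemma diffs_cons (y : Finset ι → ι → ℝ) (B₀ B : Finset ι) {k : ℕ} (β : Fin k → Finset ι) :
    diffs y B₀ (Fin.cons B β : Fin (k + 1) → Finset ι) =
      (Fin.cons (fun i => y B i - y B₀ i) (diffs y B₀ β) : Fin (k + 1) → ι → ℝ) := by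
  funext a
  refine Fin.cases ?_ (fun a => ?_) a
  · funext i
    simp [diffs]
  · funext i
    simp [diffs]

/-- all sets obtained from a member of `N` by one exchange -/
def nextSet (N : Finset (Finset ι)) : Finset (Finset ι) :=
  N.biUnion fun B => (univ ×ˢ univ : Finset (ι × ι)).image fun x => insert x.2 (B.erase x.1)

lemma card_nextSet_le (N : Finset (Finset ι)) :
    (nextSet N).card ≤ N.card * (Fintype.card ι + 1) ^ 2 := by
  unfold nextSet
  apply card_biUnion_le_card_mul
  intro B _
  refine card_image_le.trans ?_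
  rw [card_product, card_univ, pow_two]
  apply Nat.mul_le_mul <;> omega

/-- the admissible sequences: each new member is one exchange away from a set which is near the
affine span of the previous members -/
noncomputable def adm (y : Finset ι → ι → ℝ) (Θ : ℝ) (d : ℕ) (B₀ : Finset ι) :
    (k : ℕ) → Finset (Fin k → Finset ι)
  | 0 => {fun i => i.elim0}
  | k + 1 => (adm y Θ d B₀ k).biUnion fun β =>
      (nextSet (near y Θ d (y B₀) (diffs y B₀ β))).image fun B =>
        (Fin.cons B β : Fin (k + 1) → Finset ι)

lemma card_adm_le (y : Finset ι → ι → ℝ) (hy : ∀ B, ∀ i ∉ B, y B i = 0) (Θ : ℝ) (d : ℕ)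
    (B₀ : Finset ι) (k : ℕ) :
    (adm y Θ d B₀ k).card ≤ (Fintype.card ι + 1) ^ (k * k + k * (d + 1)) := by
  induction k with
  | zero => simp [adm]
  | succ k ih =>
    rw [adm]
    refine (card_biUnion_le_card_mul _ _ ((Fintype.card ι + 1) ^ (2 * k + d + 2)) ?_).trans ?_
    · intro β _
      refine card_image_le.trans ((card_nextSet_le _).trans ?_)
      rw [pow_add _ (2 * k + d) 2]
      exact Nat.mul_le_mul_right _ (card_near_le y hy Θ d _ _)
    · refine (Nat.mul_le_mul_right _ ih).trans ?_
      rw [← pow_add]
      apply Nat.pow_le_pow_right (by omega)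
      apply le_of_eq
      ring

/-- **Window lemma.** A sequence of bases `B 0, …, B L`, consecutive ones differing by one
exchange, all with at most `d` light rows, either is contained in a set of at most
`(m+1)^(2(K-1)+d)` bases or contains an admissible sequence of `K` bases with a large minor. -/
lemma window (y : Finset ι → ι → ℝ) {Θ : ℝ} (hΘ : 0 < Θ) (d : ℕ) (L : ℕ)
    (B : ℕ → Finset ι) (hgood : ∀ t ≤ L, ((B t).filter fun i => |y (B t) i| ≤ 2 * Θ).card ≤ d)
    (hadj : ∀ t < L, ∃ i j, B (t + 1) = insert j ((B t).erase i)) (K : ℕ) :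
    (∃ k < K, ∃ β ∈ adm y Θ d (B 0) k,
      ∀ t ≤ L, B t ∈ near y Θ d (y (B 0)) (diffs y (B 0) β)) ∨
    (∃ β ∈ adm y Θ d (B 0) K, (∀ a, ∃ t ≤ L, β a = B t) ∧
      HasMinor K (diffs y (B 0) β) (Θ ^ K)) := by
  classical
  induction K with
  | zero =>
    right
    refine ⟨fun i => i.elim0, by simp [adm], fun a => a.elim0, ?_⟩
    rw [pow_zero]
    exact hasMinor_zero _
  | succ K ih =>
    rcases ih with ⟨k, hk, β, hβ, hnear⟩ | ⟨β, hβ, hmem, hminor⟩
    · left
      exact ⟨k, by omega, β, hβ, hnear⟩
    · by_cases hall : ∀ t ≤ L, B t ∈ near y Θ d (y (B 0)) (diffs y (B 0) β)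
      · left
        exact ⟨K, by omega, β, hβ, hall⟩
      · right
        push Not at hall
        have hex : ∃ t, t ≤ L ∧ B t ∉ near y Θ d (y (B 0)) (diffs y (B 0) β) := hall
        set t := Nat.find hex with ht
        have hspec := Nat.find_spec hex
        rw [← ht] at hspec
        obtain ⟨htL, htn⟩ := hspec
        have hmin : ∀ s < t, B s ∈ near y Θ d (y (B 0)) (diffs y (B 0) β) := by
          intro s hs
          by_contra hns
          exact Nat.find_min hex hs ⟨by omega, hns⟩
        have ht0 : t ≠ 0 := by
          intro h0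
          apply htn
          rw [h0, near, mem_filter]
          refine ⟨mem_univ _, hgood 0 (by omega), 0, fun i => ?_⟩
          simp [hΘ.le]
        obtain ⟨s, hs⟩ := Nat.exists_eq_succ_of_ne_zero ht0
        refine ⟨(Fin.cons (B t) β : Fin (K + 1) → Finset ι), ?_, ?_, ?_⟩
        · rw [adm, mem_biUnion]
          refine ⟨β, hβ, ?_⟩
          rw [mem_image]
          refine ⟨B t, ?_, rfl⟩
          rw [nextSet, mem_biUnion]
          refine ⟨B s, hmin s (by omega), ?_⟩
          obtain ⟨i, j, hij⟩ := hadj s (by omega)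
          rw [mem_image]
          refine ⟨(i, j), by simp, ?_⟩
          simp only
          rw [hs, ← hij]
        · intro a
          refine Fin.cases ?_ (fun a => ?_) a
          · exact ⟨t, htL, by simp⟩
          · simpa using hmem a
        · rw [diffs_cons, pow_succ, mul_comm]
          apply hasMinor_succ _ _ (by positivity) hΘ.le hminor
          intro w
          by_contra hcon
          push Not at hcon
          apply htn
          rw [near, mem_filter]
          refine ⟨mem_univ _, hgood t htL, w, fun i => ?_⟩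
          have := hcon i
          rwa [← sub_sub]

end Run7.h302
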