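import Pool.Agent.Run7.h302.Geo
import Pool.Agent.Run7.h302.Window
import Pool.Agent.Run7.h302.Rules

open Finset

namespace Run7.h302

variable {m n : ℕ}

section Path

variable {A : Fin m → Fin n → ℝ} {b : Fin m → ℝ} {c : Fin n → ℝ} {k : ℕ} {p : ℕ → Fin n → ℝ}

lemma path_extreme (hk : 0 < k) (hp : ∀ t < k, Improving (feas A b) c (p t) (p (t + 1))) :
    ∀ t ≤ k, p t ∈ (feas A b).extremePoints ℝ := by
  intro t ht
  rcases Nat.lt_or_ge t k with h | h
  · exact (hp t h).1.2.1
  · have : t = (k - 1) + 1 := by omega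
    rw [this]
    exact (hp (k - 1) (by omega)).1.2.2.1

lemma path_strictMono (hp : ∀ t < k, Improving (feas A b) c (p t) (p (t + 1))) :
    ∀ s t, s < t → t ≤ k → ∑ j, c j * p s j < ∑ j, c j * p t j := by
  intro s t hst htk
  induction t with
  | zero => omega
  | succ t ih =>
    have h1 := (hp t (by omega)).2
    rcases Nat.lt_or_ge s t with h | h
    · exact (ih h (by omega)).trans h1
    · have : s = t := by omega
      rw [this]; exact h1

lemma path_act_injective (hk : 0 < k)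
    (hp : ∀ t < k, Improving (feas A b) c (p t) (p (t + 1))) :
    ∀ s ≤ k, ∀ t ≤ k, actSet A b (p s) = actSet A b (p t) → s = t := by
  intro s hs t ht h
  have h1 : p s = p t := eq_of_act_eq (path_extreme hk hp s hs) (by rw [h])
  by_contra hne
  rcases Nat.lt_or_gt_of_ne hne with h2 | h2
  · have := path_strictMono hp s t h2 ht
    rw [h1] at this
    exact lt_irrefl _ this
  · have := path_strictMono hp t s h2 hs
    rw [h1] at this
    exact lt_irrefl _ this

/-- the trivial bound -/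
lemma path_le_choose (hnd : Nondeg A b)
    (hp : ∀ t < k, Improving (feas A b) c (p t) (p (t + 1))) : k ≤ m.choose n := by
  rcases Nat.eq_zero_or_pos k with h0 | hk
  · omega
  · have h1 : ((range (k + 1)).image fun t => actSet A b (p t)) ⊆ powersetCard n univ := by
      intro S hS
      obtain ⟨t, ht, rfl⟩ := mem_image.1 hS
      rw [mem_powersetCard]
      refine ⟨subset_univ _, (act_isBasis hnd (path_extreme hk hp t ?_)).1⟩
      rw [mem_range] at ht
      omega
    have h2 := card_le_card h1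
    rw [card_image_of_injOn, card_range, card_powersetCard, card_univ, Fintype.card_fin] at h2
    · omega
    · intro s hs t ht h
      rw [coe_range, Set.mem_Iio] at hs ht
      exact path_act_injective hk hp s (by omega) t (by omega) h

end Path

/-- the threshold `Θ` at level `l` -/
noncomputable def thr (n : ℕ) (H θ : ℝ) (l : ℕ) : ℝ := θ * 2 ^ l / (2 * n * H)

/-- all the properties of `(A, b)` which are used for the bound on monotone paths -/
structure Good (A : Fin m → Fin n → ℝ) (b : Fin m → ℝ) (c : Fin n → ℝ) (H θ ε Y : ℝ)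
    (K d Λ : ℕ) : Prop where
  nondeg : Nondeg A b
  one : ∃ j, |c j| = 1
  hA : ∀ i j, |A i j| ≤ H
  hb : ∀ i, |b i| ≤ H
  light : ∀ S, IsBasis A S →
    (S.filter fun i => |dualVec A c S i| ≤ θ * ‖dualVec A c S‖).card ≤ d
  large : ∀ S, IsBasis A S → ‖dualVec A c S‖ ≤ Y
  lam : n * Y * H < 2 ^ (Λ + 1)
  coinc : ∀ l ≤ Λ, ∀ S₀ : Finset (Fin m), S₀.card = n →
    ∀ β ∈ adm (dualVec A c) (thr n H θ l) d S₀ K,
      HasMinor K (diffs (dualVec A c) S₀ β) (thr n H θ l ^ K) →
        ∃ a, ε * 2 ^ l < |∑ i, diffs (dualVec A c) S₀ β a i * b i|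

section Bound

variable {A : Fin m → Fin n → ℝ} {b : Fin m → ℝ} {c : Fin n → ℝ} {H θ ε Y : ℝ} {K d Λ : ℕ}
  {k : ℕ} {p : ℕ → Fin n → ℝ}

lemma block_bound (hn : 0 < n) (hH : 0 < H) (hθ : 0 < θ) (hK : 0 < K)
    (g : Good A b c H θ ε Y K d Λ) (hk : 0 < k)
    (hp : ∀ t < k, Improving (feas A b) c (p t) (p (t + 1))) {l : ℕ} (hl : l ≤ Λ) {t₀ t₁ : ℕ}
    (h01 : t₀ ≤ t₁) (h1k : t₁ ≤ k)
    (hρ : ∑ j, c j * p t₁ j - ∑ j, c j * p t₀ j ≤ ε * 2 ^ l)
    (h2 : ∀ t, t₀ ≤ t → t ≤ t₁ → (2 : ℝ) ^ l ≤ n * ‖dualVec A c (actSet A b (p t))‖ * H) :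
    t₁ - t₀ + 1 ≤ (m + 1) ^ (2 * (K - 1) + d) := by
  classical
  set y := dualVec A c with hy
  set Θ := thr n H θ l with hΘ
  have hn' : (0 : ℝ) < n := by exact_mod_cast hn
  have hΘpos : 0 < Θ := by
    rw [hΘ, thr]
    positivity
  set B : ℕ → Finset (Fin m) := fun s => actSet A b (p (t₀ + s)) with hB
  have hbas : ∀ t, t ≤ k → IsBasis A (actSet A b (p t)) := fun t ht =>
    act_isBasis g.nondeg (path_extreme hk hp t ht)
  have hgood : ∀ s ≤ t₁ - t₀, ((B s).filter fun i => |y (B s) i| ≤ 2 * Θ).card ≤ d := by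
    intro s hs
    refine le_trans (card_le_card ?_) (g.light (B s) (hbas _ (by omega)))
    intro i hi
    rw [mem_filter] at hi ⊢
    refine ⟨hi.1, hi.2.trans ?_⟩
    have h3 := h2 (t₀ + s) (by omega) (by omega)
    rw [hΘ, thr]
    have h4 : 2 * (θ * 2 ^ l / (2 * n * H)) = θ * (2 ^ l / (n * H)) := by
      field_simp
    rw [h4]
    apply mul_le_mul_of_nonneg_left _ hθ.le
    rw [div_le_iff₀ (by positivity)]
    calc (2 : ℝ) ^ l ≤ _ := h3
      _ = _ := by ring
  have hadj : ∀ s < t₁ - t₀, ∃ i j, B (s + 1) = insert j ((B s).erase i) := by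
    intro s hs
    exact neighbour_exchange g.nondeg (hp (t₀ + s) (by omega)).1
  have hval : ∀ t ≤ k, ∑ j, c j * p t j = ∑ i, y (actSet A b (p t)) i * b i := fun t ht =>
    dual_value (hbas t ht) c fun i hi => mem_actSet.1 hi
  rcases window y hΘpos d (t₁ - t₀) B hgood hadj K with ⟨k', hk', β, -, hnear⟩ |
    ⟨β, hβ, hmem, hminor⟩
  · have hsub : ((range (t₁ - t₀ + 1)).image B) ⊆ near y Θ d (y (B 0)) (diffs y (B 0) β) := by
      intro S hS
      obtain ⟨s, hs, rfl⟩ := mem_image.1 hS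
      rw [mem_range] at hs
      exact hnear s (by omega)
    have h3 := card_le_card hsub
    rw [card_image_of_injOn, card_range] at h3
    · refine h3.trans ((card_near_le y (dualVec_supp A c) Θ d _ _).trans ?_)
      rw [Fintype.card_fin]
      apply Nat.pow_le_pow_right (by omega)
      omega
    · intro s hs t ht h
      rw [coe_range, Set.mem_Iio] at hs ht
      have := path_act_injective hk hp (t₀ + s) (by omega) (t₀ + t) (by omega) h
      omega
  · exfalso
    obtain ⟨a, ha⟩ := g.coinc l hl (B 0) (hbas _ (by omega)).1 β hβ hminor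
    obtain ⟨s, hs, hβa⟩ := hmem a
    have h3 : ∑ i, diffs y (B 0) β a i * b i =
        ∑ j, c j * p (t₀ + s) j - ∑ j, c j * p t₀ j := by
      rw [hval _ (by omega), hval t₀ (by omega), ← Finset.sum_sub_distrib]
      refine Finset.sum_congr rfl fun i _ => ?_
      simp only [diffs, hβa, hB]
      rw [add_zero]
      ring
    rw [h3] at ha
    have hmono : ∀ u v, u ≤ v → v ≤ k → ∑ j, c j * p u j ≤ ∑ j, c j * p v j := by
      intro u v huv hv
      rcases Nat.lt_or_ge u v with h | h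
      · exact (path_strictMono hp u v h hv).le
      · have : u = v := by omega
        rw [this]
    have h4 := hmono t₀ (t₀ + s) (by omega) (by omega)
    have h5 := hmono (t₀ + s) t₁ (by omega) h1k
    rw [abs_of_nonneg (by linarith)] at ha
    linarith

/-- level of a value -/
noncomputable def lev (x : ℝ) : ℕ := Nat.log 2 ⌊|x|⌋₊

lemma lt_pow_lev (x : ℝ) : |x| < 2 ^ (lev x + 1) := by
  have h1 : ⌊|x|⌋₊ < 2 ^ (lev x + 1) := Nat.lt_pow_succ_log_self (by norm_num) _
  have h2 := Nat.lt_of_floor_lt h1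
  exact_mod_cast h2

lemma pow_lev_le {x : ℝ} (h : 0 < lev x) : (2 : ℝ) ^ lev x ≤ |x| := by
  have h0 : ⌊|x|⌋₊ ≠ 0 := by
    intro h0
    rw [lev, h0] at h
    simp at h
  have h1 : 2 ^ lev x ≤ ⌊|x|⌋₊ := Nat.pow_log_le_self 2 h0
  have h2 : ((2 ^ lev x : ℕ) : ℝ) ≤ (⌊|x|⌋₊ : ℝ) := by exact_mod_cast h1
  have h3 : (⌊|x|⌋₊ : ℝ) ≤ |x| := Nat.floor_le (abs_nonneg _)
  push_cast at h2
  linarith

lemma lev_le {x X : ℝ} {Λ : ℕ} (h : |x| ≤ X) (hX : X < 2 ^ (Λ + 1)) : lev x ≤ Λ := by
  by_contra hlt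
  push Not at hlt
  have h1 := pow_lev_le (x := x) (by omega)
  have h2 : (2 : ℝ) ^ (Λ + 1) ≤ 2 ^ lev x := pow_le_pow_right₀ (by norm_num) (by omega)
  linarith

/-- the cell of a value -/
noncomputable def cell (ε : ℝ) (x : ℝ) : Bool × ℕ × ℕ :=
  open Classical in
  (decide (0 ≤ x), lev x, ⌊|x| / (ε * 2 ^ lev x)⌋₊)

lemma floor_eq_abs_sub_lt {a b w : ℝ} (ha : 0 ≤ a) (hb : 0 ≤ b) (hw : 0 < w)
    (h : ⌊a / w⌋₊ = ⌊b / w⌋₊) : |a - b| ≤ w := by
  have h1 : (⌊a / w⌋₊ : ℝ) ≤ a / w := Nat.floor_le (by positivity)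
  have h2 : a / w < ⌊a / w⌋₊ + 1 := Nat.lt_floor_add_one _
  have h3 : (⌊b / w⌋₊ : ℝ) ≤ b / w := Nat.floor_le (by positivity)
  have h4 : b / w < ⌊b / w⌋₊ + 1 := Nat.lt_floor_add_one _
  rw [h] at h1 h2
  have h5 : |a / w - b / w| ≤ 1 := by
    rw [abs_le]; constructor <;> linarith
  rw [← sub_div, abs_div, abs_of_pos hw, div_le_one hw] at h5
  exact h5

/-- **Deterministic bound.** If `(A, b)` is good, then every monotone edge path is short. -/
lemma good_pathBound (hn : 0 < n) (hH : 0 < H) (hθ : 0 < θ) (hε : 0 < ε) (hK : 0 < K)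
    (g : Good A b c H θ ε Y K d Λ)
    (hp : ∀ t < k, Improving (feas A b) c (p t) (p (t + 1))) :
    k + 1 ≤ (m + 1) ^ (2 * (K - 1) + d) * (2 * ((Λ + 1) * (⌊2 / ε⌋₊ + 1))) := by
  classical
  rcases Nat.eq_zero_or_pos k with h0 | hk
  · subst h0
    have h1 : 0 < (m + 1) ^ (2 * (K - 1) + d) := by positivity
    have h2 : 0 < 2 * ((Λ + 1) * (⌊2 / ε⌋₊ + 1)) := by positivity
    have := Nat.mul_pos h1 h2
    omega
  set x : ℕ → ℝ := fun t => ∑ j, c j * p t j with hx
  have hbas : ∀ t, t ≤ k → IsBasis A (actSet A b (p t)) := fun t ht =>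
    act_isBasis g.nondeg (path_extreme hk hp t ht)
  have hval : ∀ t ≤ k, x t = ∑ i, dualVec A c (actSet A b (p t)) i * b i := fun t ht =>
    dual_value (hbas t ht) c fun i hi => mem_actSet.1 hi
  have hxabs : ∀ t ≤ k, |x t| ≤ n * ‖dualVec A c (actSet A b (p t))‖ * H := by
    intro t ht
    rw [hval t ht]
    exact abs_dual_sum_le (hbas t ht).1 c g.hb
  have hxX : ∀ t ≤ k, |x t| ≤ n * Y * H := by
    intro t ht
    refine (hxabs t ht).trans ?_
    have := g.large _ (hbas t ht)
    gcongr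
  have hmono : ∀ u v, u ≤ v → v ≤ k → x u ≤ x v := by
    intro u v huv hv
    rcases Nat.lt_or_ge u v with h | h
    · exact (path_strictMono hp u v h hv).le
    · have : u = v := by omega
      rw [this]
  set I : Finset (Bool × ℕ × ℕ) :=
    (univ : Finset Bool) ×ˢ ((range (Λ + 1)) ×ˢ (range (⌊2 / ε⌋₊ + 1))) with hI
  have hIcard : I.card = 2 * ((Λ + 1) * (⌊2 / ε⌋₊ + 1)) := by
    rw [hI, card_product, card_product, card_range, card_range, card_univ, Fintype.card_bool]
  have hmaps : ∀ t ∈ range (k + 1), cell ε (x t) ∈ I := by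
    intro t ht
    rw [mem_range] at ht
    have h1 : lev (x t) ≤ Λ := lev_le (hxX t (by omega)) g.lam
    simp only [hI, cell, mem_product, mem_univ, true_and, mem_range]
    refine ⟨by omega, Nat.lt_succ_of_le (Nat.floor_le_floor ?_)⟩
    have h2 := lt_pow_lev (x t)
    rw [div_le_div_iff₀ (by positivity) hε]
    have h3 : (2 : ℝ) ^ (lev (x t) + 1) = 2 * 2 ^ lev (x t) := by ring
    rw [h3] at h2
    nlinarith
  have hfib : ∀ C ∈ I, ((range (k + 1)).filter fun t => cell ε (x t) = C).card ≤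
      (m + 1) ^ (2 * (K - 1) + d) := by
    intro C _
    set F := (range (k + 1)).filter fun t => cell ε (x t) = C with hF
    rcases F.eq_empty_or_nonempty with h0 | hne
    · rw [h0, card_empty]; positivity
    set t₀ := F.min' hne with ht₀
    set t₁ := F.max' hne with ht₁
    have hmem₀ : t₀ ∈ F := F.min'_mem hne
    have hmem₁ : t₁ ∈ F := F.max'_mem hne
    have h01 : t₀ ≤ t₁ := F.min'_le _ hmem₁
    rw [hF, mem_filter, mem_range] at hmem₀ hmem₁
    have hC : cell ε (x t₀) = cell ε (x t₁) := hmem₀.2.trans hmem₁.2.symm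
    simp only [cell, Prod.mk.injEq, decide_eq_decide] at hC
    obtain ⟨hsign, hlev, hcell⟩ := hC
    rw [← hlev] at hcell
    have hw : 0 < ε * 2 ^ lev (x t₀) := by positivity
    have hdist := floor_eq_abs_sub_lt (abs_nonneg _) (abs_nonneg _) hw hcell
    have hle : F.card ≤ t₁ - t₀ + 1 := by
      have : F ⊆ Icc t₀ t₁ := by
        intro t ht
        rw [mem_Icc]
        exact ⟨F.min'_le _ ht, F.le_max' _ ht⟩
      have := card_le_card this
      rw [Nat.card_Icc] at this
      omega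
    refine hle.trans ?_
    apply block_bound hn hH hθ hK g hk hp (l := lev (x t₀))
      (lev_le (hxX t₀ (by omega)) g.lam) h01 (by omega)
    · change x t₁ - x t₀ ≤ _
      have h3 := hmono t₀ t₁ h01 (by omega)
      rcases le_or_gt 0 (x t₀) with h4 | h4
      · have h5 := hsign.1 h4
        rw [abs_of_nonneg h4, abs_of_nonneg h5] at hdist
        rw [abs_le] at hdist
        linarith [hdist.1]
      · have h5 : x t₁ < 0 := by
          by_contra h6
          exact absurd (hsign.2 (not_lt.1 h6)) (not_le.2 h4)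
        rw [abs_of_neg h4, abs_of_neg h5, abs_le] at hdist
        linarith [hdist.2]
    · intro t ht ht'
      rcases Nat.eq_zero_or_pos (lev (x t₀)) with h3 | h3
      · rw [h3, pow_zero]
        exact one_le_norm_dualVec (hbas t (by omega)) g.one g.hA
      · refine le_trans ?_ (hxabs t (by omega))
        have h4 := pow_lev_le h3
        have h4' : (2 : ℝ) ^ lev (x t₀) ≤ |x t₁| := by
          rw [hlev]
          exact pow_lev_le (by rw [← hlev]; exact h3)
        have h5 := hmono t₀ t ht (by omega)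
        have h6 := hmono t t₁ ht' (by omega)
        rcases le_or_gt 0 (x t₀) with h7 | h7
        · rw [abs_of_nonneg h7] at h4
          rw [abs_of_nonneg (by linarith)]
          linarith
        · have h8 : x t₁ < 0 := by
            by_contra h9
            exact absurd (hsign.2 (not_lt.1 h9)) (not_le.2 h7)
          rw [abs_of_neg h8] at h4'
          rw [abs_of_neg (by linarith)]
          linarith
  have hfinal := Finset.card_le_mul_card_image_of_maps_to hmaps _ hfib
  rw [card_range, hIcard] at hfinal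
  exact hfinal

end Bound

end Run7.h302
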