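import Pool.Agent.Run7.h302.PathBound

open MeasureTheory ProbabilityTheory Finset
open scoped ENNReal

namespace Run7.h302

lemma gaussian_tail {σ : ℝ} (hσ : 0 < σ) (t : ℝ) :
    gaussianReal 0 (Real.toNNReal (σ ^ 2)) {x | σ * t < |x|} ≤
      ENNReal.ofReal (2 * Real.exp (1 / 2 - t)) := by
  set v := Real.toNNReal (σ ^ 2) with hv
  have hcoe : (v : ℝ) = σ ^ 2 := Real.coe_toNNReal _ (by positivity)
  have hmgf : ∀ s : ℝ, mgf id (gaussianReal 0 v) s = Real.exp (σ ^ 2 * s ^ 2 / 2) := by
    intro s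
    rw [mgf_id_gaussianReal, hcoe]
    simp
  have h1 : (gaussianReal 0 v).real {x | σ * t ≤ id x} ≤ Real.exp (1 / 2 - t) := by
    have := measure_ge_le_exp_mul_mgf (μ := gaussianReal 0 v) (X := id) (t := 1 / σ) (σ * t)
      (by positivity) (integrable_exp_mul_gaussianReal _)
    rw [hmgf, ← Real.exp_add] at this
    refine this.trans (le_of_eq ?_)
    congr 1
    field_simp
    ring
  have h2 : (gaussianReal 0 v).real {x | id x ≤ -(σ * t)} ≤ Real.exp (1 / 2 - t) := by
    have := measure_le_le_exp_mul_mgf (μ := gaussianReal 0 v) (X := id) (t := -(1 / σ)) (-(σ * t))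
      (by simp [hσ.le]) (integrable_exp_mul_gaussianReal _)
    rw [hmgf, ← Real.exp_add] at this
    refine this.trans (le_of_eq ?_)
    congr 1
    field_simp
    ring
  have hsub : {x : ℝ | σ * t < |x|} ⊆ {x | σ * t ≤ id x} ∪ {x | id x ≤ -(σ * t)} := by
    intro x hx
    have hx' : σ * t < |x| := hx
    rcases lt_abs.1 hx' with h | h
    · left; exact h.le
    · right
      change x ≤ -(σ * t)
      linarith
  calc gaussianReal 0 v {x | σ * t < |x|}
      ≤ gaussianReal 0 v ({x | σ * t ≤ id x} ∪ {x | id x ≤ -(σ * t)}) := measure_mono hsub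
    _ ≤ gaussianReal 0 v {x | σ * t ≤ id x} + gaussianReal 0 v {x | id x ≤ -(σ * t)} :=
        measure_union_le _ _
    _ ≤ ENNReal.ofReal (Real.exp (1 / 2 - t)) + ENNReal.ofReal (Real.exp (1 / 2 - t)) := by
        apply add_le_add
        · rw [← ofReal_measureReal]
          exact ENNReal.ofReal_le_ofReal h1
        · rw [← ofReal_measureReal]
          exact ENNReal.ofReal_le_ofReal h2
    _ = ENNReal.ofReal (2 * Real.exp (1 / 2 - t)) := by
        rw [← ENNReal.ofReal_add (Real.exp_nonneg _) (Real.exp_nonneg _)]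
        congr 1
        ring

/-- the law of the perturbation of the right-hand side -/
noncomputable abbrev noiseB (m : ℕ) (σ : ℝ) : Measure (Fin m → ℝ) :=
  Measure.pi fun _ => gaussianReal 0 (Real.toNNReal (σ ^ 2))

lemma noiseB_tail {m : ℕ} {σ : ℝ} (hσ : 0 < σ) (t : ℝ) :
    noiseB m σ {g | ∃ i, σ * t < |g i|} ≤ m * ENNReal.ofReal (2 * Real.exp (1 / 2 - t)) := by
  have hset : {g : Fin m → ℝ | ∃ i, σ * t < |g i|} = ⋃ i, {g | σ * t < |g i|} := by
    ext g; simp
  rw [hset]
  refine (measure_iUnion_fintype_le _ _).trans ?_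
  refine (Finset.sum_le_sum (g := fun _ => ENNReal.ofReal (2 * Real.exp (1 / 2 - t))) ?_).trans ?_
  · intro i _
    have hmp := measurePreserving_eval (fun _ : Fin m => gaussianReal 0 (Real.toNNReal (σ ^ 2))) i
    have hm : MeasurableSet {x : ℝ | σ * t < |x|} :=
      measurableSet_lt measurable_const measurable_abs
    have := hmp.measure_preimage hm.nullMeasurableSet
    rw [Set.preimage_ofPred_eq] at this
    rw [this]
    exact gaussian_tail hσ t
  · simp

lemma noiseA_tail {m n : ℕ} {σ : ℝ} (hσ : 0 < σ) (t : ℝ) :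
    noiseA m n σ {G | ∃ i j, σ * t < |G i j|} ≤
      m * (n * ENNReal.ofReal (2 * Real.exp (1 / 2 - t))) := by
  have hset : {G : Fin m → Fin n → ℝ | ∃ i j, σ * t < |G i j|} =
      ⋃ i, {G | ∃ j, σ * t < |G i j|} := by
    ext g; simp
  rw [hset]
  refine (measure_iUnion_fintype_le _ _).trans ?_
  refine (Finset.sum_le_sum (g := fun _ => n * ENNReal.ofReal (2 * Real.exp (1 / 2 - t))) ?_).trans ?_
  · intro i _
    have hmp := measurePreserving_eval (fun _ : Fin m => noiseB n σ) i
    have hm : MeasurableSet {x : Fin n → ℝ | ∃ j, σ * t < |x j|} := by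
      have : {x : Fin n → ℝ | ∃ j, σ * t < |x j|} = ⋃ j, {x | σ * t < |x j|} := by
        ext g; simp
      rw [this]
      refine MeasurableSet.iUnion fun j => ?_
      exact measurableSet_lt measurable_const (by fun_prop)
    have := hmp.measure_preimage hm.nullMeasurableSet
    rw [Set.preimage_ofPred_eq] at this
    rw [this]
    exact noiseB_tail hσ t
  · simp

/-- for a fixed matrix, almost all right-hand sides are nondegenerate -/
lemma ae_nondeg {m n : ℕ} {σ : ℝ} (hσ : 0 < σ) (A : Fin m → Fin n → ℝ) (b₀ : Fin m → ℝ) :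
    ∀ᵐ g ∂(noiseB m σ), Nondeg A (b₀ + g) := by
  have h : ∀ S : Finset (Fin m), ∀ i : Fin m, ∀ᵐ g ∂(noiseB m σ),
      IsBasis A S → i ∉ S → ∀ x : Fin n → ℝ, (∀ k ∈ S, ∑ j, A k j * x j = (b₀ + g) k) →
        ∑ j, A i j * x j ≠ (b₀ + g) i := by
    intro S i
    by_cases hS : IsBasis A S
    · by_cases hi : i ∉ S
      · set y := dualVec A (A i) S with hy
        set δ : Fin 1 → Fin m → ℝ := fun _ k => y k - if k = i then 1 else 0 with hδ
        have key := gaussian_smallball hσ δ (fun a => ∑ k, δ a k * b₀ k) (fun _ => i) (ρ := 0)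
          le_rfl (D := 1) one_pos (by
            rw [Matrix.det_fin_one]
            simp [hδ, hy, dualVec_supp A (A i) S i hi])
        have hz : (noiseB m σ) {g | ∀ a, |(∑ k, δ a k * g k) + ∑ k, δ a k * b₀ k| ≤ 0} = 0 := by
          refine le_antisymm (key.trans ?_) (zero_le)
          simp
        rw [← compl_mem_ae_iff] at hz
        filter_upwards [hz] with g hg _ _ x hx heq
        apply hg
        intro a
        rw [← Finset.sum_add_distrib, abs_nonpos_iff]
        have h1 : ∑ j, A i j * x j = ∑ k, y k * (b₀ + g) k := dual_value hS (A i) hx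
        rw [h1] at heq
        have h2 : ∑ k, (δ a k * g k + δ a k * b₀ k) =
            ∑ k, y k * (b₀ + g) k - (b₀ + g) i := by
          have h3 : (b₀ + g) i = ∑ k, (if k = i then 1 else 0) * (b₀ + g) k := by simp
          rw [h3, ← Finset.sum_sub_distrib]
          refine Finset.sum_congr rfl fun k _ => ?_
          simp only [hδ, Pi.add_apply]
          ring
        rw [h2, heq, sub_self]
      · exact Filter.Eventually.of_forall fun g _ h => absurd h hi
    · exact Filter.Eventually.of_forall fun g h => absurd h hS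
  have h' := ae_all_iff.2 fun S => ae_all_iff.2 (h S)
  filter_upwards [h'] with g hg S hS x hx i hi
  exact hg S i hS hi x hx

/-- for a fixed matrix, the probability of too many coincidences of objective values -/
lemma coinc_le {m n : ℕ} {σ : ℝ} (hσ : 0 < σ) (A : Fin m → Fin n → ℝ) (b₀ : Fin m → ℝ)
    (c : Fin n → ℝ) (hn : 0 < n) {H θ ε : ℝ} (hH : 0 < H) (hθ : 0 < θ) (hε : 0 < ε) (K d Λ : ℕ) :
    (noiseB m σ) {g | ¬ ∀ l ≤ Λ, ∀ S₀ : Finset (Fin m), S₀.card = n →
      ∀ β ∈ adm (dualVec A c) (thr n H θ l) d S₀ K,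
        HasMinor K (diffs (dualVec A c) S₀ β) (thr n H θ l ^ K) →
          ∃ a, ε * 2 ^ l < |∑ i, diffs (dualVec A c) S₀ β a i * (b₀ + g) i|} ≤
      ((Λ + 1 : ℕ) * (m.choose n * ((m + 1) ^ (K * K + K * (d + 1)) : ℕ)) : ℝ≥0∞) *
        ENNReal.ofReal ((2 * n * H * ε / (σ * θ)) ^ K) := by
  classical
  have hn' : (0 : ℝ) < n := by exact_mod_cast hn
  set y := dualVec A c with hy
  set E : ℕ → Finset (Fin m) → (Fin K → Finset (Fin m)) → Set (Fin m → ℝ) := fun l S₀ β =>
    {g | HasMinor K (diffs y S₀ β) (thr n H θ l ^ K) ∧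
      ∀ a, |∑ i, diffs y S₀ β a i * (b₀ + g) i| ≤ ε * 2 ^ l} with hE
  have hsub : {g | ¬ ∀ l ≤ Λ, ∀ S₀ : Finset (Fin m), S₀.card = n →
      ∀ β ∈ adm y (thr n H θ l) d S₀ K,
        HasMinor K (diffs y S₀ β) (thr n H θ l ^ K) →
          ∃ a, ε * 2 ^ l < |∑ i, diffs y S₀ β a i * (b₀ + g) i|} ⊆
      ⋃ l ∈ range (Λ + 1), ⋃ S₀ ∈ powersetCard n (univ : Finset (Fin m)),
        ⋃ β ∈ adm y (thr n H θ l) d S₀ K, E l S₀ β := by
    intro g hg
    simp only [Set.mem_ofPred_eq] at hg
    push Not at hg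
    obtain ⟨l, hl, S₀, hS₀, β, hβ, hmin, hle⟩ := hg
    simp only [Set.mem_iUnion]
    exact ⟨l, mem_range.2 (by omega), S₀, mem_powersetCard.2 ⟨subset_univ _, hS₀⟩, β, hβ, hmin, hle⟩
  have hEle : ∀ l S₀ β, (noiseB m σ) (E l S₀ β) ≤
      ENNReal.ofReal ((2 * n * H * ε / (σ * θ)) ^ K) := by
    intro l S₀ β
    by_cases hmin : HasMinor K (diffs y S₀ β) (thr n H θ l ^ K)
    · obtain ⟨I, hI⟩ := hmin
      have hthr : 0 < thr n H θ l := by rw [thr]; positivity
      have key := gaussian_smallball hσ (diffs y S₀ β) (fun a => ∑ i, diffs y S₀ β a i * b₀ i) I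
        (ρ := ε * 2 ^ l) (by positivity) (D := thr n H θ l ^ K) (by positivity) hI
      refine le_trans (measure_mono ?_) (key.trans (le_of_eq ?_))
      · rintro g ⟨-, hg⟩ a
        have := hg a
        rw [← Finset.sum_add_distrib]
        refine le_trans (le_of_eq ?_) this
        congr 1
        refine Finset.sum_congr rfl fun i _ => ?_
        simp only [Pi.add_apply]
        ring
      · rw [← div_pow]
        congr 2
        rw [thr]
        field_simp
    · have : E l S₀ β = ∅ := by
        rw [hE]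
        ext g
        simp [hmin]
      rw [this, measure_empty]
      exact zero_le
  refine (measure_mono hsub).trans ?_
  set P := ENNReal.ofReal ((2 * n * H * ε / (σ * θ)) ^ K) with hP
  calc (noiseB m σ) (⋃ l ∈ range (Λ + 1), ⋃ S₀ ∈ powersetCard n (univ : Finset (Fin m)),
        ⋃ β ∈ adm y (thr n H θ l) d S₀ K, E l S₀ β)
      ≤ ∑ l ∈ range (Λ + 1), ∑ S₀ ∈ powersetCard n (univ : Finset (Fin m)),
          ∑ β ∈ adm y (thr n H θ l) d S₀ K, (noiseB m σ) (E l S₀ β) := by
        refine (measure_biUnion_finset_le _ _).trans (Finset.sum_le_sum fun l _ => ?_)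
        refine (measure_biUnion_finset_le _ _).trans (Finset.sum_le_sum fun S₀ _ => ?_)
        exact measure_biUnion_finset_le _ _
    _ ≤ ∑ l ∈ range (Λ + 1), ∑ S₀ ∈ powersetCard n (univ : Finset (Fin m)),
          (((m + 1) ^ (K * K + K * (d + 1)) : ℕ) : ℝ≥0∞) * P := by
        refine Finset.sum_le_sum fun l _ => Finset.sum_le_sum fun S₀ _ => ?_
        calc ∑ β ∈ adm y (thr n H θ l) d S₀ K, (noiseB m σ) (E l S₀ β)
            ≤ ∑ β ∈ adm y (thr n H θ l) d S₀ K, P := Finset.sum_le_sum fun β _ => hEle l S₀ β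
          _ = ((adm y (thr n H θ l) d S₀ K).card : ℝ≥0∞) * P := by
              rw [Finset.sum_const, nsmul_eq_mul]
          _ ≤ _ := by
              gcongr
              have := card_adm_le y (dualVec_supp A c) (thr n H θ l) d S₀ K
              rwa [Fintype.card_fin] at this
    _ = _ := by
        rw [Finset.sum_const, Finset.sum_const, card_range, card_powersetCard, card_univ,
          Fintype.card_fin, nsmul_eq_mul, nsmul_eq_mul]
        push_cast
        ring

end Run7.h302
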