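import Pool.Agent.Run7.h302.SmallBall

open MeasureTheory ProbabilityTheory Finset
open scoped ENNReal

namespace Run7.h302

/-- a triangular system of bounded vectors orthogonal to few given vectors -/
lemma exists_triangular {n : ℕ} {κ : Type*} [Fintype κ] (v : κ → Fin n → ℝ) (d : ℕ)
    (hd : Fintype.card κ + d ≤ n) :
    ∃ (h : Fin d → Fin n → ℝ) (J : Fin d → Fin n),
      (∀ a l, ∑ j, h a j * v l j = 0) ∧ (∀ a j, |h a j| ≤ 1) ∧ (∀ a, h a (J a) = 1) ∧
      (∀ a b, b < a → h a (J b) = 0) := by
  classical
  induction d with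
  | zero => exact ⟨fun a => a.elim0, fun a => a.elim0, fun a => a.elim0, fun a => a.elim0,
      fun a => a.elim0, fun a => a.elim0⟩
  | succ d ih =>
    obtain ⟨h, J, h1, h2, h3, h4⟩ := ih (by omega)
    -- a nonzero solution of the linear system
    set M : Matrix (κ ⊕ Fin d) (Fin n) ℝ :=
      Matrix.of fun r j => Sum.elim (fun l => v l j) (fun b => if j = J b then 1 else 0) r with hM
    have hker : M.mulVecLin.ker ≠ ⊥ := by
      apply LinearMap.ker_ne_bot_of_finrank_lt
      rw [Module.finrank_fintype_fun_eq_card, Module.finrank_fintype_fun_eq_card]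
      simp only [Fintype.card_sum, Fintype.card_fin]
      omega
    obtain ⟨x, hxmem, hx0⟩ := Submodule.exists_mem_ne_zero_of_ne_bot hker
    have hx : ∀ r, ∑ j, M r j * x j = 0 := by
      intro r
      have := congrFun (LinearMap.mem_ker.1 hxmem) r
      simpa [Matrix.mulVec, dotProduct] using this
    have hxv : ∀ l, ∑ j, x j * v l j = 0 := by
      intro l
      have := hx (Sum.inl l)
      simp only [hM, Matrix.of_apply, Sum.elim_inl] at this
      rw [← this]
      exact Finset.sum_congr rfl fun j _ => mul_comm _ _
    have hxJ : ∀ b, x (J b) = 0 := by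
      intro b
      have := hx (Sum.inr b)
      simpa [hM] using this
    have hn : Nonempty (Fin n) := by
      by_contra hne
      rw [not_nonempty_iff] at hne
      exact hx0 (funext fun j => isEmptyElim j)
    obtain ⟨j₀, -, hj₀⟩ := Finset.exists_max_image (univ : Finset (Fin n)) (fun j => |x j|)
      univ_nonempty
    have hxj₀ : x j₀ ≠ 0 := by
      intro h0
      apply hx0
      funext j
      have := hj₀ j (mem_univ _)
      rw [h0, abs_zero] at this
      exact abs_nonpos_iff.1 this
    have hpos : 0 < |x j₀| := abs_pos.2 hxj₀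
    refine ⟨Fin.snoc h (fun j => x j / x j₀), Fin.snoc J j₀, ?_, ?_, ?_, ?_⟩
    · intro a l
      refine Fin.lastCases ?_ (fun a => ?_) a
      · simp only [Fin.snoc_last]
        have : ∑ j, x j / x j₀ * v l j = (∑ j, x j * v l j) / x j₀ := by
          rw [Finset.sum_div]
          exact Finset.sum_congr rfl fun j _ => by ring
        rw [this, hxv l, zero_div]
      · simp only [Fin.snoc_castSucc]
        exact h1 a l
    · intro a j
      refine Fin.lastCases ?_ (fun a => ?_) a
      · simp only [Fin.snoc_last]
        rw [abs_div, div_le_one hpos]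
        exact hj₀ j (mem_univ _)
      · simp only [Fin.snoc_castSucc]
        exact h2 a j
    · intro a
      refine Fin.lastCases ?_ (fun a => ?_) a
      · simp only [Fin.snoc_last]
        exact div_self hxj₀
      · simp only [Fin.snoc_castSucc]
        exact h3 a
    · intro a b
      refine Fin.lastCases ?_ (fun a => ?_) a
      · refine Fin.lastCases ?_ (fun b => ?_) b
        · intro hlt
          exact absurd hlt (lt_irrefl _)
        · intro _
          simp only [Fin.snoc_last, Fin.snoc_castSucc]
          rw [hxJ b, zero_div]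
      · refine Fin.lastCases ?_ (fun b => ?_) b
        · intro hlt
          exact absurd hlt (not_lt.2 (Fin.le_last _))
        · intro hlt
          simp only [Fin.snoc_castSucc]
          exact h4 a b (by simpa using hlt)

/-- the probability that a Gaussian row is close to the span of few given vectors -/
lemma row_section_le {n : ℕ} {κ : Type*} [Fintype κ] (v : κ → Fin n → ℝ) (d : ℕ)
    (hd : Fintype.card κ + d ≤ n) (a₀ : Fin n → ℝ) {σ τ : ℝ} (hσ : 0 < σ) (hτ : 0 ≤ τ) :
    (Measure.pi fun _ : Fin n => gaussianReal 0 (Real.toNNReal (σ ^ 2)))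
      {g | ∃ w : κ → ℝ, ∀ j, |(a₀ j + g j) - ∑ l, w l * v l j| ≤ τ} ≤
      ENNReal.ofReal ((n * τ / σ) ^ d) := by
  obtain ⟨h, J, h1, h2, h3, h4⟩ := exists_triangular v d hd
  have hdet : (Matrix.of fun a b => h a (J b)).det = 1 := by
    rw [Matrix.det_of_isUpperTriangular]
    · simp [h3]
    · intro a b hab
      exact h4 a b hab
  have key := gaussian_smallball hσ h (fun a => ∑ j, h a j * a₀ j) J (ρ := n * τ) (by positivity)
    (D := 1) one_pos (by rw [hdet, abs_one])
  rw [div_one] at key
  refine le_trans (measure_mono ?_) key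
  rintro g ⟨w, hw⟩ a
  have hsum : (∑ j, h a j * g j) + ∑ j, h a j * a₀ j =
      ∑ j, h a j * ((a₀ j + g j) - ∑ l, w l * v l j) := by
    have h5 : ∑ j, h a j * ∑ l, w l * v l j = 0 := by
      have : ∀ j, h a j * ∑ l, w l * v l j = ∑ l, w l * (h a j * v l j) := by
        intro j
        rw [Finset.mul_sum]
        exact Finset.sum_congr rfl fun l _ => by ring
      rw [Finset.sum_congr rfl fun j _ => this j, Finset.sum_comm]
      apply Finset.sum_eq_zero
      intro l _
      rw [← Finset.mul_sum, h1 a l, mul_zero]
    have h6 : ∀ j, h a j * ((a₀ j + g j) - ∑ l, w l * v l j) =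
        h a j * g j + h a j * a₀ j - h a j * ∑ l, w l * v l j := fun j => by ring
    rw [Finset.sum_congr rfl fun j _ => h6 j, Finset.sum_sub_distrib, h5, sub_zero,
      Finset.sum_add_distrib]
  rw [hsum]
  calc |∑ j, h a j * ((a₀ j + g j) - ∑ l, w l * v l j)|
      ≤ ∑ j, |h a j * ((a₀ j + g j) - ∑ l, w l * v l j)| := Finset.abs_sum_le_sum_abs _ _
    _ ≤ ∑ _j : Fin n, τ := by
        apply Finset.sum_le_sum
        intro j _
        rw [abs_mul]
        calc |h a j| * |(a₀ j + g j) - ∑ l, w l * v l j| ≤ 1 * τ :=
              mul_le_mul (h2 a j) (hw j) (abs_nonneg _) zero_le_one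
          _ = τ := one_mul _
    _ = n * τ := by simp

/-- sectionwise bounds for a product of probability measures -/
lemma pi_measure_le_of_section {ι : Type*} [Fintype ι] [DecidableEq ι] {X : ι → Type*}
    [∀ i, MeasurableSpace (X i)] (μ : ∀ i, Measure (X i)) [∀ i, IsProbabilityMeasure (μ i)]
    (i₀ : ι) (E : Set (∀ i, X i)) (hE : MeasurableSet E) (ε : ℝ≥0∞)
    (h : ∀ x, μ i₀ {t | Function.update x i₀ t ∈ E} ≤ ε) : Measure.pi μ E ≤ ε := by
  have h1 : ∫⁻ x, E.indicator 1 x ∂(Measure.pi μ) ≤ ∫⁻ _x, ε ∂(Measure.pi μ) := by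
    apply lintegral_le_of_lmarginal_le {i₀} (measurable_one.indicator hE) measurable_const
    rw [lmarginal_singleton, lmarginal_singleton]
    intro x
    simp only [lintegral_const, measure_univ, mul_one]
    have : (fun t => E.indicator (1 : (∀ i, X i) → ℝ≥0∞) (Function.update x i₀ t)) =
        Set.indicator {t | Function.update x i₀ t ∈ E} 1 := by
      funext t
      by_cases ht : Function.update x i₀ t ∈ E
      · rw [Set.indicator_of_mem ht, Set.indicator_of_mem (show t ∈ {t | Function.update x i₀ t ∈ E} from ht)]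
        rfl
      · rw [Set.indicator_of_notMem ht, Set.indicator_of_notMem (show t ∉ {t | Function.update x i₀ t ∈ E} from ht)]
    rw [this, lintegral_indicator_one]
    · exact h x
    · exact (measurable_update x) hE
  rw [lintegral_indicator_one hE] at h1
  simpa using h1

end Run7.h302
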