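import Pool.Agent.Run7.h302.RowBad

open MeasureTheory ProbabilityTheory Finset
open scoped ENNReal

namespace Run7.h302

/-- the event that row `i₀` of `A₀ + G` is `τ`-close to the span of `c` and the rows in `W` -/
def rowBad {m n : ℕ} (A₀ : Fin m → Fin n → ℝ) (c : Fin n → ℝ) (W : Finset (Fin m)) (i₀ : Fin m)
    (τ : ℝ) : Set (Fin m → Fin n → ℝ) :=
  {G | ∃ (s : ℝ) (w : Fin m → ℝ), ∀ j,
    |(A₀ i₀ j + G i₀ j) - (s * c j + ∑ i ∈ W, w i * (A₀ i j + G i j))| ≤ τ}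

lemma measurableSet_rowBad {m n : ℕ} (A₀ : Fin m → Fin n → ℝ) (c : Fin n → ℝ)
    (W : Finset (Fin m)) (i₀ : Fin m) (τ : ℝ) : MeasurableSet (rowBad A₀ c W i₀ τ) := by
  have hU : rowBad A₀ c W i₀ τ = ⋃ R : ℕ, {G | ∃ y : Metric.closedBall (0 : ℝ × (Fin m → ℝ)) R,
      ∀ j, |(A₀ i₀ j + G i₀ j) - (y.1.1 * c j + ∑ i ∈ W, y.1.2 i * (A₀ i j + G i j))| ≤ τ} := by
    ext G
    simp only [rowBad, Set.mem_iUnion]
    constructor
    · rintro ⟨s, w, h⟩
      obtain ⟨R, hR⟩ := exists_nat_ge ‖((s, w) : ℝ × (Fin m → ℝ))‖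
      exact ⟨R, ⟨⟨(s, w), by simpa using hR⟩, h⟩⟩
    · rintro ⟨R, y, h⟩
      exact ⟨y.1.1, y.1.2, h⟩
  rw [hU]
  refine MeasurableSet.iUnion fun R => ?_
  apply IsClosed.measurableSet
  have : CompactSpace (Metric.closedBall (0 : ℝ × (Fin m → ℝ)) R) :=
    isCompact_iff_compactSpace.1 (isCompact_closedBall _ _)
  set C : Set ((Fin m → Fin n → ℝ) × Metric.closedBall (0 : ℝ × (Fin m → ℝ)) R) :=
    {x | ∀ j, |(A₀ i₀ j + x.1 i₀ j) -
      (x.2.1.1 * c j + ∑ i ∈ W, x.2.1.2 i * (A₀ i j + x.1 i j))| ≤ τ} with hC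
  have hCc : IsClosed C := by
    have : C = ⋂ j, {x | |(A₀ i₀ j + x.1 i₀ j) -
      (x.2.1.1 * c j + ∑ i ∈ W, x.2.1.2 i * (A₀ i j + x.1 i j))| ≤ τ} := by
      ext x; simp [hC]
    rw [this]
    refine isClosed_iInter fun j => ?_
    apply isClosed_le
    · fun_prop
    · fun_prop
  have himg : {G | ∃ y : Metric.closedBall (0 : ℝ × (Fin m → ℝ)) R,
      ∀ j, |(A₀ i₀ j + G i₀ j) - (y.1.1 * c j + ∑ i ∈ W, y.1.2 i * (A₀ i j + G i j))| ≤ τ} =
      Prod.fst '' C := by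
    ext G
    simp only [Set.mem_image, hC]
    constructor
    · rintro ⟨y, hy⟩
      exact ⟨(G, y), hy, rfl⟩
    · rintro ⟨⟨G', y⟩, hy, rfl⟩
      exact ⟨y, hy⟩
  rw [himg]
  exact isClosedMap_fst_of_compactSpace _ hCc

/-- the law of the perturbation of the matrix -/
noncomputable abbrev noiseA (m n : ℕ) (σ : ℝ) : Measure (Fin m → Fin n → ℝ) :=
  Measure.pi fun _ => Measure.pi fun _ => gaussianReal 0 (Real.toNNReal (σ ^ 2))

lemma rowBad_le {m n : ℕ} (A₀ : Fin m → Fin n → ℝ) (c : Fin n → ℝ)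
    (W : Finset (Fin m)) (i₀ : Fin m) (hi₀ : i₀ ∉ W) (d : ℕ) (hd : W.card + 1 + d ≤ n)
    {σ τ : ℝ} (hσ : 0 < σ) (hτ : 0 ≤ τ) :
    noiseA m n σ (rowBad A₀ c W i₀ τ) ≤ ENNReal.ofReal ((n * τ / σ) ^ d) := by
  apply pi_measure_le_of_section _ i₀ _ (measurableSet_rowBad A₀ c W i₀ τ)
  intro G
  have key := row_section_le (κ := Option W)
    (fun l => Option.elim l c fun i => fun j => A₀ i j + G i j) d (by simpa using hd) (A₀ i₀) hσ hτ
  refine le_trans (measure_mono ?_) key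
  rintro g ⟨s, w, h⟩
  refine ⟨fun l => Option.elim l s fun i => w i, fun j => ?_⟩
  have := h j
  rw [Function.update_self] at this
  rw [Fintype.sum_option]
  simp only [Option.elim_none, Option.elim_some]
  have hs : ∑ i ∈ W, w i * (A₀ i j + Function.update G i₀ g i j) =
      ∑ i : W, w i * (A₀ i j + G i j) := by
    rw [← Finset.sum_coe_sort W]
    refine Finset.sum_congr rfl fun i _ => ?_
    have hne : (i : Fin m) ≠ i₀ := fun h => hi₀ (h ▸ i.2)
    rw [Function.update_of_ne hne]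
  rw [hs] at this
  exact this

/-- the version without the vector `c` -/
lemma rowBad_zero_le {m n : ℕ} (A₀ : Fin m → Fin n → ℝ)
    (W : Finset (Fin m)) (i₀ : Fin m) (hi₀ : i₀ ∉ W) (d : ℕ) (hd : W.card + d ≤ n)
    {σ τ : ℝ} (hσ : 0 < σ) (hτ : 0 ≤ τ) :
    noiseA m n σ (rowBad A₀ 0 W i₀ τ) ≤ ENNReal.ofReal ((n * τ / σ) ^ d) := by
  apply pi_measure_le_of_section _ i₀ _ (measurableSet_rowBad A₀ 0 W i₀ τ)
  intro G
  have key := row_section_le (κ := W)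
    (fun i => fun j => A₀ i j + G i j) d (by simpa using hd) (A₀ i₀) hσ hτ
  refine le_trans (measure_mono ?_) key
  rintro g ⟨s, w, h⟩
  refine ⟨fun i => w i, fun j => ?_⟩
  have := h j
  rw [Function.update_self] at this
  have hs : ∑ i ∈ W, w i * (A₀ i j + Function.update G i₀ g i j) =
      ∑ i : W, w i * (A₀ i j + G i j) := by
    rw [← Finset.sum_coe_sort W]
    refine Finset.sum_congr rfl fun i _ => ?_
    have hne : (i : Fin m) ≠ i₀ := fun h => hi₀ (h ▸ i.2)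
    rw [Function.update_of_ne hne]
  rw [hs] at this
  simpa using this

end Run7.h302
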