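import Mathlib

open MeasureTheory ProbabilityTheory
open scoped ENNReal

namespace Run7.h302

/-- centred Gaussian with standard deviation `σ` is dominated by Lebesgue measure. -/
lemma gaussian_le_volume {σ : ℝ} (hσ : 0 < σ) :
    gaussianReal 0 (Real.toNNReal (σ ^ 2)) ≤ ENNReal.ofReal (1 / (2 * σ)) • (volume : Measure ℝ) := by
  have hv : Real.toNNReal (σ ^ 2) ≠ 0 := by
    have : 0 < σ ^ 2 := by positivity
    exact (Real.toNNReal_pos.2 this).ne'
  rw [gaussianReal_of_var_ne_zero 0 hv]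
  have hle : gaussianPDF 0 (Real.toNNReal (σ ^ 2)) ≤ fun _ => ENNReal.ofReal (1 / (2 * σ)) := by
    intro x
    rw [gaussianPDF]
    apply ENNReal.ofReal_le_ofReal
    rw [gaussianPDFReal]
    have hcoe : ((Real.toNNReal (σ ^ 2) : NNReal) : ℝ) = σ ^ 2 := Real.coe_toNNReal _ (by positivity)
    rw [hcoe]
    have h1 : Real.exp (-(x - 0) ^ 2 / (2 * σ ^ 2)) ≤ 1 := by
      apply Real.exp_le_one_iff.2
      apply div_nonpos_of_nonpos_of_nonneg
      · nlinarith [sq_nonneg (x - 0)]
      · positivity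
    have h2 : 2 * σ ≤ Real.sqrt (2 * Real.pi * σ ^ 2) := by
      apply Real.le_sqrt_of_sq_le
      have hpi : 3 < Real.pi := Real.pi_gt_three
      nlinarith [sq_nonneg σ]
    have h3 : 0 < 2 * σ := by positivity
    calc (Real.sqrt (2 * Real.pi * σ ^ 2))⁻¹ * Real.exp (-(x - 0) ^ 2 / (2 * σ ^ 2))
        ≤ (2 * σ)⁻¹ * 1 := by
          apply mul_le_mul _ h1 (Real.exp_nonneg _) (by positivity)
          exact inv_anti₀ h3 h2
      _ = 1 / (2 * σ) := by rw [mul_one, one_div]
  calc volume.withDensity (gaussianPDF 0 (Real.toNNReal (σ ^ 2)))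
      ≤ volume.withDensity (fun _ => ENNReal.ofReal (1 / (2 * σ))) := withDensity_mono (ae_of_all _ hle)
    _ = ENNReal.ofReal (1 / (2 * σ)) • (volume : Measure ℝ) := by
        rw [withDensity_const]

/-- domination passes to finite products. -/
lemma pi_le_smul_pi {ι : Type*} [Fintype ι] (μ ν : Measure ℝ) [SigmaFinite μ] [SigmaFinite ν]
    (c : ℝ≥0∞) (hc0 : c ≠ 0) (hc : c ≠ ∞) (h : μ ≤ c • ν) :
    (Measure.pi fun _ : ι => μ) ≤ c ^ (Fintype.card ι) • (Measure.pi fun _ : ι => ν) := by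
  set N := Fintype.card ι with hN
  rw [Measure.le_iff]
  intro s hs
  have key : (c⁻¹ ^ N • (Measure.pi fun _ : ι => μ)).toOuterMeasure ≤
      OuterMeasure.pi fun _ : ι => ν.toOuterMeasure := by
    rw [OuterMeasure.le_pi]
    intro t _
    change (c⁻¹ ^ N • (Measure.pi fun _ : ι => μ)) (Set.pi Set.univ t) ≤ ∏ i, ν (t i)
    rw [Measure.smul_apply, Measure.pi_pi, smul_eq_mul]
    have h1 : ∏ i, μ (t i) ≤ ∏ i, (c * ν (t i)) := by
      apply Finset.prod_le_prod' 
      intro i _
      have := h (t i)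
      simpa using this
    calc c⁻¹ ^ N * ∏ i, μ (t i) ≤ c⁻¹ ^ N * ∏ i, (c * ν (t i)) := by gcongr
      _ = c⁻¹ ^ N * (c ^ N * ∏ i, ν (t i)) := by
          rw [Finset.prod_mul_distrib, Finset.prod_const, Finset.card_univ]
      _ = ∏ i, ν (t i) := by
          rw [← mul_assoc, ← mul_pow, ENNReal.inv_mul_cancel hc0 hc, one_pow, one_mul]
  have h2 := key s
  have h3 : (Measure.pi fun _ : ι => ν) s = (OuterMeasure.pi fun _ : ι => ν.toOuterMeasure) s := by
    rw [Measure.pi, toMeasure_apply _ _ hs]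
  rw [← h3] at h2
  change (c⁻¹ ^ N • (Measure.pi fun _ : ι => μ)) s ≤ _ at h2
  rw [Measure.smul_apply, smul_eq_mul] at h2
  rw [Measure.smul_apply, smul_eq_mul]
  calc (Measure.pi fun _ : ι => μ) s = (c ^ N * c⁻¹ ^ N) * (Measure.pi fun _ : ι => μ) s := by
        rw [← mul_pow, ENNReal.mul_inv_cancel hc0 hc, one_pow, one_mul]
    _ = c ^ N * (c⁻¹ ^ N * (Measure.pi fun _ : ι => μ) s) := by rw [mul_assoc]
    _ ≤ c ^ N * (Measure.pi fun _ : ι => ν) s := by gcongr

/-- the Lebesgue volume of the preimage of a cube -/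
lemma volume_cube {K : ℕ} (M : Matrix (Fin K) (Fin K) ℝ) (hM : M.det ≠ 0) (κ : Fin K → ℝ) {ρ : ℝ}
    (hρ : 0 ≤ ρ) :
    volume {u : Fin K → ℝ | ∀ a, |(∑ b, M a b * u b) + κ a| ≤ ρ} =
      ENNReal.ofReal ((2 * ρ) ^ K / |M.det|) := by
  have hset : {u : Fin K → ℝ | ∀ a, |(∑ b, M a b * u b) + κ a| ≤ ρ} =
      (Matrix.toLin' M) ⁻¹' (Set.Icc (fun a => -κ a - ρ) (fun a => -κ a + ρ)) := by
    ext u
    simp only [Set.mem_ofPred_eq, Set.mem_preimage, Matrix.toLin'_apply, Set.mem_Icc, Pi.le_def,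
      Matrix.mulVec, dotProduct, abs_le]
    constructor
    · intro h
      exact ⟨fun a => by linarith [(h a).1], fun a => by linarith [(h a).2]⟩
    · rintro ⟨h1, h2⟩ a
      exact ⟨by linarith [h1 a], by linarith [h2 a]⟩
  have hdet : LinearMap.det (Matrix.toLin' M) ≠ 0 := by
    rwa [LinearMap.det_toLin']
  rw [hset, Measure.addHaar_preimage_linearMap _ hdet, LinearMap.det_toLin', Real.volume_Icc_pi]
  rw [← ENNReal.ofReal_prod_of_nonneg, ← ENNReal.ofReal_mul (abs_nonneg _)]
  · congr 1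
    rw [abs_inv]
    have : ∀ i : Fin K, (-κ i + ρ - (-κ i - ρ)) = 2 * ρ := fun i => by ring
    simp_rw [this]
    rw [Finset.prod_const, Finset.card_univ, Fintype.card_fin, div_eq_inv_mul]
  · intro i _
    linarith

/-- small ball estimate, with the chosen coordinates given as a subtype -/
theorem gaussian_smallball_aux {ι : Type*} [Fintype ι] {K : ℕ} {σ : ℝ} (hσ : 0 < σ)
    (δ : Fin K → ι → ℝ) (κ : Fin K → ℝ) (p : ι → Prop) [DecidablePred p]
    (e : Fin K ≃ {i // p i}) {ρ : ℝ} (hρ : 0 ≤ ρ) {D : ℝ} (hD : 0 < D)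
    (hdet : D ≤ |(Matrix.of fun a b => δ a (e b)).det|) :
    (Measure.pi fun _ : ι => gaussianReal 0 (Real.toNNReal (σ ^ 2)))
      {g | ∀ a, |(∑ i, δ a i * g i) + κ a| ≤ ρ} ≤ ENNReal.ofReal ((ρ / σ) ^ K / D) := by
  set M : Matrix (Fin K) (Fin K) ℝ := Matrix.of fun a b => δ a (e b) with hMdef
  have hM : M.det ≠ 0 := by
    intro h0
    rw [h0, abs_zero] at hdet
    linarith
  set γ : Measure ℝ := gaussianReal 0 (Real.toNNReal (σ ^ 2)) with hγ
  set S : Set (ι → ℝ) := {g | ∀ a, |(∑ i, δ a i * g i) + κ a| ≤ ρ} with hS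
  have hSmeas : MeasurableSet S := by
    have : S = ⋂ a, {g : ι → ℝ | |(∑ i, δ a i * g i) + κ a| ≤ ρ} := by
      ext g; simp [hS]
    rw [this]
    refine MeasurableSet.iInter fun a => ?_
    apply measurableSet_le
    · fun_prop
    · fun_prop
  have hmp := measurePreserving_piEquivPiSubtypeProd (fun _ : ι => γ) p
  have hmp' := hmp.symm
  have h1 := hmp'.measure_preimage hSmeas.nullMeasurableSet
  rw [← h1]
  have hSm' : MeasurableSet ((MeasurableEquiv.piEquivPiSubtypeProd (fun _ : ι => ℝ) p).symm ⁻¹' S) :=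
    (MeasurableEquiv.measurable _) hSmeas
  rw [Measure.prod_apply_symm hSm']
  have hsec : ∀ y : {i // ¬ p i} → ℝ,
      (Measure.pi fun _ : {i // p i} => γ) ((fun x => (x, y)) ⁻¹'
        ((MeasurableEquiv.piEquivPiSubtypeProd (fun _ : ι => ℝ) p).symm ⁻¹' S)) ≤
        ENNReal.ofReal ((ρ / σ) ^ K / D) := by
    intro y
    -- section as a set of `u : Fin K → ℝ`
    set T : Set ({i // p i} → ℝ) := (fun x => (x, y)) ⁻¹'
        ((MeasurableEquiv.piEquivPiSubtypeProd (fun _ : ι => ℝ) p).symm ⁻¹' S) with hT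
    have hTm : MeasurableSet T := by
      apply measurable_prodMk_right hSm'
    have hpc := measurePreserving_piCongrLeft (fun _ : {i // p i} => γ) e
    have h2 := hpc.measure_preimage hTm.nullMeasurableSet
    rw [← h2]
    have h3 := pi_le_smul_pi (ι := Fin K) γ volume (ENNReal.ofReal (1 / (2 * σ)))
      (by simp [hσ]) ENNReal.ofReal_ne_top (gaussian_le_volume hσ)
    refine (h3 _).trans ?_
    rw [Measure.smul_apply, smul_eq_mul, Fintype.card_fin]
    set κ' : Fin K → ℝ := fun a => (∑ i : {i // ¬ p i}, δ a i * y i) + κ a with hκ'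
    have hset : ((MeasurableEquiv.piCongrLeft (fun _ => ℝ) e) ⁻¹' T) =
        {u : Fin K → ℝ | ∀ a, |(∑ b, M a b * u b) + κ' a| ≤ ρ} := by
      ext u
      change (∀ a, |(∑ i, δ a i * ((MeasurableEquiv.piEquivPiSubtypeProd (fun _ : ι => ℝ) p).symm
          ((MeasurableEquiv.piCongrLeft (fun _ => ℝ) e) u, y)) i) + κ a| ≤ ρ) ↔
          ∀ a, |(∑ b, M a b * u b) + κ' a| ≤ ρ
      refine forall_congr' fun a => ?_
      have : (∑ i, δ a i * ((MeasurableEquiv.piEquivPiSubtypeProd (fun _ : ι => ℝ) p).symm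
          ((MeasurableEquiv.piCongrLeft (fun _ => ℝ) e) u, y)) i) + κ a =
          (∑ b, M a b * u b) + κ' a := by
        rw [hκ']
        simp only
        rw [← add_assoc]
        congr 1
        rw [← Fintype.sum_subtype_add_sum_subtype p]
        congr 1
        · symm
          apply Fintype.sum_equiv e
          intro b
          rw [hMdef, Matrix.of_apply]
          congr 1
          have hpb : p (e b) := (e b).2
          change u b = if h : p (e b) then (MeasurableEquiv.piCongrLeft (fun _ => ℝ) e) u ⟨e b, h⟩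
            else y ⟨e b, h⟩
          rw [dif_pos hpb]
          have : (⟨(e b : ι), hpb⟩ : {i // p i}) = e b := rfl
          rw [this]
          simp [MeasurableEquiv.piCongrLeft, Equiv.piCongrLeft_apply]
        · refine Finset.sum_congr rfl fun i _ => ?_
          congr 1
          have hpi := i.2
          change (if h : p i then (MeasurableEquiv.piCongrLeft (fun _ => ℝ) e) u ⟨i, h⟩
            else y ⟨i, h⟩) = y i
          rw [dif_neg hpi]
      rw [this]
    rw [hset]
    have hvol : (Measure.pi fun _ : Fin K => (volume : Measure ℝ)) = volume := rfl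
    rw [hvol, volume_cube M hM κ' hρ, ← ENNReal.ofReal_pow (by positivity),
      ← ENNReal.ofReal_mul (by positivity)]
    apply ENNReal.ofReal_le_ofReal
    have habs : 0 < |M.det| := abs_pos.2 hM
    rw [one_div, ← mul_div_assoc, ← mul_pow, div_le_div_iff₀ habs hD]
    have h5 : (2 * σ)⁻¹ * (2 * ρ) = ρ / σ := by field_simp
    rw [h5]
    have h6 : 0 ≤ (ρ / σ) ^ K := by positivity
    exact mul_le_mul_of_nonneg_left hdet h6
  calc ∫⁻ y, _ ∂(Measure.pi fun _ : {i // ¬ p i} => γ)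
      ≤ ∫⁻ _y, ENNReal.ofReal ((ρ / σ) ^ K / D) ∂(Measure.pi fun _ : {i // ¬ p i} => γ) :=
        lintegral_mono hsec
    _ = ENNReal.ofReal ((ρ / σ) ^ K / D) := by simp

/-- **Small ball estimate** for Gaussian vectors: if the vectors `δ a` have a `K × K` minor of
absolute value at least `D`, then the probability that all the inner products `⟨δ a, g⟩ + κ a`
are at most `ρ` in absolute value is at most `(ρ/σ)^K / D`. -/
theorem gaussian_smallball {ι : Type*} [Fintype ι] {K : ℕ} {σ : ℝ} (hσ : 0 < σ)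
    (δ : Fin K → ι → ℝ) (κ : Fin K → ℝ) (I : Fin K → ι) {ρ : ℝ} (hρ : 0 ≤ ρ) {D : ℝ} (hD : 0 < D)
    (hdet : D ≤ |(Matrix.of fun a b => δ a (I b)).det|) :
    (Measure.pi fun _ : ι => gaussianReal 0 (Real.toNNReal (σ ^ 2)))
      {g | ∀ a, |(∑ i, δ a i * g i) + κ a| ≤ ρ} ≤ ENNReal.ofReal ((ρ / σ) ^ K / D) := by
  classical
  have hI : Function.Injective I := by
    intro b b' hbb
    by_contra hne
    have h0 : (Matrix.of fun a b => δ a (I b)).det = 0 := by
      apply Matrix.det_zero_of_column_eq hne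
      intro a
      simp [hbb]
    rw [h0, abs_zero] at hdet
    linarith
  exact gaussian_smallball_aux hσ δ κ (fun i => i ∈ Set.range I) (Equiv.ofInjective I hI) hρ hD hdet

end Run7.h302
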