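import Pool.Agent.Run7.h302.Chernoff
import Pool.Agent.Run7.h302.Integral

/-!
# The expected number of pivots, with the probability of feasibility as a factor
-/

open MeasureTheory ProbabilityTheory Finset
open scoped ENNReal

namespace Run7.h302

/-- a nondegenerate system with a vertex is strictly feasible -/
lemma strictFeas_of_vertex {m n : ℕ} {A : Fin m → Fin n → ℝ} {b : Fin m → ℝ} (hnd : Nondeg A b)
    {v : Fin n → ℝ} (hv : v ∈ (feas A b).extremePoints ℝ) : (A, b) ∈ strictFeas m n := by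
  classical
  set S := actSet A b v with hS
  have hbas := act_isBasis hnd hv
  rw [← hS] at hbas
  set M : Matrix S (Fin n) ℝ := Matrix.of fun i j => A i j with hM
  have hinj : Function.Injective M.mulVecLin := by
    rw [← LinearMap.ker_eq_bot, LinearMap.ker_eq_bot']
    intro h hh
    apply ker_act_trivial hv
    intro i hi
    have := congrFun hh ⟨i, hi⟩
    simpa [Matrix.mulVec, dotProduct, hM] using this
  have hsurj : Function.Surjective M.mulVecLin := by
    rw [← LinearMap.injective_iff_surjective_of_finrank_eq_finrank]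
    · exact hinj
    · rw [Module.finrank_fintype_fun_eq_card, Module.finrank_fintype_fun_eq_card, Fintype.card_fin,
        Fintype.card_coe, hbas.1]
  obtain ⟨h, hh⟩ := hsurj fun _ => -1
  have hh' : ∀ i ∈ S, ∑ j, A i j * h j = -1 := by
    intro i hi
    have := congrFun hh ⟨i, hi⟩
    simpa [Matrix.mulVec, dotProduct, hM] using this
  have hev : ∀ i, ∀ᶠ ε in nhdsWithin (0 : ℝ) (Set.Ioi 0),
      i ∉ S → ε * |∑ j, A i j * h j| < b i - ∑ j, A i j * v j := by
    intro i
    by_cases hi : i ∈ S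
    · exact Filter.Eventually.of_forall fun ε h => absurd hi h
    · have hlt : 0 < b i - ∑ j, A i j * v j := by
        have h1 := hv.1 i
        have h2 : ∑ j, A i j * v j ≠ b i := fun h => hi (mem_actSet.2 h)
        have h3 := lt_of_le_of_ne h1 h2
        linarith
      have hc : Filter.Tendsto (fun ε : ℝ => ε * |∑ j, A i j * h j|) (nhds 0) (nhds 0) := by
        have : Continuous fun ε : ℝ => ε * |∑ j, A i j * h j| := by fun_prop
        have h3 := this.tendsto 0
        simpa using h3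
      have h4 := hc.eventually (gt_mem_nhds hlt)
      exact (h4.filter_mono nhdsWithin_le_nhds).mono fun ε h _ => h
  have hall := (Filter.eventually_all.2 hev).and self_mem_nhdsWithin
  obtain ⟨ε, hε, hεpos⟩ := hall.exists
  have hεpos' : 0 < ε := hεpos
  refine ⟨v + ε • h, fun i => ?_⟩
  simp only
  rw [row_add_smul]
  by_cases hi : i ∈ S
  · rw [hh' i hi]
    have := hv.1 i
    linarith
  · have h1 := hε i hi
    have h2 : ε * ∑ j, A i j * h j ≤ ε * |∑ j, A i j * h j| :=
      mul_le_mul_of_nonneg_left (le_abs_self _) hεpos'.le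
    linarith

lemma pivots_eq_zero {m n : ℕ} {A : Fin m → Fin n → ℝ} {b : Fin m → ℝ} (hnd : Nondeg A b)
    (h : (A, b) ∉ strictFeas m n) (R : Rule) (c z : Fin n → ℝ) :
    pivots R (feas A b) c z = 0 := by
  unfold pivots
  refine le_antisymm (iSup_le fun v => iSup_le fun hv => ?_) zero_le
  exact absurd (strictFeas_of_vertex hnd hv) h

lemma measurableSet_shifted_feas {m n : ℕ} (A₀ : Fin m → Fin n → ℝ) (b₀ : Fin m → ℝ) :
    MeasurableSet {ω : Data m n | (A₀ + ω.1, b₀ + ω.2) ∈ strictFeas m n} := by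
  have : Continuous fun ω : Data m n => ((A₀ + ω.1, b₀ + ω.2) : Data m n) := by fun_prop
  exact ((isOpen_strictFeas m n).preimage this).measurableSet

open Classical in
lemma inner_integral_split {m n : ℕ} (hn : 0 < n) {σ t θ Y ε : ℝ} (hσ : 0 < σ) (ht : 0 ≤ t)
    (hθ0 : 0 < θ) (hθ1 : θ < 1) (hε : 0 < ε) (hY : 0 < Y) {K d Λ : ℕ} (hK : 0 < K)
    (hΛ : n * Y * (1 + σ * t) < 2 ^ (Λ + 1))
    {A₀ : Fin m → Fin n → ℝ} {b₀ : Fin m → ℝ}
    (hF : (∑ i, ∑ j, A₀ i j ^ 2) + ∑ i, b₀ i ^ 2 ≤ 1) {c : Fin n → ℝ} (hc1 : ∃ j, |c j| = 1)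
    (hc : ∀ j, |c j| ≤ 1) {c₂ : Fin n → ℝ} (hcc : ∀ P v w, Improving P c₂ v w → Improving P c v w)
    (R : Rule) (z : Fin n → ℝ) (G : Fin m → Fin n → ℝ) :
    ∫⁻ g, pivots R (feas (A₀ + G) (b₀ + g)) c₂ z ∂(noiseB m σ) ≤
      (if G ∈ badA A₀ c d σ t θ Y then (m.choose n : ℝ≥0∞) else
        goodLen m K d Λ ε * noiseB m σ {g | (A₀ + G, b₀ + g) ∈ strictFeas m n} +
          m.choose n * noiseB m σ (badB (A₀ + G) b₀ c K d Λ σ t θ ε)) := by
  have hchoose : ∀ᵐ g ∂(noiseB m σ), pivots R (feas (A₀ + G) (b₀ + g)) c₂ z ≤ (m.choose n : ℝ≥0∞) := by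
    filter_upwards [ae_nondeg hσ (A₀ + G) b₀] with g hg
    apply pivots_le
    intro v k p _ hp
    exact path_le_choose hg hp
  split_ifs with hG
  · calc ∫⁻ g, pivots R (feas (A₀ + G) (b₀ + g)) c₂ z ∂(noiseB m σ)
        ≤ ∫⁻ _g, (m.choose n : ℝ≥0∞) ∂(noiseB m σ) := lintegral_mono_ae hchoose
      _ = (m.choose n : ℝ≥0∞) := by simp
  · set E := toMeasurable (noiseB m σ) (badB (A₀ + G) b₀ c K d Λ σ t θ ε) with hE
    have hEm : MeasurableSet E := measurableSet_toMeasurable _ _
    set S : Set (Fin m → ℝ) := {g | (A₀ + G, b₀ + g) ∈ strictFeas m n} with hS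
    have hSm : MeasurableSet S := by
      have : Continuous fun g : Fin m → ℝ => ((A₀ + G, b₀ + g) : Data m n) := by fun_prop
      exact ((isOpen_strictFeas m n).preimage this).measurableSet
    have hle : ∀ᵐ g ∂(noiseB m σ), pivots R (feas (A₀ + G) (b₀ + g)) c₂ z ≤
        S.indicator (fun _ => (goodLen m K d Λ ε : ℝ≥0∞)) g +
          E.indicator (fun _ => (m.choose n : ℝ≥0∞)) g := by
      filter_upwards [ae_nondeg hσ (A₀ + G) b₀, hchoose] with g hg hg2
      by_cases hgE : g ∈ E
      · rw [Set.indicator_of_mem hgE]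
        exact hg2.trans le_add_self
      · by_cases hgS : g ∈ S
        · have hgb : g ∉ badB (A₀ + G) b₀ c K d Λ σ t θ ε := fun h =>
            hgE (subset_toMeasurable _ _ h)
          have hgood := good_of_not_bad hF hc1 hc hY hθ0.le hθ1 hΛ hG hgb hg
          rw [Set.indicator_of_notMem hgE, Set.indicator_of_mem hgS, add_zero]
          apply pivots_le
          intro v k p _ hp
          have h1 := good_pathBound hn (by positivity) hθ0 hε hK hgood fun t ht => hcc _ _ _ (hp t ht)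
          rw [goodLen]
          omega
        · rw [pivots_eq_zero hg hgS]
          exact zero_le
    calc ∫⁻ g, pivots R (feas (A₀ + G) (b₀ + g)) c₂ z ∂(noiseB m σ)
        ≤ ∫⁻ g, (S.indicator (fun _ => (goodLen m K d Λ ε : ℝ≥0∞)) g +
            E.indicator (fun _ => (m.choose n : ℝ≥0∞)) g)
            ∂(noiseB m σ) := lintegral_mono_ae hle
      _ = goodLen m K d Λ ε * noiseB m σ S + m.choose n * noiseB m σ E := by
          rw [lintegral_add_left (measurable_const.indicator hSm), lintegral_indicator hEm,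
            lintegral_indicator hSm]
          simp
      _ = _ := by rw [hE, measure_toMeasurable]

lemma integral_bound_split {m n : ℕ} (hn : 0 < n) {σ t θ Y ε : ℝ} (hσ : 0 < σ) (ht : 0 ≤ t)
    (hθ0 : 0 < θ) (hθ1 : θ < 1) (hε : 0 < ε) (hY : 0 < Y) {K d Λ : ℕ} (hK : 0 < K)
    (hΛ : n * Y * (1 + σ * t) < 2 ^ (Λ + 1))
    {A₀ : Fin m → Fin n → ℝ} {b₀ : Fin m → ℝ}
    (hF : (∑ i, ∑ j, A₀ i j ^ 2) + ∑ i, b₀ i ^ 2 ≤ 1) {c : Fin n → ℝ} (hc1 : ∃ j, |c j| = 1)
    (hc : ∀ j, |c j| ≤ 1) {c₂ : Fin n → ℝ} (hcc : ∀ P v w, Improving P c₂ v w → Improving P c v w)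
    (R : Rule) (z : Fin n → ℝ) {pA pB : ℝ≥0∞}
    (hpA : noiseA m n σ (badA A₀ c d σ t θ Y) ≤ pA)
    (hpB : ∀ G, noiseB m σ (badB (A₀ + G) b₀ c K d Λ σ t θ ε) ≤ pB) :
    ∫⁻ ω, pivots R (feas (A₀ + ω.1) (b₀ + ω.2)) c₂ z ∂(noise m n σ) ≤
      goodLen m K d Λ ε * noise m n σ {ω | (A₀ + ω.1, b₀ + ω.2) ∈ strictFeas m n} +
        m.choose n * pB + m.choose n * pA := by
  classical
  set E := toMeasurable (noiseA m n σ) (badA A₀ c d σ t θ Y) with hE
  have hEm : MeasurableSet E := measurableSet_toMeasurable _ _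
  have hSm := measurableSet_shifted_feas A₀ b₀
  set S : Set (Data m n) := {ω | (A₀ + ω.1, b₀ + ω.2) ∈ strictFeas m n} with hS
  have hfib : Measurable fun G : Fin m → Fin n → ℝ =>
      noiseB m σ {g | (A₀ + G, b₀ + g) ∈ strictFeas m n} := by
    exact measurable_measure_prodMk_left (ν := noiseB m σ) hSm
  calc ∫⁻ ω, pivots R (feas (A₀ + ω.1) (b₀ + ω.2)) c₂ z ∂(noise m n σ)
      ≤ ∫⁻ G, ∫⁻ g, pivots R (feas (A₀ + G) (b₀ + g)) c₂ z ∂(noiseB m σ) ∂(noiseA m n σ) :=
        lintegral_prod_le _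
    _ ≤ ∫⁻ G, (goodLen m K d Λ ε * noiseB m σ {g | (A₀ + G, b₀ + g) ∈ strictFeas m n} +
          (m.choose n * pB + E.indicator (fun _ => (m.choose n : ℝ≥0∞)) G)) ∂(noiseA m n σ) := by
        apply lintegral_mono
        intro G
        refine (inner_integral_split (d := d) hn hσ ht hθ0 hθ1 hε hY hK hΛ hF hc1 hc hcc R z
          G).trans ?_
        simp only
        split_ifs with hG
        · rw [Set.indicator_of_mem (show G ∈ E from subset_toMeasurable _ _ hG)]
          exact le_add_self.trans le_add_self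
        · gcongr
          refine le_trans ?_ le_self_add
          gcongr
          exact hpB G
    _ = goodLen m K d Λ ε * ∫⁻ G, noiseB m σ {g | (A₀ + G, b₀ + g) ∈ strictFeas m n}
          ∂(noiseA m n σ) + (m.choose n * pB + m.choose n * noiseA m n σ E) := by
        rw [lintegral_add_left (hfib.const_mul _), lintegral_add_left measurable_const,
          lintegral_indicator hEm, lintegral_const_mul _ hfib]
        simp
    _ = goodLen m K d Λ ε * noise m n σ S + (m.choose n * pB + m.choose n * noiseA m n σ E) := by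
        congr 2
        have : noise m n σ = (noiseA m n σ).prod (noiseB m σ) := rfl
        rw [this, Measure.prod_apply hSm]
        rfl
    _ ≤ _ := by
        rw [hE, measure_toMeasurable, add_assoc]
        gcongr

end Run7.h302
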