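import Pool.Agent.Run7.h302.Main
import Pool.Agent.Run7.h302.Main2

open MeasureTheory ProbabilityTheory Finset
open scoped ENNReal

namespace Run7.h302

lemma integral_zero_of {m n : ℕ} {σ : ℝ} {A₀ : Fin m → Fin n → ℝ} {b₀ : Fin m → ℝ}
    {c : Fin n → ℝ} (R : Rule) (z : Fin n → ℝ)
    (h : ∀ (A : Fin m → Fin n → ℝ) (b : Fin m → ℝ) (v w : Fin n → ℝ),
      ¬ Improving (feas A b) c v w) :
    ∫⁻ ω, pivots R (feas (A₀ + ω.1) (b₀ + ω.2)) c z ∂(noise m n σ) = 0 := by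
  have h0 : ∀ ω : (Fin m → Fin n → ℝ) × (Fin m → ℝ),
      pivots R (feas (A₀ + ω.1) (b₀ + ω.2)) c z = 0 := by
    intro ω
    have h1 : pivots R (feas (A₀ + ω.1) (b₀ + ω.2)) c z ≤ ((0 : ℕ) : ℝ≥0∞) := by
      apply pivots_le
      intro v k p _ hp
      by_contra hk
      exact h _ _ _ _ (hp 0 (by omega))
    simpa using h1
  simp_rw [h0]
  simp

lemma improving_smul {n : ℕ} {c : Fin n → ℝ} (hc : c ≠ 0) (P : Set (Fin n → ℝ))
    (v w : Fin n → ℝ) (h : Improving P c v w) : Improving P (‖c‖⁻¹ • c) v w := by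
  refine ⟨h.1, ?_⟩
  have hpos : 0 < ‖c‖⁻¹ := inv_pos.2 (norm_pos_iff.2 hc)
  have h1 : ∀ x : Fin n → ℝ, ∑ j, (‖c‖⁻¹ • c) j * x j = ‖c‖⁻¹ * ∑ j, c j * x j := by
    intro x
    rw [Finset.mul_sum]
    refine Finset.sum_congr rfl fun j _ => ?_
    simp only [Pi.smul_apply, smul_eq_mul]
    ring
  rw [h1, h1]
  exact mul_lt_mul_of_pos_left h.2 hpos

/-- reduction to a normalised objective -/
lemma integral_le_of {R : Rule} {m n : ℕ} {σ : ℝ} {B : ℝ≥0∞} {z : Fin n → ℝ}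
    (h : 0 < n → n ≤ m → ∀ (A₀ : Fin m → Fin n → ℝ) (b₀ : Fin m → ℝ),
      (∑ i, ∑ j, A₀ i j ^ 2) + ∑ i, b₀ i ^ 2 ≤ 1 → ∀ c : Fin n → ℝ, (∃ j, |c j| = 1) →
      (∀ j, |c j| ≤ 1) → ∀ c₂ : Fin n → ℝ, (∀ P v w, Improving P c₂ v w → Improving P c v w) →
      ∫⁻ ω, pivots R (feas (A₀ + ω.1) (b₀ + ω.2)) c₂ z ∂(noise m n σ) ≤ B)
    (A₀ : Fin m → Fin n → ℝ) (b₀ : Fin m → ℝ)
    (hF : (∑ i, ∑ j, A₀ i j ^ 2) + ∑ i, b₀ i ^ 2 ≤ 1) (c : Fin n → ℝ) :
    ∫⁻ ω, pivots R (feas (A₀ + ω.1) (b₀ + ω.2)) c z ∂(noise m n σ) ≤ B := by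
  rcases Nat.eq_zero_or_pos n with hn0 | hn
  · subst hn0
    rw [integral_zero_of R z]
    · exact zero_le
    · intro A b v w h
      exact h.1.1 (Subsingleton.elim _ _)
  rcases Nat.lt_or_ge m n with hmn | hnm
  · rw [integral_zero_of R z]
    · exact zero_le
    · intro A b v w h
      obtain ⟨S, -, hS, -⟩ := exists_basis_act h.1.2.1
      have := card_le_univ S
      rw [Fintype.card_fin] at this
      omega
  by_cases hc : c = 0
  · subst hc
    rw [integral_zero_of R z]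
    · exact zero_le
    · intro A b v w h
      have := h.2
      simp at this
  have : Nonempty (Fin n) := ⟨⟨0, hn⟩⟩
  have hcpos : 0 < ‖c‖ := norm_pos_iff.2 hc
  refine h hn hnm A₀ b₀ hF (‖c‖⁻¹ • c) ?_ ?_ c (fun P v w h => improving_smul hc P v w h)
  · obtain ⟨j, hj⟩ := (IsGreatest.pi_norm c).1
    refine ⟨j, ?_⟩
    have hj' : |c j| = ‖c‖ := hj
    rw [Pi.smul_apply, smul_eq_mul, abs_mul, abs_of_pos (inv_pos.2 hcpos), hj',
      inv_mul_cancel₀ hcpos.ne']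
  · intro j
    rw [Pi.smul_apply, smul_eq_mul, abs_mul, abs_of_pos (inv_pos.2 hcpos), ← div_eq_inv_mul,
      div_le_one hcpos]
    exact norm_le_pi_norm c j

lemma smoothedComplexity_le_of {R : Rule} {m n : ℕ} {σ : ℝ} {B : ℝ≥0∞}
    (h : 0 < n → n ≤ m → ∀ (A₀ : Fin m → Fin n → ℝ) (b₀ : Fin m → ℝ),
      (∑ i, ∑ j, A₀ i j ^ 2) + ∑ i, b₀ i ^ 2 ≤ 1 → ∀ c : Fin n → ℝ, (∃ j, |c j| = 1) →
      (∀ j, |c j| ≤ 1) → ∀ c₂ : Fin n → ℝ, (∀ P v w, Improving P c₂ v w → Improving P c v w) →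
      ∀ z : Fin n → ℝ, ∫⁻ ω, pivots R (feas (A₀ + ω.1) (b₀ + ω.2)) c₂ z ∂(noise m n σ) ≤ B) :
    smoothedComplexity R m n σ ≤ B := by
  unfold smoothedComplexity
  refine iSup_le fun A₀ => iSup_le fun b₀ => iSup_le fun hF => iSup_le fun c => iSup_le fun z => ?_
  exact integral_le_of (fun hn hnm A₀ b₀ hF c hc1 hc c₂ hcc =>
    h hn hnm A₀ b₀ hF c hc1 hc c₂ hcc z) A₀ b₀ hF c

lemma clog_le_min {m n : ℕ} (hnm : n ≤ m) : Nat.clog (m + 1) (m.choose n) ≤ min n (m - n) :=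
  Nat.clog_le_of_le_pow (choose_le_pow_min hnm)

/-- **Subexponential smoothed complexity of all monotone pivoting rules.** -/
theorem smoothedComplexity_le (R : Rule) (m n : ℕ) {σ : ℝ} (hσ : 0 < σ) :
    smoothedComplexity R m n σ ≤ ENNReal.ofReal ((1 + 1 / σ) ^ 3 *
      ((m : ℝ) + 1) ^ (9 * Real.sqrt (Nat.clog (m + 1) (m.choose n) : ℝ) + 27)) := by
  apply smoothedComplexity_le_of
  intro hn hnm A₀ b₀ hF c hc1 hc c₂ hcc z
  have hN := clog_le_min hnm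
  refine (main_normalised hn hnm hσ hF hc1 hc hcc R z (ν := Nat.clog (m + 1) (m.choose n))
    (by omega) (Nat.le_pow_clog (by omega) _)).trans ?_
  apply ENNReal.ofReal_le_ofReal
  apply mul_le_mul_of_nonneg_left _ (by positivity)
  have hm1 : (1 : ℝ) ≤ (m : ℝ) + 1 := by
    have : (0 : ℝ) ≤ m := by positivity
    linarith
  rw [← Real.rpow_natCast]
  apply Real.rpow_le_rpow_of_exponent_le hm1
  push_cast
  have := Real.nat_sqrt_le_real_sqrt (a := Nat.clog (m + 1) (m.choose n))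
  linarith

/-- **Many constraints, or large noise: at most two pivots in expectation.** -/
theorem smoothedComplexity_le_two (R : Rule) (m n : ℕ) {σ : ℝ} (hσ : 0 < σ) (h2n : 2 * n ≤ m)
    (hm : 4 * (m : ℝ) * ((9 * Real.sqrt n + 40) * Real.log (m + 1) + 3 / σ ^ 2) ≤
      ((m : ℝ) - 2 * n) ^ 2) :
    smoothedComplexity R m n σ ≤ 2 := by
  apply smoothedComplexity_le_of
  intro hn hnm A₀ b₀ hF c hc1 hc c₂ hcc z
  have hνc : m.choose n ≤ (m + 1) ^ n :=
    (Nat.choose_le_pow m n).trans (Nat.pow_le_pow_left (by omega) _)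
  refine (main_split hn hnm hσ hF hc1 hc hcc R z (ν := n) hnm hνc).trans ?_
  have hP := shifted_feas_le h2n hσ hF
  have hm1 : (1 : ℝ) ≤ m := by
    have : 1 ≤ m := by omega
    exact_mod_cast this
  have hm0 : (0 : ℝ) < m := by linarith
  set s := Nat.sqrt n with hs
  set q : ℝ := m + 1 with hq
  have hq0 : 0 < q := by linarith
  set u : ℝ := 1 + 1 / σ with hu
  have hσi : 0 < 1 / σ := by positivity
  have hu0 : 0 < u := by linarith
  set L := Real.log q with hL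
  have hL2 : 2 ≤ 3 * L := by
    have h1 : Real.log 2 ≤ L := Real.log_le_log (by norm_num) (by linarith)
    have h2 := Real.log_two_gt_d9
    linarith
  have hlogu : 4 * Real.log u ≤ 2 / σ ^ 2 + 2 := by
    have h1 : Real.log u ≤ u - 1 := Real.log_le_sub_one_of_pos hu0
    have h2 : u - 1 = 1 / σ := by rw [hu]; ring
    have h3 : 2 / σ ^ 2 = 2 * (1 / σ) ^ 2 := by field_simp
    rw [h3]
    nlinarith [sq_nonneg (1 / σ - 1)]
  have hsqrt : (s : ℝ) ≤ Real.sqrt n := Real.nat_sqrt_le_real_sqrt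
  have hdiv : (9 * Real.sqrt n + 40) * L + 3 / σ ^ 2 ≤ ((m : ℝ) - 2 * n) ^ 2 / (4 * m) := by
    rw [le_div_iff₀ (by positivity)]
    linarith
  have hexp : u ^ 4 * q ^ (9 * s + 37) *
      Real.exp (1 / (2 * σ ^ 2) - (m - 2 * n : ℝ) ^ 2 / (4 * m)) ≤ 1 := by
    have h1 : u ^ 4 * q ^ (9 * s + 37) = Real.exp (4 * Real.log u + (9 * s + 37 : ℕ) * L) := by
      have h2 : Real.exp (4 * Real.log u) = u ^ 4 := by
        have : (4 : ℝ) * Real.log u = (4 : ℕ) * Real.log u := by norm_num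
        rw [this, Real.exp_nat_mul, Real.exp_log hu0]
      rw [Real.exp_add, h2, Real.exp_nat_mul, Real.exp_log hq0]
    rw [h1, ← Real.exp_add, Real.exp_le_one_iff]
    push_cast
    have h3 : 1 / (2 * σ ^ 2) = (1 / 2) * (1 / σ ^ 2) := by field_simp
    have h4 : 3 / σ ^ 2 = 3 * (1 / σ ^ 2) := by field_simp
    have h5 : 2 / σ ^ 2 = 2 * (1 / σ ^ 2) := by field_simp
    have h6 : 0 ≤ 1 / σ ^ 2 := by positivity
    rw [h3]
    rw [h4] at hdiv
    rw [h5] at hlogu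
    have h7 : (s : ℝ) * L ≤ Real.sqrt n * L := by
      apply mul_le_mul_of_nonneg_right hsqrt
      linarith
    nlinarith
  calc ENNReal.ofReal (u ^ 4 * q ^ (9 * s + 37)) *
        noise m n σ {ω | (A₀ + ω.1, b₀ + ω.2) ∈ strictFeas m n} + 1
      ≤ ENNReal.ofReal (u ^ 4 * q ^ (9 * s + 37)) *
        ENNReal.ofReal (Real.exp (1 / (2 * σ ^ 2) - (m - 2 * n : ℝ) ^ 2 / (4 * m))) + 1 := by
        gcongr
    _ = ENNReal.ofReal (u ^ 4 * q ^ (9 * s + 37) *
        Real.exp (1 / (2 * σ ^ 2) - (m - 2 * n : ℝ) ^ 2 / (4 * m))) + 1 := by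
        rw [← ENNReal.ofReal_mul (by positivity)]
    _ ≤ 1 + 1 := by
        gcongr
        rw [← ENNReal.ofReal_one]
        exact ENNReal.ofReal_le_ofReal hexp
    _ = 2 := by norm_num

/-- for `m` large compared to `n` and `1 / σ²` the hypothesis of the last theorem holds -/
lemma large_cond {m n : ℕ} {σ : ℝ} (hσ : 0 < σ)
    (h : 65536 * ((n : ℝ) + 1 + 1 / σ ^ 2) < m) : 2 * n ≤ m ∧
      4 * (m : ℝ) * ((9 * Real.sqrt n + 40) * Real.log (m + 1) + 3 / σ ^ 2) ≤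
        ((m : ℝ) - 2 * n) ^ 2 := by
  have hσ2 : 0 < 1 / σ ^ 2 := by positivity
  have hn0 : (0 : ℝ) ≤ n := by positivity
  have h1 : 65536 * (n : ℝ) ≤ m := by linarith
  have h2 : (65536 : ℝ) ≤ m := by linarith
  have h3 : 65536 * (1 / σ ^ 2) ≤ m := by linarith
  have hm0 : (0 : ℝ) < m := by linarith
  constructor
  · have : (2 * n : ℝ) ≤ m := by linarith
    exact_mod_cast this
  -- `x = (m + 1) ^ (1/4)`
  set x : ℝ := Real.sqrt (Real.sqrt (m + 1)) with hx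
  have hx0 : 0 ≤ x := Real.sqrt_nonneg _
  have hx2 : x ^ 2 = Real.sqrt (m + 1) := Real.sq_sqrt (Real.sqrt_nonneg _)
  have hx4 : x ^ 4 = m + 1 := by
    have : x ^ 4 = (x ^ 2) ^ 2 := by ring
    rw [this, hx2, Real.sq_sqrt (by positivity)]
  have hx16 : 16 ≤ x := by
    by_contra hlt
    push Not at hlt
    have : x ^ 4 < 16 ^ 4 := pow_lt_pow_left₀ hlt hx0 (by norm_num)
    rw [hx4] at this
    norm_num at this
    linarith
  have hxpos : 0 < x := by linarith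
  have hlog : Real.log (m + 1) ≤ 4 * x := by
    have h4 : Real.log (m + 1) = 4 * Real.log x := by
      rw [← hx4, Real.log_pow]
      norm_num
    have h5 : Real.log x ≤ x - 1 := Real.log_le_sub_one_of_pos hxpos
    rw [h4]
    linarith
  have hlog0 : 0 ≤ Real.log (m + 1) := Real.log_nonneg (by linarith)
  have hsqrt : Real.sqrt n ≤ x ^ 2 / 256 := by
    rw [hx2]
    have : Real.sqrt n ≤ Real.sqrt ((m + 1) / 65536) := by
      apply Real.sqrt_le_sqrt
      rw [le_div_iff₀ (by norm_num)]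
      linarith
    refine this.trans (le_of_eq ?_)
    rw [Real.sqrt_div (by positivity)]
    congr 1
    rw [show (65536 : ℝ) = 256 ^ 2 by norm_num, Real.sqrt_sq (by norm_num)]
  have hprod : (9 * Real.sqrt n + 40) * Real.log (m + 1) ≤ (9 * (x ^ 2 / 256) + 40) * (4 * x) := by
    gcongr
  have hx2b : 256 ≤ x ^ 2 := by nlinarith
  have hprod2 : (9 * (x ^ 2 / 256) + 40) * (4 * x) ≤ x ^ 3 := by
    have : x ^ 3 = x ^ 2 * x := by ring
    rw [this]
    nlinarith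
  have hx3 : x ^ 3 ≤ (m + 1) / 16 := by
    rw [← hx4]
    have : x ^ 4 = x ^ 3 * x := by ring
    rw [this]
    have : 0 ≤ x ^ 3 := by positivity
    nlinarith
  have h6 : 3 / σ ^ 2 ≤ 3 * m / 65536 := by
    have : 3 / σ ^ 2 = 3 * (1 / σ ^ 2) := by field_simp
    rw [this]
    linarith
  have h7 : (9 * Real.sqrt n + 40) * Real.log (m + 1) + 3 / σ ^ 2 ≤ m / 8 := by linarith
  have h8 : (m : ℝ) * (3 / 4) ≤ (m : ℝ) - 2 * n := by linarith
  calc 4 * (m : ℝ) * ((9 * Real.sqrt n + 40) * Real.log (m + 1) + 3 / σ ^ 2)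
      ≤ 4 * (m : ℝ) * (m / 8) := by gcongr
    _ ≤ ((m : ℝ) * (3 / 4)) ^ 2 := by nlinarith [sq_nonneg (m : ℝ)]
    _ ≤ ((m : ℝ) - 2 * n) ^ 2 := by
        apply pow_le_pow_left₀ (by positivity) h8

/-- **Uniform version**: the number `m` of constraints may be replaced by
`min m (65536 (n + 1 + 1 / σ²))` in the base. -/
theorem smoothedComplexity_le_uniform (R : Rule) (m n : ℕ) {σ : ℝ} (hσ : 0 < σ) :
    smoothedComplexity R m n σ ≤ ENNReal.ofReal ((1 + 1 / σ) ^ 3 *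
      (min (m : ℝ) (65536 * (n + 1 + 1 / σ ^ 2)) + 1) ^
        (9 * Real.sqrt (Nat.clog (m + 1) (m.choose n) : ℝ) + 27)) := by
  rcases le_or_gt (m : ℝ) (65536 * (n + 1 + 1 / σ ^ 2)) with h | h
  · rw [min_eq_left h]
    exact smoothedComplexity_le R m n hσ
  · rw [min_eq_right h.le]
    obtain ⟨h1, h2⟩ := large_cond hσ h
    refine (smoothedComplexity_le_two R m n hσ h1 h2).trans ?_
    have h3 : (2 : ℝ≥0∞) = ENNReal.ofReal 2 := by simp
    rw [h3]
    apply ENNReal.ofReal_le_ofReal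
    have hσ2 : 0 < 1 / σ ^ 2 := by positivity
    have hσ1 : 0 < 1 / σ := by positivity
    have hn0 : (0 : ℝ) ≤ n := by positivity
    set B : ℝ := 65536 * ((n : ℝ) + 1 + 1 / σ ^ 2) + 1 with hB
    have hB2 : 2 ≤ B := by rw [hB]; linarith
    set e : ℝ := 9 * Real.sqrt (Nat.clog (m + 1) (m.choose n) : ℝ) + 27 with he
    have he1 : 1 ≤ e := by
      rw [he]
      have := Real.sqrt_nonneg (Nat.clog (m + 1) (m.choose n) : ℝ)
      linarith
    have h4 : B ≤ B ^ e := by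
      conv_lhs => rw [← Real.rpow_one B]
      exact Real.rpow_le_rpow_of_exponent_le (by linarith) he1
    have h5 : (1 : ℝ) ≤ (1 + 1 / σ) ^ 3 := one_le_pow₀ (by linarith)
    calc (2 : ℝ) ≤ 1 * B := by linarith
      _ ≤ (1 + 1 / σ) ^ 3 * B ^ e := by
          apply mul_le_mul h5 h4 (by linarith) (by positivity)

end Run7.h302
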