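import Pool.Agent.Run7.h302.ConeSplit
import Pool.Agent.Run7.h302.Subexp

/-!
# Large noise, on both sides of `m = 2 n`
-/

open MeasureTheory ProbabilityTheory Finset
open scoped ENNReal

namespace Run7.h302

/-- The smoothed complexity `C(m, n, σ)` of the rule `R`, with the supremum over the nonzero `z`
only: the supremum of the expected number of pivot steps on `{x : (A₀ + G) x ≤ b₀ + g}`, over all
`A₀, b₀` with Frobenius norm `‖(A₀, b₀)‖ ≤ 1`, all `c` and all `z ≠ 0`. -/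
noncomputable def smoothedComplexityNZ (R : Rule) (m n : ℕ) (σ : ℝ) : ℝ≥0∞ :=
  ⨆ (A₀ : Fin m → Fin n → ℝ) (b₀ : Fin m → ℝ)
    (_ : (∑ i, ∑ j, A₀ i j ^ 2) + ∑ i, b₀ i ^ 2 ≤ 1) (c : Fin n → ℝ) (z : Fin n → ℝ)
    (_ : z ≠ 0), ∫⁻ ω, pivots R (feas (A₀ + ω.1) (b₀ + ω.2)) c z ∂(noise m n σ)

lemma smoothedComplexityNZ_le (R : Rule) (m n : ℕ) (σ : ℝ) :
    smoothedComplexityNZ R m n σ ≤ smoothedComplexity R m n σ := by
  unfold smoothedComplexityNZ smoothedComplexity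
  refine iSup_mono fun A₀ => iSup_mono fun b₀ => iSup_mono fun hF => iSup_mono fun c =>
    iSup_mono fun z => iSup_le fun _ => le_rfl

/-- the product of the bound on long paths and of the small probability is at most one -/
lemma product_le_one {m n ν : ℕ} {σ : ℝ} (hσ : 0 < σ) (hm1 : (1 : ℝ) ≤ m)
    (hm : 4 * (m : ℝ) * ((9 * Real.sqrt ν + 40) * Real.log (m + 1) + 3 / σ ^ 2) ≤
      ((m : ℝ) - 2 * n) ^ 2) :
    (1 + 1 / σ) ^ 4 * (m + 1 : ℝ) ^ (9 * Nat.sqrt ν + 37) *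
      Real.exp (1 / (2 * σ ^ 2) - (m - 2 * n : ℝ) ^ 2 / (4 * m)) ≤ 1 := by
  have hm0 : (0 : ℝ) < m := by linarith
  set s := Nat.sqrt ν with hs
  set q : ℝ := m + 1 with hq
  have hq0 : 0 < q := by linarith
  set u : ℝ := 1 + 1 / σ with hu
  have hσi : 0 < 1 / σ := by positivity
  have hu0 : 0 < u := by linarith
  set L := Real.log q with hL
  have hL2 : 2 ≤ 3 * L := by
    have h1 : Real.log 2 ≤ L := Real.log_le_log (by norm_num) (by linarith)
    have h2 := Real.log_two_gt_d9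
    linarith
  have hlogu : 4 * Real.log u ≤ 2 / σ ^ 2 + 2 := by
    have h1 : Real.log u ≤ u - 1 := Real.log_le_sub_one_of_pos hu0
    have h2 : u - 1 = 1 / σ := by rw [hu]; ring
    have h3 : 2 / σ ^ 2 = 2 * (1 / σ) ^ 2 := by field_simp
    rw [h3]
    nlinarith [sq_nonneg (1 / σ - 1)]
  have hsqrt : (s : ℝ) ≤ Real.sqrt ν := Real.nat_sqrt_le_real_sqrt
  have hdiv : (9 * Real.sqrt ν + 40) * L + 3 / σ ^ 2 ≤ ((m : ℝ) - 2 * n) ^ 2 / (4 * m) := by
    rw [le_div_iff₀ (by positivity)]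
    linarith
  have h1 : u ^ 4 * q ^ (9 * s + 37) = Real.exp (4 * Real.log u + (9 * s + 37 : ℕ) * L) := by
    have h2 : Real.exp (4 * Real.log u) = u ^ 4 := by
      have : (4 : ℝ) * Real.log u = (4 : ℕ) * Real.log u := by norm_num
      rw [this, Real.exp_nat_mul, Real.exp_log hu0]
    rw [Real.exp_add, h2, Real.exp_nat_mul, Real.exp_log hq0]
  rw [h1, ← Real.exp_add, Real.exp_le_one_iff]
  push_cast
  have h3 : 1 / (2 * σ ^ 2) = (1 / 2) * (1 / σ ^ 2) := by field_simp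
  have h4 : 3 / σ ^ 2 = 3 * (1 / σ ^ 2) := by field_simp
  have h5 : 2 / σ ^ 2 = 2 * (1 / σ ^ 2) := by field_simp
  have h6 : 0 ≤ 1 / σ ^ 2 := by positivity
  rw [h3]
  rw [h4] at hdiv
  rw [h5] at hlogu
  have h7 : (s : ℝ) * L ≤ Real.sqrt ν * L := by
    apply mul_le_mul_of_nonneg_right hsqrt
    linarith
  nlinarith

/-- **Large noise, few constraints**: at most two pivots in expectation. -/
theorem smoothedComplexityNZ_le_two_of_le (R : Rule) (m n : ℕ) {σ : ℝ} (hσ : 0 < σ)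
    (h2n : m ≤ 2 * n)
    (hm : 4 * (m : ℝ) * ((9 * Real.sqrt ((m - n : ℕ) : ℝ) + 40) * Real.log (m + 1) + 3 / σ ^ 2) ≤
      ((m : ℝ) - 2 * n) ^ 2) :
    smoothedComplexityNZ R m n σ ≤ 2 := by
  unfold smoothedComplexityNZ
  refine iSup_le fun A₀ => iSup_le fun b₀ => iSup_le fun hF => iSup_le fun c => iSup_le fun z =>
    iSup_le fun hz => ?_
  refine integral_le_of (fun hn hnm A₀ b₀ hF c hc1 hc c₂ hcc => ?_) A₀ b₀ hF c
  have hνc : m.choose n ≤ (m + 1) ^ (m - n) := by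
    rw [← Nat.choose_symm hnm]
    exact (Nat.choose_le_pow m (m - n)).trans (Nat.pow_le_pow_left (by omega) _)
  obtain ⟨t, θ, Y, ε, s, Λ, pA, pB, ht, hθ0, hθ1, hε, hY, hΛ, hpA, hpB, hp, hlen⟩ :=
    exists_params hn hnm hσ A₀ b₀ c (ν := m - n) (by omega) hνc
  have : Nonempty (Fin n) := ⟨⟨0, hn⟩⟩
  have hzpos : 0 < ‖z‖ := norm_pos_iff.2 hz
  have hsum : ∀ x : Fin n → ℝ, ∑ j, (‖z‖⁻¹ • z) j * x j = ‖z‖⁻¹ * ∑ j, z j * x j := by
    intro x
    rw [Finset.mul_sum]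
    refine Finset.sum_congr rfl fun j _ => ?_
    simp only [Pi.smul_apply, smul_eq_mul]
    ring
  have hz' : ∃ j, |(‖z‖⁻¹ • z) j| = 1 := by
    obtain ⟨j, hj⟩ := (IsGreatest.pi_norm z).1
    refine ⟨j, ?_⟩
    have hj' : |z j| = ‖z‖ := hj
    rw [Pi.smul_apply, smul_eq_mul, abs_mul, abs_of_pos (inv_pos.2 hzpos), hj',
      inv_mul_cancel₀ hzpos.ne']
  have hzz : ∀ x v : Fin n → ℝ, ∑ j, z j * x j ≤ ∑ j, z j * v j →
      ∑ j, (‖z‖⁻¹ • z) j * x j ≤ ∑ j, (‖z‖⁻¹ • z) j * v j := by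
    intro x v h
    rw [hsum, hsum]
    exact mul_le_mul_of_nonneg_left h (inv_pos.2 hzpos).le
  refine (integral_bound_cone (d := s) hn hσ ht hθ0 hθ1 hε hY (K := s + 1) (by omega)
    hΛ hF hc1 hc hcc R hz' hzz hpA hpB).trans ?_
  have hP := shifted_cone_le (A₀ := A₀) h2n hnm hσ
    (le_trans (le_add_of_nonneg_right (Finset.sum_nonneg fun i _ => sq_nonneg _)) hF)
    (‖z‖⁻¹ • z)
  have hm1 : (1 : ℝ) ≤ m := by
    have : 1 ≤ m := by omega
    exact_mod_cast this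
  have hprod := product_le_one hσ hm1 hm
  set P := noiseA m n σ {G | A₀ + G ∈ strictCone m n (‖z‖⁻¹ • z)} with hPdef
  have hP1 : P ≤ 1 := prob_le_one
  calc ((goodLen m (s + 1) s Λ ε : ℝ≥0∞) + m.choose n * pB) * P + m.choose n * pA
      = (goodLen m (s + 1) s Λ ε : ℝ≥0∞) * P + (m.choose n * pB * P + m.choose n * pA) := by
        rw [add_mul, add_assoc]
    _ ≤ ENNReal.ofReal ((1 + 1 / σ) ^ 4 * (m + 1 : ℝ) ^ (9 * Nat.sqrt (m - n) + 37)) *
        ENNReal.ofReal (Real.exp (1 / (2 * σ ^ 2) - (m - 2 * n : ℝ) ^ 2 / (4 * m))) +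
        (m.choose n * pB * 1 + m.choose n * pA) := by
        gcongr
    _ ≤ 1 + 1 := by
        rw [mul_one]
        refine add_le_add ?_ hp
        rw [← ENNReal.ofReal_mul (by positivity), ← ENNReal.ofReal_one]
        exact ENNReal.ofReal_le_ofReal hprod
    _ = 2 := by norm_num

/-- **Large noise**: at most two pivots in expectation, outside a window around `m = 2 n`. -/
theorem smoothedComplexityNZ_le_two (R : Rule) (m n : ℕ) {σ : ℝ} (hσ : 0 < σ)
    (hm : 4 * (m : ℝ) * ((9 * Real.sqrt ((min n (m - n) : ℕ) : ℝ) + 40) * Real.log (m + 1) +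
      3 / σ ^ 2) ≤ ((m : ℝ) - 2 * n) ^ 2) :
    smoothedComplexityNZ R m n σ ≤ 2 := by
  rcases Nat.lt_or_ge m (2 * n) with h | h
  · rw [min_eq_right (by omega)] at hm
    exact smoothedComplexityNZ_le_two_of_le R m n hσ h.le hm
  · rw [min_eq_left (by omega)] at hm
    exact (smoothedComplexityNZ_le R m n σ).trans (smoothedComplexity_le_two R m n hσ h hm)

end Run7.h302
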